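import Mathlib

/-!
# Alternants, and the factorised sum rule

`alt e N z = det (z_i ^ e_j)`.  With `ex a = (0, a, 3, 3+a, 6, 6+a, …)` the product
`alt (ex 1) · alt (ex 2)` satisfies the recursion of the sum of the qKZ solution times the square
of the Vandermonde determinant.
-/

set_option autoImplicit false

namespace Pool.Agent.H34.Hom

open Finset Polynomial

/-- exponents `0, a, 3, 3+a, 6, …` -/
def ex (a : ℕ) : ℕ → ℕ
  | 0 => 0
  | 1 => a
  | k + 2 => ex a k + 3

lemma ex_two_mul (a k : ℕ) : ex a (2 * k) = 3 * k := by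
  induction k with
  | zero => rfl
  | succ k ih =>
    have : ex a (2 * (k + 1)) = ex a (2 * k) + 3 := rfl
    rw [this, ih]; ring

lemma ex_two_mul_add (a k : ℕ) : ex a (2 * k + 1) = 3 * k + a := by
  induction k with
  | zero => simp [ex]
  | succ k ih =>
    have : ex a (2 * (k + 1) + 1) = ex a (2 * k + 1) + 3 := rfl
    rw [this, ih]; ring

section ring

variable {R : Type*} [CommRing R]

/-- alternant -/
def alt (e : ℕ → ℕ) (N : ℕ) (z : ℕ → R) : R :=
  Matrix.det (Matrix.of fun i j : Fin N => z i ^ e j)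

lemma alt_congr (e : ℕ → ℕ) (N : ℕ) {z z' : ℕ → R} (h : ∀ i, i < N → z i = z' i) :
    alt e N z = alt e N z' := by
  unfold alt
  congr 2
  funext i j
  rw [h i i.2]

lemma alt_swap (e : ℕ → ℕ) {N : ℕ} (z : ℕ → R) {a b : ℕ} (ha : a < N) (hb : b < N) (hab : a ≠ b) :
    alt e N (z ∘ Equiv.swap a b) = - alt e N z := by
  unfold alt
  set τ : Equiv.Perm (Fin N) := Equiv.swap ⟨a, ha⟩ ⟨b, hb⟩ with hτ
  have h1 : (Matrix.of fun i j : Fin N => (z ∘ Equiv.swap a b) i ^ e j) =
      (Matrix.of fun i j : Fin N => z i ^ e j).submatrix τ id := by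
    ext i j
    simp only [Matrix.of_apply, Matrix.submatrix_apply, Function.comp, id]
    congr 2
    rw [hτ]
    rcases eq_or_ne (i : ℕ) a with h | h
    · have : i = ⟨a, ha⟩ := Fin.ext h
      rw [this]; simp
    · rcases eq_or_ne (i : ℕ) b with h' | h'
      · have : i = ⟨b, hb⟩ := Fin.ext h'
        rw [this]; simp
      · rw [Equiv.swap_apply_of_ne_of_ne h h', Equiv.swap_apply_of_ne_of_ne]
        · intro e; exact h (congrArg Fin.val e)
        · intro e; exact h' (congrArg Fin.val e)
  rw [h1, Matrix.det_permute, hτ, Equiv.Perm.sign_swap]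
  · simp
  · intro e; exact hab (congrArg Fin.val e)

lemma alt_eq_zero (e : ℕ → ℕ) {N : ℕ} (z : ℕ → R) {a b : ℕ} (ha : a < N) (hb : b < N)
    (hab : a ≠ b) (h : z a = z b) : alt e N z = 0 := by
  unfold alt
  apply Matrix.det_zero_of_row_eq (i := (⟨a, ha⟩ : Fin N)) (j := ⟨b, hb⟩)
  · intro h; exact hab (congrArg Fin.val h)
  · funext j
    simp [h]

/-- Vandermonde -/
lemma alt_id (N : ℕ) (z : ℕ → R) :
    alt id N z = (Matrix.vandermonde (fun i : Fin N => z i)).det := by
  unfold alt
  congr 1

lemma alt_id_succ (N : ℕ) (z : ℕ → R) :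
    alt id (N + 1) z = (∏ j : Fin N, (z (j + 1) - z 0)) * alt id N (fun k => z (k + 1)) := by
  rw [alt_id, alt_id, Matrix.det_vandermonde, Matrix.det_vandermonde, Fin.prod_univ_succ,
    Fin.prod_Ioi_zero]
  congr 1
  apply Finset.prod_congr rfl
  intro i _
  rw [Fin.prod_Ioi_succ]
  rfl

/-- block recursion of the alternants `ex a` -/
lemma alt_ex_rec (a N : ℕ) (z : ℕ → R) (w : R) (h0 : z 0 ^ 3 = w ^ 3) (h1 : z 1 = w) :
    alt (ex a) (2 + N) z = (w ^ a - z 0 ^ a) * (∏ i : Fin N, (z (2 + i) ^ 3 - w ^ 3)) *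
      alt (ex a) N (fun k => z (2 + k)) := by
  classical
  set A : Matrix (Fin (2 + N)) (Fin (2 + N)) R := Matrix.of fun i j => z i ^ ex a j with hA
  set T : Matrix (Fin (2 + N)) (Fin (2 + N)) R := Matrix.of fun j k =>
    if j = k then 1 else if (k : ℕ) = j + 2 then - w ^ 3 else 0 with hT
  have hTdet : T.det = 1 := by
    rw [Matrix.det_of_isUpperTriangular]
    · simp [hT]
    · intro j k hjk
      simp only [id] at hjk
      simp only [hT, Matrix.of_apply]
      have h1 : j ≠ k := fun h => by rw [h] at hjk; exact lt_irrefl _ hjk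
      have h2 : ¬ ((k : ℕ) = j + 2) := by
        have : (k : ℕ) < j := hjk
        omega
      rw [if_neg h1, if_neg h2]
  have hdet : A.det = (A * T).det := by rw [Matrix.det_mul, hTdet, mul_one]
  have hAT : ∀ i k, (A * T) i k = z i ^ ex a k - (if 2 ≤ (k : ℕ) then w ^ 3 * z i ^ ex a (k - 2) else 0) := by
    intro i k
    rw [Matrix.mul_apply]
    by_cases hk : 2 ≤ (k : ℕ)
    · set k' : Fin (2 + N) := ⟨k - 2, by have := k.2; omega⟩ with hk'
      have hne : k ≠ k' := by
        intro h
        have := congrArg Fin.val h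
        simp [hk'] at this
        omega
      rw [← Finset.sum_subset (Finset.subset_univ {k, k'})]
      · rw [Finset.sum_pair hne]
        simp only [hA, hT, Matrix.of_apply, if_pos hk]
        have hkk : (k : ℕ) = (k' : ℕ) + 2 := by
          show (k : ℕ) = (k : ℕ) - 2 + 2
          omega
        have hkv : (k' : ℕ) = k - 2 := rfl
        rw [if_neg (Ne.symm hne), if_pos hkk, if_pos trivial, hkv]
        ring
      · intro x _ hx
        simp only [mem_insert, mem_singleton, not_or] at hx
        simp only [hT, Matrix.of_apply]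
        rw [if_neg hx.1, if_neg, mul_zero]
        intro h
        apply hx.2
        apply Fin.ext
        simp [hk']
        omega
    · rw [Finset.sum_eq_single k]
      · simp [hA, hT, hk]
      · intro x _ hx
        simp only [hT, Matrix.of_apply]
        rw [if_neg hx, if_neg (by omega), mul_zero]
      · simp
  -- block form
  have hblock : (A * T).submatrix (finSumFinEquiv (m := 2) (n := N)) finSumFinEquiv =
      Matrix.fromBlocks (Matrix.of fun i j : Fin 2 => z i ^ ex a j) 0
        (Matrix.of fun (i : Fin N) (j : Fin 2) => z (2 + i) ^ ex a j)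
        (Matrix.of fun i j : Fin N => (z (2 + i) ^ 3 - w ^ 3) * z (2 + i) ^ ex a j) := by
    ext i j
    rw [Matrix.submatrix_apply, hAT]
    rcases i with i | i <;> rcases j with j | j
    · have hj : ¬ 2 ≤ ((finSumFinEquiv (m := 2) (n := N) (Sum.inl j) : Fin (2 + N)) : ℕ) := by
        have := j.2
        simp
        omega
      rw [if_neg hj]
      simp
    · have hj : 2 ≤ ((finSumFinEquiv (m := 2) (n := N) (Sum.inr j) : Fin (2 + N)) : ℕ) := by
        simp
      rw [if_pos hj]
      simp only [finSumFinEquiv_apply_left, finSumFinEquiv_apply_right, Matrix.fromBlocks_apply₁₂,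
        Matrix.zero_apply, Fin.val_castAdd, Fin.val_natAdd]
      have e1 : ex a (2 + (j : ℕ)) = ex a j + 3 := by rw [add_comm]; rfl
      have e2 : 2 + (j : ℕ) - 2 = j := by omega
      have e3 : z (i : ℕ) ^ 3 = w ^ 3 := by
        fin_cases i
        · exact h0
        · simp [h1]
      rw [e1, e2, pow_add, e3]
      ring
    · have hj : ¬ 2 ≤ ((finSumFinEquiv (m := 2) (n := N) (Sum.inl j) : Fin (2 + N)) : ℕ) := by
        have := j.2
        simp
        omega
      rw [if_neg hj]
      simp
    · have hj : 2 ≤ ((finSumFinEquiv (m := 2) (n := N) (Sum.inr j) : Fin (2 + N)) : ℕ) := by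
        simp
      rw [if_pos hj]
      simp only [finSumFinEquiv_apply_right, Matrix.fromBlocks_apply₂₂,
        Matrix.of_apply, Fin.val_natAdd]
      have e1 : ex a (2 + (j : ℕ)) = ex a j + 3 := by rw [add_comm]; rfl
      have e2 : 2 + (j : ℕ) - 2 = j := by omega
      rw [e1, e2, pow_add]
      ring
  have hd2 : (Matrix.of fun i j : Fin 2 => z i ^ ex a j).det = w ^ a - z 0 ^ a := by
    rw [Matrix.det_fin_two]
    simp [ex, h1]
  unfold alt
  rw [hdet, ← Matrix.det_submatrix_equiv_self (finSumFinEquiv (m := 2) (n := N)), hblock,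
    Matrix.det_fromBlocks_zero₁₂, hd2, Matrix.det_mul_column, mul_assoc]
  rfl

end ring

section poly

/-- polynomiality in the first variable -/
lemma alt_poly (e : ℕ → ℕ) (n D : ℕ) (hD : ∀ j, j ≤ n → e j ≤ D) (z : ℕ → ℂ) :
    ∃ p : ℂ[X], p.natDegree ≤ D ∧ ∀ t, p.eval t = alt e (n + 1) (Function.update z 0 t) := by
  set A : Matrix (Fin (n + 1)) (Fin (n + 1)) ℂ[X] :=
    Matrix.of fun i j => (if i = 0 then X else C (z i)) ^ e j with hA
  refine ⟨A.det, ?_, fun t => ?_⟩
  · rw [Matrix.det_succ_row_zero]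
    apply Polynomial.natDegree_sum_le_of_forall_le
    intro j _
    have h1 : (A.submatrix Fin.succ j.succAbove) =
        (C : ℂ →+* ℂ[X]).mapMatrix (Matrix.of fun (i k : Fin n) => z (i.succ) ^ e (j.succAbove k)) := by
      ext1 i k
      simp only [hA, Matrix.submatrix_apply, Matrix.of_apply, RingHom.mapMatrix_apply,
        Matrix.map_apply]
      rw [if_neg (Fin.succ_ne_zero i), map_pow]
    rw [h1, ← RingHom.map_det]
    refine (natDegree_mul_C_le _ _).trans ?_
    have h2 : ((-1 : ℂ[X]) ^ (j : ℕ)) = C ((-1) ^ (j : ℕ)) := by simp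
    rw [h2]
    refine (natDegree_C_mul_le _ _).trans ?_
    simp only [hA, Matrix.of_apply, if_true]
    rw [natDegree_X_pow]
    exact hD j (by have := j.2; omega)
  · unfold alt
    rw [← Polynomial.coe_evalRingHom, RingHom.map_det]
    congr 1
    ext1 i j
    simp only [hA, RingHom.mapMatrix_apply, Matrix.map_apply, Matrix.of_apply, map_pow]
    congr 1
    by_cases hi : i = 0
    · rw [if_pos hi, hi]; simp
    · rw [if_neg hi]
      have : (i : ℕ) ≠ 0 := fun h => hi (Fin.ext h)
      rw [Function.update_of_ne this]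
      simp

end poly

end Pool.Agent.H34.Hom
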