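import Pool.Agent.H34.Hom.Vals
import Mathlib.Analysis.SpecialFunctions.Stirling

/-!
# Asymptotics of the product formulas
-/

namespace Pool.Agent.H34.Hom

open Finset Filter Topology Stirling

/-- ratio `A(k+1)/A(k)` -/
noncomputable def ra (k : ℕ) : ℝ := ((3 * k + 1).factorial : ℝ) * (k.factorial : ℝ) /
      (((2 * k).factorial : ℝ) * ((2 * k + 1).factorial : ℝ))

lemma asm_succ (k : ℕ) : asm (k + 1) = asm k * ra k := rfl

lemma ra_pos (k : ℕ) : 0 < ra k := by unfold ra; positivity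

/-- normalised squared ratio -/
noncomputable def mu (k : ℕ) : ℝ := ra k ^ 2 * (16 / 27) ^ (2 * k + 1)

lemma mu_pos (k : ℕ) : 0 < mu k := by
  unfold mu; have := ra_pos k; positivity

lemma fact_eq (n : ℕ) (hn : n ≠ 0) :
    (n.factorial : ℝ) = stirlingSeq n * (√(2 * n : ℝ) * (n / Real.exp 1) ^ n) := by
  unfold stirlingSeq
  have : (√(2 * n : ℝ) * (n / Real.exp 1) ^ n) ≠ 0 := by
    have hn' : (0 : ℝ) < n := by exact_mod_cast Nat.pos_of_ne_zero hn
    positivity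
  field_simp

lemma mu_eq (k : ℕ) (hk : k ≠ 0) : mu k = (4 / 9) * ((3 * k + 1) / (2 * k + 1) : ℝ) ^ 2 *
    (stirlingSeq (3 * k) * stirlingSeq k / stirlingSeq (2 * k) ^ 2) ^ 2 := by
  have hk' : (0 : ℝ) < k := by exact_mod_cast Nat.pos_of_ne_zero hk
  have h3 := fact_eq (3 * k) (by omega)
  have h2 := fact_eq (2 * k) (by omega)
  have h1 := fact_eq k hk
  have e1 : ((3 * k + 1).factorial : ℝ) = (3 * k + 1) * ((3 * k).factorial : ℝ) := by
    rw [Nat.factorial_succ]; push_cast; ring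
  have e2 : ((2 * k + 1).factorial : ℝ) = (2 * k + 1) * ((2 * k).factorial : ℝ) := by
    rw [Nat.factorial_succ]; push_cast; ring
  have s2 : 0 < stirlingSeq (2 * k) := by
    obtain ⟨m, hm⟩ : ∃ m, 2 * k = m + 1 := ⟨2 * k - 1, by omega⟩
    rw [hm]; exact stirlingSeq'_pos m
  unfold mu ra
  rw [e1, e2, h3, h2, h1]
  push_cast
  have q3 : √(2 * (3 * (k : ℝ))) ^ 2 = 6 * k := by rw [Real.sq_sqrt (by positivity)]; ring
  have q2 : √(2 * (2 * (k : ℝ))) ^ 2 = 4 * k := by rw [Real.sq_sqrt (by positivity)]; ring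
  have q1 : √(2 * (k : ℝ)) ^ 2 = 2 * k := by rw [Real.sq_sqrt (by positivity)]
  have hx : (0 : ℝ) < (k / Real.exp 1) ^ k := by positivity
  have p3 : (3 * (k : ℝ) / Real.exp 1) ^ (3 * k) = 27 ^ k * ((k / Real.exp 1) ^ k) ^ 3 := by
    rw [mul_div_assoc, mul_pow, pow_mul, pow_mul' (k / Real.exp 1) 3 k]; norm_num
  have p2 : (2 * (k : ℝ) / Real.exp 1) ^ (2 * k) = 4 ^ k * ((k / Real.exp 1) ^ k) ^ 2 := by
    rw [mul_div_assoc, mul_pow, pow_mul, pow_mul' (k / Real.exp 1) 2 k]; norm_num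
  rw [p3, p2]
  have e27 : ((16 : ℝ) / 27) ^ (2 * k + 1) = 16 / 27 * ((4 ^ k) ^ 4 / (27 ^ k) ^ 2) := by
    rw [pow_succ, pow_mul', div_pow]
    have : (16 : ℝ) ^ k = (4 ^ k) ^ 2 := by rw [← pow_mul, mul_comm k 2, pow_mul]; norm_num
    rw [this]
    ring
  rw [e27]
  generalize (k / Real.exp 1 : ℝ) ^ k = x at *
  generalize stirlingSeq (3 * k) = S3 at *
  generalize stirlingSeq (2 * k) = S2 at *
  generalize stirlingSeq k = S1 at *
  generalize √(2 * (3 * (k : ℝ))) = a3 at *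
  generalize √(2 * (2 * (k : ℝ))) = a2 at *
  generalize √(2 * (k : ℝ)) = a1 at *
  have ha2 : a2 ≠ 0 := by
    intro h; rw [h] at q2; norm_num at q2; exact hk q2
  have hk1 : (2 * (k : ℝ) + 1) ≠ 0 := by positivity
  have h4 : (4 : ℝ) ^ k ≠ 0 := by positivity
  have h27 : (27 : ℝ) ^ k ≠ 0 := by positivity
  generalize (4 : ℝ) ^ k = f at *
  generalize (27 : ℝ) ^ k = g at *
  have ha24 : a2 ^ 4 = 16 * k ^ 2 := by
    have : a2 ^ 4 = (a2 ^ 2) ^ 2 := by ring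
    rw [this, q2]; ring
  field_simp
  rw [ha24, q3, q1]
  ring

theorem tendsto_mu : Tendsto mu atTop (𝓝 1) := by
  have h0 := tendsto_stirlingSeq_sqrt_pi
  have h3 : Tendsto (fun k : ℕ => stirlingSeq (3 * k)) atTop (𝓝 √Real.pi) :=
    h0.comp (tendsto_atTop_mono (fun k => by simp only [id]; omega) tendsto_id)
  have h2 : Tendsto (fun k : ℕ => stirlingSeq (2 * k)) atTop (𝓝 √Real.pi) :=
    h0.comp (tendsto_atTop_mono (fun k => by simp only [id]; omega) tendsto_id)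
  have hpi : √Real.pi ≠ 0 := by positivity
  have h4 : Tendsto (fun k : ℕ => ((3 * k + 1) / (2 * k + 1) : ℝ)) atTop (𝓝 (3 / 2)) := by
    have e : ∀ᶠ k : ℕ in atTop, ((3 + 1 / (k : ℝ)) / (2 + 1 / (k : ℝ))) = ((3 * k + 1) / (2 * k + 1) : ℝ) := by
      filter_upwards [eventually_gt_atTop 0] with k hk
      have : (0 : ℝ) < k := by exact_mod_cast hk
      field_simp
    have h5 : Tendsto (fun k : ℕ => 1 / (k : ℝ)) atTop (𝓝 0) := tendsto_one_div_atTop_nhds_zero_nat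
    have h6 := (h5.const_add 3).div (h5.const_add 2) (by norm_num)
    simp only [add_zero] at h6
    exact h6.congr' e
  have h7 := ((h4.pow 2).const_mul (4 / 9)).mul (((h3.mul h0).div (h2.pow 2) (pow_ne_zero 2 hpi)).pow 2)
  have e1 : (4 / 9 : ℝ) * (3 / 2) ^ 2 * (√Real.pi * √Real.pi / √Real.pi ^ 2) ^ 2 = 1 := by
    field_simp
    norm_num
  rw [e1] at h7
  refine h7.congr' ?_
  filter_upwards [eventually_gt_atTop 0] with k hk
  rw [mu_eq k hk.ne']
  rfl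

lemma mu_succ (k : ℕ) : mu (k + 1) = mu k * (1 + 5 / (9 * (2 * k + 1) * (2 * k + 3)) : ℝ) ^ 2 := by
  unfold mu ra
  have e1 : ((3 * (k + 1) + 1).factorial : ℝ) = (3 * k + 4) * (3 * k + 3) * (3 * k + 2) * ((3 * k + 1).factorial : ℝ) := by
    have : 3 * (k + 1) + 1 = (3 * k + 1) + 1 + 1 + 1 := by ring
    rw [this, Nat.factorial_succ, Nat.factorial_succ, Nat.factorial_succ]; push_cast; ring
  have e2 : ((2 * (k + 1)).factorial : ℝ) = (2 * k + 2) * (2 * k + 1) * ((2 * k).factorial : ℝ) := by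
    have : 2 * (k + 1) = (2 * k) + 1 + 1 := by ring
    rw [this, Nat.factorial_succ, Nat.factorial_succ]; push_cast; ring
  have e3 : ((2 * (k + 1) + 1).factorial : ℝ) = (2 * k + 3) * (2 * k + 2) * ((2 * k + 1).factorial : ℝ) := by
    have : 2 * (k + 1) + 1 = (2 * k + 1) + 1 + 1 := by ring
    rw [this, Nat.factorial_succ, Nat.factorial_succ]; push_cast; ring
  have e4 : ((k + 1).factorial : ℝ) = (k + 1) * (k.factorial : ℝ) := by
    rw [Nat.factorial_succ]; push_cast; ring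
  have e5 : ((16 : ℝ) / 27) ^ (2 * (k + 1) + 1) = (16 / 27) ^ (2 * k + 1) * (16 / 27) ^ 2 := by
    rw [← pow_add]; congr 1
  rw [e1, e2, e3, e4, e5]
  field_simp
  ring

/-- `log μ` plus its leading term -/
noncomputable def Ee (k : ℕ) : ℝ := Real.log (mu k) + 5 / (9 * (2 * k + 1))

lemma Ee_diff (k : ℕ) (hk : 1 ≤ k) : |Ee (k + 1) - Ee k| ≤ 1 / (k : ℝ) ^ 2 - 1 / ((k : ℝ) + 1) ^ 2 := by
  have hk' : (1 : ℝ) ≤ k := by exact_mod_cast hk
  set x : ℝ := 5 / (9 * (2 * k + 1) * (2 * k + 3)) with hx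
  have hx0 : 0 ≤ x := by positivity
  have e1 : Ee (k + 1) - Ee k = 2 * (Real.log (1 + x) - x) := by
    unfold Ee
    rw [mu_succ, Real.log_mul (mu_pos k).ne' (by positivity), Real.log_pow]
    rw [← hx]
    have : (5 : ℝ) / (9 * (2 * ((k + 1 : ℕ) : ℝ) + 1)) - 5 / (9 * (2 * k + 1)) = -2 * x := by
      rw [hx]; push_cast; field_simp; ring
    push_cast at this ⊢
    linear_combination this
  have h1 : Real.log (1 + x) ≤ x := by
    have := Real.log_le_sub_one_of_pos (show 0 < 1 + x by positivity)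
    linarith
  have h2 := Real.le_log_one_add_of_nonneg hx0
  have h3 : x - x ^ 2 / 2 ≤ 2 * x / (x + 2) := by
    rw [le_div_iff₀ (by positivity)]
    nlinarith [pow_nonneg hx0 3]
  rw [e1, abs_le]
  have h4 : x ^ 2 ≤ 1 / (k : ℝ) ^ 2 - 1 / ((k : ℝ) + 1) ^ 2 := by
    have h5 : 1 / (k : ℝ) ^ 2 - 1 / ((k : ℝ) + 1) ^ 2 = (2 * k + 1) / (k ^ 2 * (k + 1) ^ 2) := by
      field_simp; ring
    rw [h5, hx, div_pow, div_le_div_iff₀ (by positivity) (by positivity)]
    have h6 : (k : ℝ) ^ 2 * (k + 1) ^ 2 ≤ ((2 * k + 1) * (2 * k + 3)) ^ 2 := by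
      have : (k : ℝ) * (k + 1) ≤ (2 * k + 1) * (2 * k + 3) := by nlinarith
      calc (k : ℝ) ^ 2 * (k + 1) ^ 2 = (k * (k + 1)) ^ 2 := by ring
        _ ≤ _ := by gcongr
    nlinarith [sq_nonneg ((2 * (k : ℝ) + 1) * (2 * k + 3))]
  constructor <;> nlinarith

lemma tendsto_Ee : Tendsto Ee atTop (𝓝 0) := by
  unfold Ee
  have h1 : Tendsto (fun k => Real.log (mu k)) atTop (𝓝 0) := by
    have := (Real.continuousAt_log (one_ne_zero)).tendsto.comp tendsto_mu
    rw [Real.log_one] at this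
    exact this
  have h2 : Tendsto (fun k : ℕ => (5 : ℝ) / (9 * (2 * k + 1))) atTop (𝓝 0) := by
    apply Tendsto.div_atTop tendsto_const_nhds
    apply Tendsto.const_mul_atTop (by norm_num)
    apply tendsto_atTop_add_const_right
    exact Tendsto.const_mul_atTop (by norm_num) tendsto_natCast_atTop_atTop
  have := h1.add h2
  simpa using this

lemma tail_bound (E : ℕ → ℝ) (h : ∀ k, 1 ≤ k → |E (k + 1) - E k| ≤ 1 / (k : ℝ) ^ 2 - 1 / ((k : ℝ) + 1) ^ 2)
    (h0 : Tendsto E atTop (𝓝 0)) (k : ℕ) (hk : 1 ≤ k) : |E k| ≤ 1 / (k : ℝ) ^ 2 := by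
  have key : ∀ n : ℕ, |E (k + n) - E k| ≤ 1 / (k : ℝ) ^ 2 - 1 / ((k : ℝ) + n) ^ 2 := by
    intro n
    induction n with
    | zero => simp
    | succ n ih =>
      have h1 := h (k + n) (by omega)
      have h2 : E (k + (n + 1)) - E k = (E (k + n + 1) - E (k + n)) + (E (k + n) - E k) := by
        rw [← add_assoc]; ring
      rw [h2]
      refine (abs_add_le _ _).trans ?_
      push_cast at h1 ⊢
      have : (k : ℝ) + (n + 1) = k + n + 1 := by ring
      rw [this]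
      linarith
  have h3 : ∀ n : ℕ, |E (k + n) - E k| ≤ 1 / (k : ℝ) ^ 2 := by
    intro n
    refine (key n).trans ?_
    have : 0 ≤ 1 / ((k : ℝ) + n) ^ 2 := by positivity
    linarith
  have h4 : Tendsto (fun n => |E (k + n) - E k|) atTop (𝓝 |0 - E k|) := by
    apply Tendsto.abs
    apply Tendsto.sub_const
    have := h0.comp (tendsto_add_atTop_nat k)
    refine this.congr ?_
    intro n
    simp [add_comm]
  have h5 := le_of_tendsto' h4 h3
  simpa using h5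

lemma Ee_bound (k : ℕ) (hk : 1 ≤ k) : |Ee k| ≤ 1 / (k : ℝ) ^ 2 :=
  tail_bound Ee Ee_diff tendsto_Ee k hk

/-- power law from the ratio asymptotics -/
theorem power_law (u : ℕ → ℝ) (hu : ∀ n, 1 ≤ n → 0 < u n) (a K : ℝ)
    (h : ∀ n : ℕ, 1 ≤ n → |Real.log (u (n + 1) / u n) + a / n| ≤ K / (n : ℝ) ^ 2) :
    ∃ c C : ℝ, 0 < c ∧ 0 < C ∧ ∀ n : ℕ, 1 ≤ n → c * (n : ℝ) ^ (-a) ≤ u n ∧ u n ≤ C * (n : ℝ) ^ (-a) := by
  set K' : ℝ := |K| + |a| with hK'
  have hK'0 : 0 ≤ K' := by positivity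
  set d : ℕ → ℝ := fun n => Real.log (u n) + a * Real.log n with hd
  have h1 : ∀ n : ℕ, 1 ≤ n → |d (n + 1) - d n| ≤ K' / (n : ℝ) ^ 2 := by
    intro n hn
    have hn' : (0 : ℝ) < n := by exact_mod_cast hn
    have e1 : d (n + 1) - d n = (Real.log (u (n + 1) / u n) + a / n) +
        a * (Real.log (1 + 1 / n) - 1 / n) := by
      rw [hd]
      simp only
      have : (1 + 1 / (n : ℝ)) = ((n + 1 : ℕ) : ℝ) / n := by push_cast; field_simp
      rw [this, Real.log_div (hu _ (by omega)).ne' (hu n hn).ne', Real.log_div (by positivity) hn'.ne']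
      ring
    have h2 : |Real.log (1 + 1 / (n : ℝ)) - 1 / n| ≤ 1 / (n : ℝ) ^ 2 := by
      set y : ℝ := 1 / (n : ℝ) with hy
      have hy0 : 0 ≤ y := by positivity
      have h3 : Real.log (1 + y) ≤ y := by
        have := Real.log_le_sub_one_of_pos (show 0 < 1 + y by positivity)
        linarith
      have h4 := Real.le_log_one_add_of_nonneg hy0
      have h5 : y - y ^ 2 ≤ 2 * y / (y + 2) := by
        rw [le_div_iff₀ (by positivity)]
        nlinarith [pow_nonneg hy0 3, sq_nonneg y]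
      have h6 : 1 / (n : ℝ) ^ 2 = y ^ 2 := by rw [hy]; field_simp
      rw [h6, abs_le]
      constructor <;> nlinarith [sq_nonneg y]
    rw [e1]
    refine (abs_add_le _ _).trans ?_
    rw [abs_mul]
    have h7 : K / (n : ℝ) ^ 2 ≤ |K| / (n : ℝ) ^ 2 := by gcongr; exact le_abs_self K
    have h8 : |a| * |Real.log (1 + 1 / (n : ℝ)) - 1 / n| ≤ |a| * (1 / (n : ℝ) ^ 2) := by gcongr
    have h9 : K' / (n : ℝ) ^ 2 = |K| / (n : ℝ) ^ 2 + |a| * (1 / (n : ℝ) ^ 2) := by rw [hK']; ring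
    rw [h9]
    have := h n hn
    linarith
  have h2 : ∀ n : ℕ, 1 ≤ n → |d n - d 1| ≤ 2 * K' * (1 - 1 / n) := by
    intro n hn
    induction n, hn using Nat.le_induction with
    | base => simp
    | succ n hn ih =>
      have hn' : (1 : ℝ) ≤ n := by exact_mod_cast hn
      have e : d (n + 1) - d 1 = (d (n + 1) - d n) + (d n - d 1) := by ring
      rw [e]
      refine (abs_add_le _ _).trans ?_
      have h3 := h1 n hn
      have h4 : K' / (n : ℝ) ^ 2 ≤ 2 * K' * (1 / n - 1 / (n + 1)) := by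
        have h5 : 1 / (n : ℝ) - 1 / (n + 1) = 1 / (n * (n + 1)) := by field_simp; ring
        rw [h5, mul_one_div, div_le_div_iff₀ (by positivity) (by positivity)]
        nlinarith [mul_nonneg hK'0 (sub_nonneg.2 hn'), mul_nonneg (mul_nonneg hK'0 (show (0:ℝ) ≤ n by linarith)) (sub_nonneg.2 hn')]
      push_cast
      linarith
  have h3 : ∀ n : ℕ, 1 ≤ n → |d n - d 1| ≤ 2 * K' := by
    intro n hn
    refine (h2 n hn).trans ?_
    have : 0 ≤ 1 / (n : ℝ) := by positivity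
    nlinarith
  refine ⟨Real.exp (d 1 - 2 * K'), Real.exp (d 1 + 2 * K'), Real.exp_pos _, Real.exp_pos _, ?_⟩
  intro n hn
  have hn' : (0 : ℝ) < n := by exact_mod_cast hn
  have h4 := abs_le.1 (h3 n hn)
  have e1 : u n = Real.exp (d n) * (n : ℝ) ^ (-a) := by
    rw [Real.rpow_def_of_pos hn', ← Real.exp_add, hd]
    simp only
    have : Real.log (u n) + a * Real.log n + Real.log n * -a = Real.log (u n) := by ring
    rw [this, Real.exp_log (hu n hn)]
  rw [e1]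
  have hp : 0 < (n : ℝ) ^ (-a) := Real.rpow_pos_of_pos hn' _
  constructor
  · apply mul_le_mul_of_nonneg_right _ hp.le
    exact Real.exp_le_exp.2 (by linarith)
  · apply mul_le_mul_of_nonneg_right _ hp.le
    exact Real.exp_le_exp.2 (by linarith)


/-- `A_HT(2n)` -/
noncomputable def aht (n : ℕ) : ℝ := asm n ^ 2 * ∏ k ∈ range n, ((3 * k + 2) / (3 * k + 1) : ℝ)

lemma aht_pos (n : ℕ) : 0 < aht n := by
  unfold aht
  have := asm_pos n
  have h2 : 0 < ∏ k ∈ range n, ((3 * k + 2) / (3 * k + 1) : ℝ) := by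
    apply prod_pos
    intro k _
    positivity
  positivity

/-- two-leg probability -/
noncomputable def p2 (n : ℕ) : ℝ := asm (2 * n) / aht n ^ 2

lemma p2_pos (n : ℕ) : 0 < p2 n := by
  unfold p2; have := asm_pos (2 * n); have := aht_pos n; positivity

lemma p2_succ (n : ℕ) : p2 (n + 1) / p2 n =
    ra (2 * n) * ra (2 * n + 1) / ra n ^ 4 * ((3 * n + 1) / (3 * n + 2) : ℝ) ^ 2 := by
  have h1 : asm (2 * (n + 1)) = asm (2 * n) * ra (2 * n) * ra (2 * n + 1) := by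
    have : 2 * (n + 1) = (2 * n + 1) + 1 := by ring
    rw [this, asm_succ, asm_succ]
  have h2 : aht (n + 1) = aht n * (ra n ^ 2 * ((3 * n + 2) / (3 * n + 1) : ℝ)) := by
    unfold aht
    rw [asm_succ, prod_range_succ]; ring
  unfold p2
  rw [h1, h2]
  have := (asm_pos (2 * n)).ne'
  have := (aht_pos n).ne'
  have := (ra_pos n).ne'
  field_simp

lemma log_p2_succ (n : ℕ) : Real.log (p2 (n + 1) / p2 n) =
    (Real.log (mu (2 * n)) + Real.log (mu (2 * n + 1)) - 4 * Real.log (mu n)) / 2 -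
      2 * Real.log (1 + 1 / (3 * n + 1)) := by
  have h1 : ∀ k, Real.log (mu k) = 2 * Real.log (ra k) + (2 * k + 1) * Real.log (16 / 27) := by
    intro k
    unfold mu
    rw [Real.log_mul (pow_ne_zero 2 (ra_pos k).ne') (by positivity), Real.log_pow, Real.log_pow]
    push_cast; ring
  have e1 : (1 + 1 / (3 * (n : ℝ) + 1)) = (3 * n + 2) / (3 * n + 1) := by
    field_simp; ring
  rw [p2_succ, h1, h1, h1, e1]
  have r1 := (ra_pos (2 * n)).ne'
  have r2 := (ra_pos (2 * n + 1)).ne'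
  have r3 := (ra_pos n).ne'
  have l2 : Real.log ((3 * (n : ℝ) + 2) / (3 * n + 1)) = Real.log (3 * n + 2) - Real.log (3 * n + 1) :=
    Real.log_div (by positivity) (by positivity)
  have l3 : Real.log ((3 * (n : ℝ) + 1) / (3 * n + 2)) = Real.log (3 * n + 1) - Real.log (3 * n + 2) :=
    Real.log_div (by positivity) (by positivity)
  rw [Real.log_mul (by positivity) (by positivity), Real.log_div (by positivity) (by positivity),
    Real.log_mul r1 r2, Real.log_pow, Real.log_pow, l2, l3]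
  push_cast
  ring

lemma p2_log_bound (n : ℕ) (hn : 1 ≤ n) :
    |Real.log (p2 (n + 1) / p2 n) + (1 / 4) / n| ≤ 10 / (n : ℝ) ^ 2 := by
  have hn' : (1 : ℝ) ≤ n := by exact_mod_cast hn
  have b1 := abs_le.1 (Ee_bound (2 * n) (by omega))
  have b2 := abs_le.1 (Ee_bound (2 * n + 1) (by omega))
  have b3 := abs_le.1 (Ee_bound n hn)
  unfold Ee at b1 b2 b3
  push_cast at b1 b2 b3
  rw [log_p2_succ]
  have y0 : (0 : ℝ) ≤ 1 / (3 * n + 1) := by positivity
  have l1 := Real.le_log_one_add_of_nonneg y0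
  have l2 : Real.log (1 + 1 / (3 * (n : ℝ) + 1)) ≤ 1 / (3 * n + 1) := by
    have := Real.log_le_sub_one_of_pos (show 0 < 1 + 1 / (3 * (n : ℝ) + 1) by positivity)
    linarith
  have l3 : 2 * (1 / (3 * (n : ℝ) + 1)) / (1 / (3 * n + 1) + 2) = 2 / 3 * (1 / (2 * n + 1)) := by
    field_simp; ring
  rw [l3] at l1
  have s1 : 1 / (2 * (n : ℝ)) ^ 2 ≤ (1 / 4) * (1 / (n : ℝ) ^ 2) := by
    rw [mul_pow, mul_one_div, div_le_div_iff₀ (by positivity) (by positivity)]; nlinarith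
  have s2 : 1 / (2 * (n : ℝ) + 1) ^ 2 ≤ (1 / 4) * (1 / (n : ℝ) ^ 2) := by
    rw [mul_one_div, div_le_div_iff₀ (by positivity) (by positivity)]; nlinarith
  have u1 : (5 : ℝ) / (9 * (2 * (2 * (n : ℝ)) + 1)) = 5 / 9 * (1 / (4 * n + 1)) := by field_simp; ring
  have u2 : (5 : ℝ) / (9 * (2 * (2 * (n : ℝ) + 1) + 1)) = 5 / 9 * (1 / (4 * n + 3)) := by field_simp; ring
  have u3 : (5 : ℝ) / (9 * (2 * (n : ℝ) + 1)) = 5 / 9 * (1 / (2 * n + 1)) := by field_simp
  have u4 : (1 / 4 : ℝ) / n = 1 / 4 * (1 / n) := by ring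
  have u5 : 10 / (n : ℝ) ^ 2 = 10 * (1 / (n : ℝ) ^ 2) := by ring
  rw [u1] at b1
  rw [u2] at b2
  rw [u3] at b3
  rw [u4, u5]
  have a1 : 1 / (4 * (n : ℝ) + 1) ≤ 1 / 4 * (1 / n) := by
    rw [mul_one_div, div_le_div_iff₀ (by positivity) (by positivity)]; linarith
  have a2 : 1 / (4 * (n : ℝ) + 3) ≤ 1 / 4 * (1 / n) := by
    rw [mul_one_div, div_le_div_iff₀ (by positivity) (by positivity)]; linarith
  have a3 : 1 / (2 * (n : ℝ) + 1) ≤ 1 / 2 * (1 / n) := by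
    rw [mul_one_div, div_le_div_iff₀ (by positivity) (by positivity)]; linarith
  have a4 : 1 / (3 * (n : ℝ) + 1) ≤ 1 / 3 * (1 / n) := by
    rw [mul_one_div, div_le_div_iff₀ (by positivity) (by positivity)]; linarith
  have c1 : 1 / 4 * (1 / (n : ℝ)) - 1 / 16 * (1 / (n : ℝ) ^ 2) ≤ 1 / (4 * (n : ℝ) + 1) := by
    rw [le_div_iff₀ (by positivity)]
    have : (1 / 4 * (1 / (n : ℝ)) - 1 / 16 * (1 / (n : ℝ) ^ 2)) * (4 * (n : ℝ) + 1) = 1 - 1 / 16 * (1 / (n : ℝ) ^ 2) := by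
      field_simp; ring
    rw [this]
    have : 0 ≤ 1 / (n : ℝ) ^ 2 := by positivity
    linarith
  have c2 : 1 / 4 * (1 / (n : ℝ)) - 3 / 16 * (1 / (n : ℝ) ^ 2) ≤ 1 / (4 * (n : ℝ) + 3) := by
    rw [le_div_iff₀ (by positivity)]
    have : (1 / 4 * (1 / (n : ℝ)) - 3 / 16 * (1 / (n : ℝ) ^ 2)) * (4 * (n : ℝ) + 3) = 1 - 9 / 16 * (1 / (n : ℝ) ^ 2) := by
      field_simp; ring
    rw [this]
    have : 0 ≤ 1 / (n : ℝ) ^ 2 := by positivity
    linarith
  have c3 : 1 / 2 * (1 / (n : ℝ)) - 1 / 4 * (1 / (n : ℝ) ^ 2) ≤ 1 / (2 * (n : ℝ) + 1) := by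
    rw [le_div_iff₀ (by positivity)]
    have : (1 / 2 * (1 / (n : ℝ)) - 1 / 4 * (1 / (n : ℝ) ^ 2)) * (2 * (n : ℝ) + 1) = 1 - 1 / 4 * (1 / (n : ℝ) ^ 2) := by
      field_simp; ring
    rw [this]
    have : 0 ≤ 1 / (n : ℝ) ^ 2 := by positivity
    linarith
  have e1 : 0 ≤ 1 / (n : ℝ) ^ 2 := by positivity
  rw [abs_le]
  constructor <;> linarith

/-- **the two-leg (1/4) law**: `A(2n)/A_HT(2n)² ≍ n^{-1/4}` -/
theorem p2_power_law : ∃ c C : ℝ, 0 < c ∧ 0 < C ∧ ∀ n : ℕ, 1 ≤ n →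
    c * (n : ℝ) ^ (-(1 / 4 : ℝ)) ≤ asm (2 * n) / aht n ^ 2 ∧
      asm (2 * n) / aht n ^ 2 ≤ C * (n : ℝ) ^ (-(1 / 4 : ℝ)) :=
  power_law p2 (fun n _ => p2_pos n) (1 / 4) 10 p2_log_bound

/-! ### the four-leg law -/

/-- the four-leg number `P4(2m+2)`, `M = 2m` glued strands -/
noncomputable def f4 (m : ℕ) : ℝ :=
  (6 * m + 3) * (A0 (2 * m) : ℝ) ^ 2 * asm (2 * m + 1) /
    (9 ^ m * (((4 * m + 3).factorial : ℝ) * ((4 * m + 2).factorial : ℝ)))

lemma f4_pos (m : ℕ) : 0 < f4 m := by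
  unfold f4
  have := asm_pos (2 * m + 1)
  have h : (0 : ℝ) < (A0 (2 * m) : ℝ) := by exact_mod_cast A0_pos m
  positivity

/-- the ratio `P4/A` -/
noncomputable def rr (m : ℕ) : ℝ :=
  (6 * m + 3) * (A0 (2 * m) : ℝ) ^ 2 / (9 ^ m * (((2 * m + 1).factorial : ℝ) * ((6 * m + 4).factorial : ℝ)))

lemma rr_pos (m : ℕ) : 0 < rr m := by
  unfold rr
  have h : (0 : ℝ) < (A0 (2 * m) : ℝ) := by exact_mod_cast A0_pos m
  positivity

lemma f4_eq (m : ℕ) : f4 m = rr m * asm (2 * m + 2) := by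
  have e : asm (2 * m + 2) = asm (2 * m + 1) * ra (2 * m + 1) := asm_succ (2 * m + 1)
  rw [e]
  unfold f4 rr ra
  have g1 : 3 * (2 * m + 1) + 1 = 6 * m + 4 := by ring
  have g2 : 2 * (2 * m + 1) = 4 * m + 2 := by ring
  have g3 : 4 * m + 2 + 1 = 4 * m + 3 := by ring
  rw [g1, g2, g3]
  field_simp

lemma A0_rec_real (m : ℕ) : ((m : ℝ) + 2) * (A0 (2 * (m + 1)) : ℝ) =
    36 * (m + 1) * (2 * m + 1) * (2 * m + 3) * (3 * m + 4) * (3 * m + 5) * (A0 (2 * m) : ℝ) := by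
  have := A0_rec m
  have h2 : 2 * (m + 1) = 2 * m + 2 := by ring
  rw [h2]
  exact_mod_cast this

lemma rr_succ (m : ℕ) : rr (m + 1) = rr m *
    ((2 * m + 1) * (2 * m + 3) * (3 * m + 4) * (3 * m + 5) / ((m + 2) ^ 2 * (6 * m + 5) * (6 * m + 7)) : ℝ) := by
  have hA : (A0 (2 * (m + 1)) : ℝ) = 36 * (m + 1) * (2 * m + 1) * (2 * m + 3) * (3 * m + 4) * (3 * m + 5) *
      (A0 (2 * m) : ℝ) / (m + 2) := by
    rw [eq_div_iff (by positivity), ← A0_rec_real m]; ring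
  unfold rr
  rw [hA]
  have e1 : ((2 * (m + 1) + 1).factorial : ℝ) = (2 * m + 3) * (2 * m + 2) * ((2 * m + 1).factorial : ℝ) := by
    have : 2 * (m + 1) + 1 = (2 * m + 1) + 1 + 1 := by ring
    rw [this, Nat.factorial_succ, Nat.factorial_succ]; push_cast; ring
  have e2 : ((6 * (m + 1) + 4).factorial : ℝ) = (6 * m + 10) * (6 * m + 9) * (6 * m + 8) * (6 * m + 7) *
      (6 * m + 6) * (6 * m + 5) * ((6 * m + 4).factorial : ℝ) := by
    have : 6 * (m + 1) + 4 = (6 * m + 4) + 1 + 1 + 1 + 1 + 1 + 1 := by ring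
    rw [this, Nat.factorial_succ, Nat.factorial_succ, Nat.factorial_succ, Nat.factorial_succ,
      Nat.factorial_succ, Nat.factorial_succ]; push_cast; ring
  rw [e1, e2, pow_succ]
  push_cast
  field_simp
  ring

/-- four-leg probability on the cylinder of circumference `2n`, `n = m+1` -/
noncomputable def p4 (n : ℕ) : ℝ := f4 (n - 1) / aht n ^ 2

lemma p4_pos (n : ℕ) : 0 < p4 n := by
  unfold p4
  have := f4_pos (n - 1)
  have := aht_pos n
  positivity

lemma p4_eq (n : ℕ) (hn : 1 ≤ n) : p4 n = rr (n - 1) * p2 n := by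
  obtain ⟨m, rfl⟩ : ∃ m, n = m + 1 := ⟨n - 1, by omega⟩
  unfold p4 p2
  rw [Nat.add_sub_cancel, f4_eq]
  have : 2 * (m + 1) = 2 * m + 2 := by ring
  rw [this]; ring

lemma rr_log_bound (m : ℕ) : |Real.log (rr (m + 1) / rr m) + 1 / ((m : ℝ) + 1)| ≤ 4 / ((m : ℝ) + 1) ^ 2 := by
  rw [rr_succ, mul_div_cancel_left₀ _ (rr_pos m).ne']
  set n : ℝ := (m : ℝ) + 1 with hn
  have hn1 : 1 ≤ n := by rw [hn]; have : (0 : ℝ) ≤ m := by positivity
                         linarith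
  have e : ((2 * m + 1) * (2 * m + 3) * (3 * m + 4) * (3 * m + 5) / ((m + 2) ^ 2 * (6 * m + 5) * (6 * m + 7)) : ℝ) =
      (2 * n - 1) * (2 * n + 1) * (3 * n + 1) * (3 * n + 2) / ((n + 1) ^ 2 * (6 * n - 1) * (6 * n + 1)) := by
    rw [hn]; congr 1 <;> ring
  rw [e]
  have d1 : 0 < (n + 1) ^ 2 * (6 * n - 1) * (6 * n + 1) := by
    have : 0 < 6 * n - 1 := by linarith
    positivity
  have d2 : 0 < (2 * n - 1) * (2 * n + 1) * (3 * n + 1) * (3 * n + 2) := by
    have : 0 < 2 * n - 1 := by linarith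
    positivity
  set N := (2 * n - 1) * (2 * n + 1) * (3 * n + 1) * (3 * n + 2) with hN
  set D := (n + 1) ^ 2 * (6 * n - 1) * (6 * n + 1) with hD
  have up := Real.log_le_sub_one_of_pos (show 0 < N / D by positivity)
  have lo := Real.one_sub_inv_le_log_of_pos (show 0 < N / D by positivity)
  rw [abs_le]
  constructor
  · have h1 : -(4 / n ^ 2) ≤ 1 - (N / D)⁻¹ + 1 / n := by
      rw [inv_div]
      have : 1 - D / N + 1 / n + 4 / n ^ 2 = ((N - D) * n ^ 2 + N * n + 4 * N) / (N * n ^ 2) := by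
        field_simp
      have h2 : 0 ≤ ((N - D) * n ^ 2 + N * n + 4 * N) / (N * n ^ 2) := by
        apply div_nonneg _ (by positivity)
        rw [hN, hD]
        nlinarith [pow_pos (show 0 < n by linarith) 2, pow_pos (show 0 < n by linarith) 3, pow_pos (show 0 < n by linarith) 4, pow_pos (show 0 < n by linarith) 5]
      linarith
    linarith
  · have h1 : N / D - 1 + 1 / n ≤ 4 / n ^ 2 := by
      have : 4 / n ^ 2 - (N / D - 1 + 1 / n) = (4 * D - (N - D) * n ^ 2 - D * n) / (D * n ^ 2) := by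
        field_simp; ring
      have h2 : 0 ≤ (4 * D - (N - D) * n ^ 2 - D * n) / (D * n ^ 2) := by
        apply div_nonneg _ (by positivity)
        rw [hN, hD]
        nlinarith [pow_pos (show 0 < n by linarith) 2, pow_pos (show 0 < n by linarith) 3, pow_pos (show 0 < n by linarith) 4, pow_pos (show 0 < n by linarith) 5]
      linarith
    linarith

/-- **the four-leg (5/4) law** -/
theorem p4_power_law : ∃ c C : ℝ, 0 < c ∧ 0 < C ∧ ∀ n : ℕ, 1 ≤ n →
    c * (n : ℝ) ^ (-(5 / 4 : ℝ)) ≤ f4 (n - 1) / aht n ^ 2 ∧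
      f4 (n - 1) / aht n ^ 2 ≤ C * (n : ℝ) ^ (-(5 / 4 : ℝ)) := by
  apply power_law p4 (fun n _ => p4_pos n) (5 / 4) 14
  intro n hn
  have hn' : (1 : ℝ) ≤ n := by exact_mod_cast hn
  have h1 := p2_log_bound n hn
  have h2 := rr_log_bound (n - 1)
  have e1 : ((n - 1 : ℕ) : ℝ) + 1 = n := by rw [Nat.cast_sub hn]; push_cast; ring
  have e2 : n - 1 + 1 = n := by omega
  rw [e1, e2] at h2
  rw [p4_eq n hn, p4_eq (n + 1) (by omega), Nat.add_sub_cancel]
  have r1 := rr_pos n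
  have r2 := rr_pos (n - 1)
  have r3 := p2_pos n
  have r4 := p2_pos (n + 1)
  have e3 : rr n * p2 (n + 1) / (rr (n - 1) * p2 n) = (rr n / rr (n - 1)) * (p2 (n + 1) / p2 n) := by
    field_simp
  rw [e3, Real.log_mul (by positivity) (by positivity)]
  have e4 : Real.log (rr n / rr (n - 1)) + Real.log (p2 (n + 1) / p2 n) + 5 / 4 / (n : ℝ) =
      (Real.log (rr n / rr (n - 1)) + 1 / n) + (Real.log (p2 (n + 1) / p2 n) + 1 / 4 / n) := by
    ring
  rw [e4]
  refine (abs_add_le _ _).trans ?_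
  have e5 : 14 / (n : ℝ) ^ 2 = 4 / (n : ℝ) ^ 2 + 10 / (n : ℝ) ^ 2 := by ring
  rw [e5]
  exact add_le_add h2 h1

end Pool.Agent.H34.Hom
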