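import Mathlib

/-!
# A Chu-Vandermonde sum (WZ proof)

`∑_k (-1)^k C(M,k) / ∏_{m≤M} (3(k-m)-1)` in closed form.
-/

namespace Pool.Agent.H34.Hom

open Finset

/-- `∏_{m ≤ M} (3(k-m)-1)` -/
def Dd (M : ℕ) (k : ℤ) : ℤ := ∏ m ∈ range (M + 1), (3 * (k - m) - 1)

lemma Dd_ne_zero (M : ℕ) (k : ℤ) : Dd M k ≠ 0 := by
  unfold Dd
  rw [prod_ne_zero_iff]
  intro m _ h
  omega

lemma Dd_succ (M : ℕ) (k : ℤ) : Dd (M + 1) k = Dd M k * (3 * (k - (M + 1)) - 1) := by
  unfold Dd; rw [prod_range_succ]; push_cast; ring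

lemma Dd_succ' (M : ℕ) (k : ℤ) : Dd (M + 1) (k + 1) = Dd M k * (3 * k + 2) := by
  unfold Dd
  rw [prod_range_succ']
  congr 1
  · apply prod_congr rfl
    intro m _; push_cast; ring
  · push_cast; ring

lemma Dd_shift (M : ℕ) (k : ℤ) : Dd M (k + 1) * (3 * (k - M) - 1) = Dd M k * (3 * k + 2) := by
  rw [← Dd_succ', Dd_succ]; ring

variable (K : Type*) [Field K] [CharZero K]

/-- the summand -/
noncomputable def Tt (M k : ℕ) : K := (-1) ^ k * (M.choose k : K) / (Dd M k : K)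

noncomputable def Hsum (M : ℕ) : K := ∑ k ∈ range (M + 1), Tt K M k

lemma three_ne (a : ℤ) (b : ℤ) (hb : b % 3 ≠ 0) : ((3 * a + b : ℤ) : K) ≠ 0 := by
  rw [Int.cast_ne_zero]; omega

lemma Tt_step (M k : ℕ) :
    ((3 * M + 2) * (3 * M + 4) : K) * Tt K (M + 1) (k + 1) =
      -(6 * (2 * M + 1) + (-(9 * M + 10) + 6 * (k + 2))) * Tt K M (k + 1) +
        (-(9 * M + 10) + 6 * (k + 1)) * Tt K M k := by
  have hc1 : ((M + 1).choose (k + 1) : K) * (k + 1) = (M + 1) * (M.choose k : K) := by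
    have := Nat.add_one_mul_choose_eq M k
    exact_mod_cast this.symm
  have hc2 : (M.choose (k + 1) : K) * (k + 1) = (M.choose k : K) * (M - k) := by
    rcases le_or_gt k M with h | h
    · have := Nat.choose_succ_right_eq M k
      have h2 : ((M - k : ℕ) : K) = M - k := by push_cast [Nat.cast_sub h]; ring
      rw [← h2]
      exact_mod_cast this
    · rw [Nat.choose_eq_zero_of_lt h, Nat.choose_eq_zero_of_lt (by omega)]; simp
  have hk : (k : K) + 1 ≠ 0 := by exact_mod_cast Nat.succ_ne_zero k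
  have d0 : (Dd M k : K) ≠ 0 := Int.cast_ne_zero.2 (Dd_ne_zero M k)
  have e3 : ((3 * (k : ℤ) + 2 : ℤ) : K) ≠ 0 := three_ne K k 2 (by norm_num)
  have e4 : ((3 * ((k : ℤ) - M) + (-1) : ℤ) : K) ≠ 0 := three_ne K _ (-1) (by norm_num)
  have d1 : (Dd (M + 1) ((k + 1 : ℕ) : ℤ) : K) = (Dd M k : K) * (3 * k + 2) := by
    have := Dd_succ' M k
    push_cast
    rw [this]; push_cast; ring
  have d2 : (Dd M ((k + 1 : ℕ) : ℤ) : K) = (Dd M k : K) * (3 * k + 2) / (3 * (k - M) - 1) := by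
    have := Dd_shift M k
    push_cast at e4 ⊢
    rw [eq_div_iff (by intro h; apply e4; rw [← h]; ring)]
    have h2 : ((Dd M ((k : ℤ) + 1) * (3 * ((k : ℤ) - M) - 1) : ℤ) : K) = ((Dd M k * (3 * k + 2) : ℤ) : K) := by
      rw [this]
    push_cast at h2
    exact h2
  have e3' : (3 * (k : K) + 2) ≠ 0 := by push_cast at e3; exact e3
  have e4' : (3 * ((k : K) - M) - 1) ≠ 0 := by
    push_cast at e4; intro h; apply e4; rw [← h]; ring
  have hC1 : ((M + 1).choose (k + 1) : K) = (M + 1) * (M.choose k : K) / (k + 1) := by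
    rw [eq_div_iff hk, hc1]
  have hC2 : (M.choose (k + 1) : K) = (M.choose k : K) * (M - k) / (k + 1) := by
    rw [eq_div_iff hk, hc2]
  unfold Tt
  rw [d1, d2, hC1, hC2, pow_succ]
  field_simp
  ring

lemma Tt_step0 (M : ℕ) :
    ((3 * M + 2) * (3 * M + 4) : K) * Tt K (M + 1) 0 =
      -(6 * (2 * M + 1) + (-(9 * M + 10) + 6 * (0 + 1))) * Tt K M 0 := by
  have d0 : (Dd M 0 : K) ≠ 0 := Int.cast_ne_zero.2 (Dd_ne_zero M 0)
  have d1 : (Dd (M + 1) 0 : K) = (Dd M 0 : K) * (-(3 * M + 4)) := by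
    rw [Dd_succ]; push_cast; ring
  have e1 : (3 * (M : K) + 4) ≠ 0 := by
    have : ((3 * M + 4 : ℕ) : K) ≠ 0 := Nat.cast_ne_zero.2 (by omega)
    push_cast at this; exact this
  unfold Tt
  push_cast
  rw [d1]
  simp only [pow_zero, Nat.choose_zero_right, Nat.cast_one, mul_one]
  field_simp
  ring

lemma Tt_last (M : ℕ) : Tt K M (M + 1) = 0 := by
  unfold Tt
  rw [Nat.choose_eq_zero_of_lt (by omega)]
  simp

theorem Hsum_rec (M : ℕ) :
    ((3 * M + 2) * (3 * M + 4) : K) * Hsum K (M + 1) = -(6 * (2 * M + 1)) * Hsum K M := by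
  unfold Hsum
  rw [sum_range_succ', mul_add, Tt_step0, mul_sum]
  have h1 : ∑ i ∈ range (M + 1), ((3 * M + 2) * (3 * M + 4) : K) * Tt K (M + 1) (i + 1) =
      ∑ i ∈ range (M + 1), (-(6 * (2 * M + 1) + (-(9 * M + 10) + 6 * (((i + 1 : ℕ) : K) + 1))) * Tt K M (i + 1)) +
        ∑ i ∈ range (M + 1), (-(9 * M + 10) + 6 * (i + 1)) * Tt K M i := by
    rw [← sum_add_distrib]
    apply sum_congr rfl
    intro i _
    rw [Tt_step]
    push_cast
    ring
  rw [h1]
  have h2 : ∑ i ∈ range (M + 1), (-(6 * (2 * M + 1) + (-(9 * M + 10) + 6 * (((i + 1 : ℕ) : K) + 1))) * Tt K M (i + 1)) +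
      -(6 * (2 * M + 1) + (-(9 * M + 10) + 6 * (((0 : ℕ) : K) + 1))) * Tt K M 0 =
      ∑ i ∈ range (M + 1), (-(6 * (2 * M + 1) + (-(9 * M + 10) + 6 * ((i : K) + 1))) * Tt K M i) := by
    rw [← sum_range_succ' (fun i : ℕ => (-(6 * (2 * M + 1) + (-(9 * M + 10) + 6 * ((i : K) + 1))) * Tt K M i)),
      sum_range_succ, Tt_last, mul_zero, add_zero]
  rw [add_right_comm]
  have h3 : -(6 * (2 * (M : K) + 1) + (-(9 * M + 10) + 6 * (0 + 1))) * Tt K M 0 =
    -(6 * (2 * M + 1) + (-(9 * M + 10) + 6 * (((0 : ℕ) : K) + 1))) * Tt K M 0 := by push_cast; ring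
  rw [h3, h2, ← sum_add_distrib, mul_sum]
  apply sum_congr rfl
  intro i _
  ring

theorem Hsum_zero : Hsum K 0 = -1 := by
  simp [Hsum, Tt, Dd]

/-- closed form -/
theorem Hsum_eq (M : ℕ) :
    Hsum K M = (-1) ^ (M + 1) * 9 ^ M * ((2 * M).factorial : K) / ((3 * M + 1).factorial : K) := by
  induction M with
  | zero => rw [Hsum_zero]; simp
  | succ M ih =>
    have h := Hsum_rec K M
    rw [ih] at h
    have e1 : (3 * (M : K) + 4) ≠ 0 := by
      have : ((3 * M + 4 : ℕ) : K) ≠ 0 := Nat.cast_ne_zero.2 (by omega)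
      push_cast at this; exact this
    have e2 : (3 * (M : K) + 2) ≠ 0 := by
      have : ((3 * M + 2 : ℕ) : K) ≠ 0 := Nat.cast_ne_zero.2 (by omega)
      push_cast at this; exact this
    have e3 : (3 * (M : K) + 3) ≠ 0 := by
      have : ((3 * M + 3 : ℕ) : K) ≠ 0 := Nat.cast_ne_zero.2 (by omega)
      push_cast at this; exact this
    have f1 : ((3 * (M + 1) + 1).factorial : K) = (3 * M + 4) * (3 * M + 3) * (3 * M + 2) * ((3 * M + 1).factorial : K) := by
      have : 3 * (M + 1) + 1 = (3 * M + 1) + 1 + 1 + 1 := by ring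
      rw [this, Nat.factorial_succ, Nat.factorial_succ, Nat.factorial_succ]
      push_cast; ring
    have f2 : ((2 * (M + 1)).factorial : K) = (2 * M + 2) * (2 * M + 1) * ((2 * M).factorial : K) := by
      have : 2 * (M + 1) = (2 * M) + 1 + 1 := by ring
      rw [this, Nat.factorial_succ, Nat.factorial_succ]
      push_cast; ring
    have f4 : ((3 * M + 1).factorial : K) ≠ 0 := Nat.cast_ne_zero.2 (Nat.factorial_ne_zero _)
    have h5 : Hsum K (M + 1) = -(6 * (2 * M + 1)) * ((-1) ^ (M + 1) * 9 ^ M * ((2 * M).factorial : K) /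
      ((3 * M + 1).factorial : K)) / ((3 * M + 2) * (3 * M + 4)) := by
      rw [eq_div_iff (mul_ne_zero e2 e1), mul_comm, h]
    rw [h5, f1, f2]
    field_simp
    ring

end Pool.Agent.H34.Hom
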