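import Mathlib

/-!
# Divisibility of antisymmetric polynomials by a Vandermonde product
-/

namespace Pool.Agent.H34.Hom

open MvPolynomial

variable {σ : Type*}

lemma dvd_of_vanish [DecidableEq σ] (P : MvPolynomial σ ℂ) (a b : σ)
    (hP : ∀ z : σ → ℂ, z a = z b → eval z P = 0) : (X a - X b : MvPolynomial σ ℂ) ∣ P := by
  set φ : MvPolynomial σ ℂ →ₐ[ℂ] MvPolynomial σ ℂ := aeval (fun i => if i = a then X b else X i) with hφ
  have h0 : φ P = 0 := by
    apply MvPolynomial.funext
    intro z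
    rw [map_zero, hφ]
    have h1 : eval z (aeval (fun i => if i = a then X b else (X i : MvPolynomial σ ℂ)) P) =
        eval (fun i => if i = a then z b else z i) P := by
      have h1' : ((aeval z : MvPolynomial σ ℂ →ₐ[ℂ] ℂ).comp
          (aeval (fun i => if i = a then X b else (X i : MvPolynomial σ ℂ)))) =
          aeval (fun i => if i = a then z b else z i) := by
        apply MvPolynomial.algHom_ext
        intro i
        rw [AlgHom.comp_apply, aeval_X, aeval_X]
        by_cases hi : i = a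
        · rw [if_pos hi, if_pos hi, aeval_X]
        · rw [if_neg hi, if_neg hi, aeval_X]
      have h1'' := DFunLike.congr_fun h1' P
      exact h1''
    rw [h1]
    apply hP
    by_cases hb : b = a <;> simp [hb]
  set I : Ideal (MvPolynomial σ ℂ) := Ideal.span {X a - X b} with hI
  have h2 : ((Ideal.Quotient.mkₐ ℂ I).comp φ) = Ideal.Quotient.mkₐ ℂ I := by
    apply MvPolynomial.algHom_ext
    intro i
    rw [AlgHom.comp_apply, hφ, aeval_X]
    by_cases hi : i = a
    · rw [if_pos hi, hi]
      rw [Ideal.Quotient.mkₐ_eq_mk, Ideal.Quotient.eq]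
      rw [hI, Ideal.mem_span_singleton]
      exact ⟨-1, by ring⟩
    · rw [if_neg hi]
  have h3 : Ideal.Quotient.mkₐ ℂ I P = 0 := by
    rw [← h2, AlgHom.comp_apply, h0, map_zero]
  rw [Ideal.Quotient.mkₐ_eq_mk, Ideal.Quotient.eq_zero_iff_mem, hI, Ideal.mem_span_singleton] at h3
  exact h3

lemma irreducible_X_sub_X [DecidableEq σ] (a b : σ) (hab : a ≠ b) :
    Irreducible (X a - X b : MvPolynomial σ ℂ) := by
  have h := irreducible_sumSMulX (n := σ) (R := ℂ) (Finsupp.single a 1 - Finsupp.single b 1) ?_ ?_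
  · have e : sumSMulX (Finsupp.single a (1:ℂ) - Finsupp.single b 1) = (X a - X b : MvPolynomial σ ℂ) := by
      simp [sumSMulX, map_sub, Finsupp.linearCombination_single]
    rwa [e] at h
  · refine ⟨a, ?_⟩
    rw [Finsupp.mem_support_iff]
    simp [hab]
  · intro r hr
    have := hr a
    simp [hab] at this
    exact isUnit_iff_ne_zero.2 this

lemma not_dvd_X_sub_X [DecidableEq σ] (a b c d : σ) (hcd : c ≠ d)
    (h : ¬((c = a ∧ d = b) ∨ (c = b ∧ d = a))) :
    ¬ (X a - X b : MvPolynomial σ ℂ) ∣ (X c - X d) := by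
  rintro ⟨Q, hQ⟩
  have key : ∀ z : σ → ℂ, z a = z b → z c = z d := by
    intro z hz
    have h1 := congrArg (eval z) hQ
    simp only [map_sub, map_mul, eval_X] at h1
    rw [hz, sub_self, zero_mul, sub_eq_zero] at h1
    exact h1
  by_cases hc : c = a ∨ c = b
  · have hd1 : d ≠ a := by
      rintro rfl
      rcases hc with rfl | rfl
      · exact hcd rfl
      · exact h (Or.inr ⟨rfl, rfl⟩)
    have hd2 : d ≠ b := by
      rintro rfl
      rcases hc with rfl | rfl
      · exact h (Or.inl ⟨rfl, rfl⟩)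
      · exact hcd rfl
    have := key (fun i => if i = d then 1 else 0) (by simp [hd1.symm, hd2.symm])
    simp [hcd] at this
  · push Not at hc
    have := key (fun i => if i = c then 1 else 0) (by simp [hc.1.symm, hc.2.symm])
    simp [hcd.symm] at this

lemma prod_dvd_of_vanish [DecidableEq σ] (P : MvPolynomial σ ℂ) (T : Finset (σ × σ))
    (h1 : ∀ x ∈ T, x.1 ≠ x.2) (h2 : ∀ x ∈ T, (x.2, x.1) ∉ T)
    (hP : ∀ x ∈ T, ∀ z : σ → ℂ, z x.1 = z x.2 → eval z P = 0) :
    (∏ x ∈ T, (X x.1 - X x.2 : MvPolynomial σ ℂ)) ∣ P := by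
  apply Finset.prod_dvd_of_isRelPrime
  · intro x hx y hy hxy
    rw [Function.onFun]
    rw [(irreducible_X_sub_X x.1 x.2 (h1 x hx)).isRelPrime_iff_not_dvd]
    apply not_dvd_X_sub_X _ _ _ _ (h1 y hy)
    rintro (⟨e1, e2⟩ | ⟨e1, e2⟩)
    · exact hxy (Prod.ext e1.symm e2.symm)
    · apply h2 x hx
      have : (x.2, x.1) = y := Prod.ext e1.symm e2.symm
      rw [this]; exact hy
  · intro x hx
    exact dvd_of_vanish P _ _ (hP x hx)

end Pool.Agent.H34.Hom
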