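import Mathlib

/-!
# Moments of the coefficients of a polynomial with a high order zero at `1`
-/

namespace Pool.Agent.H34.Hom

open Finset Polynomial

variable {K : Type*} [Field K]

/-- `∑_e coeff_e(φ) f(e)` -/
noncomputable def mom (φ : K[X]) (f : K → K) : K := φ.sum fun e a => a * f e

lemma mom_eq_range (φ : K[X]) (f : K → K) (n : ℕ) (hn : φ.natDegree < n) :
    mom φ f = ∑ e ∈ range n, φ.coeff e * f e := by
  unfold mom
  exact φ.sum_over_range' (fun e => by simp) n hn

lemma mom_add (φ ψ : K[X]) (f : K → K) : mom (φ + ψ) f = mom φ f + mom ψ f := by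
  unfold mom
  rw [Polynomial.sum_add_index]
  · intro i; simp
  · intro a b₁ b₂; ring

lemma mom_smul (c : K) (φ : K[X]) (f : K → K) : mom (C c * φ) f = c * mom φ f := by
  have h1 := mom_eq_range φ f (φ.natDegree + 1) (by omega)
  have h2 := mom_eq_range (C c * φ) f (φ.natDegree + 1)
    (lt_of_le_of_lt (natDegree_C_mul_le c φ) (by omega))
  rw [h1, h2, mul_sum]
  apply sum_congr rfl
  intro e _
  rw [coeff_C_mul]; ring

lemma mom_neg (φ : K[X]) (f : K → K) : mom (-φ) f = - mom φ f := by
  have := mom_smul (-1) φ f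
  simpa using this

lemma mom_sub (φ ψ : K[X]) (f : K → K) : mom (φ - ψ) f = mom φ f - mom ψ f := by
  rw [sub_eq_add_neg, mom_add, mom_neg, sub_eq_add_neg]

lemma mom_C (c : K) (f : K → K) : mom (C c) f = c * f 0 := by
  rw [mom_eq_range _ _ 1 (by rw [natDegree_C]; omega)]
  simp

lemma mom_X_mul (φ : K[X]) (f : K → K) : mom (X * φ) f = mom φ (fun x => f (x + 1)) := by
  have h1 := mom_eq_range φ (fun x => f (x + 1)) (φ.natDegree + 1) (by omega)
  have h2 := mom_eq_range (X * φ) f (φ.natDegree + 2)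
    (lt_of_le_of_lt (natDegree_mul_le (p := X) (q := φ)) (by
      have := natDegree_X_le (R := K); omega))
  rw [h1, h2, sum_range_succ']
  simp [coeff_X_mul]

lemma mom_X_sub_one_mul (φ : K[X]) (f : K → K) :
    mom ((X - 1) * φ) f = mom φ (fwdDiff 1 f) := by
  have h : (X - 1) * φ = X * φ - φ := by ring
  rw [h, mom_sub, mom_X_mul]
  rw [mom_eq_range φ _ (φ.natDegree + 1) (by omega), mom_eq_range φ f (φ.natDegree + 1) (by omega),
    mom_eq_range φ _ (φ.natDegree + 1) (by omega), ← sum_sub_distrib]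
  apply sum_congr rfl
  intro e _
  unfold fwdDiff
  ring

lemma mom_X_sub_one_pow (N : ℕ) (φ : K[X]) (f : K → K) :
    mom ((X - 1) ^ N * φ) f = mom φ ((fwdDiff 1)^[N] f) := by
  induction N generalizing f with
  | zero => simp
  | succ N ih =>
    rw [pow_succ', mul_assoc, mom_X_sub_one_mul, ih]
    rfl

lemma mom_const (φ : K[X]) (c : K) : mom φ (fun _ => c) = φ.eval 1 * c := by
  rw [mom_eq_range φ _ (φ.natDegree + 1) (by omega), ← sum_mul, eval_eq_sum_range]
  simp

/-- low moments vanish -/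
theorem mom_eq_zero (N : ℕ) (φ P : K[X]) (hP : P.natDegree < N) :
    mom ((X - 1) ^ N * φ) (fun x => P.eval x) = 0 := by
  rw [mom_X_sub_one_pow, Polynomial.fwdDiff_iter_eq_zero_of_degree_lt hP]
  change mom φ (fun _ => 0) = 0
  rw [mom_const, mul_zero]

/-- the first nonvanishing moment -/
theorem mom_eq_factorial (N : ℕ) (φ P : K[X]) (hP : P.natDegree = N) :
    mom ((X - 1) ^ N * φ) (fun x => P.eval x) = φ.eval 1 * (P.leadingCoeff * (N.factorial : K)) := by
  subst hP
  rw [mom_X_sub_one_pow]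
  have := Polynomial.fwdDiff_iter_degree_eq_factorial P
  rw [this]
  have h2 : (P.leadingCoeff • ((P.natDegree.factorial : K → K))) = fun _ : K => P.leadingCoeff * (P.natDegree.factorial : K) := by
    funext x; simp
  rw [h2, mom_const]

end Pool.Agent.H34.Hom
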