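import Pool.Agent.H34.Hom.Wz

/-! Symmetry consequences for the sums with an extra factor `i`. -/

namespace Pool.Agent.H34.Hom

open Finset

lemma neg_one_pow_sub {M i : ℕ} (hM : Even M) (hi : i ≤ M) : (-1 : ℤ) ^ (M - i) = (-1) ^ i := by
  have h3 : (-1 : ℤ) ^ (M - i) * (-1) ^ i = 1 := by
    rw [← pow_add, Nat.sub_add_cancel hi]; exact hM.neg_one_pow
  have h4 : (-1 : ℤ) ^ i * (-1) ^ i = 1 := by
    rw [← pow_add]; exact (Even.add_self i).neg_one_pow
  linear_combination (-1 : ℤ) ^ i * h3 - (-1 : ℤ) ^ (M - i) * h4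

lemma A1_shift_eq (M : ℕ) (hM : Even M) :
    ∑ i ∈ range (M + 1), (-1) ^ (M - i) * (M.choose i : ℤ) * (i + 1) * gN (M + 1) (i + 1) =
      (M + 1) * A0 M - ∑ i ∈ range (M + 1), (-1) ^ (M - i) * (M.choose i : ℤ) * i * gN (M + 1) i := by
  unfold A0
  rw [mul_sum, ← sum_sub_distrib, ← sum_range_reflect]
  apply sum_congr rfl
  intro i hi
  rw [mem_range] at hi
  have h1 : M + 1 - 1 - i = M - i := by omega
  rw [h1]
  have h2 : M - (M - i) = i := by omega
  rw [h2, Nat.choose_symm (by omega), neg_one_pow_sub hM (by omega)]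
  have h3 := gN_reflect (M + 1) i (by omega)
  have h4 : ((M + 1 - i : ℕ) : ℤ) = ((M - i : ℕ) : ℤ) + 1 := by omega
  rw [h4] at h3
  rw [h3]
  have h5 : ((M - i : ℕ) : ℤ) = M - i := by omega
  rw [h5]
  ring

lemma A1_zero (M : ℕ) (hM : Even M) :
    ∑ i ∈ range (M + 1), (-1) ^ (M - i) * (M.choose i : ℤ) * i * gN (M + 1) i = 0 := by
  rcases M with _ | M
  · simp
  set S := ∑ i ∈ range (M + 1 + 1), (-1) ^ (M + 1 - i) * ((M + 1).choose i : ℤ) * i * gN (M + 1 + 1) i with hS
  -- drop i = 0 and use i * C(M+1,i) = (M+1) C(M,i-1)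
  have h1 : S = ∑ i ∈ range (M + 1), (-1) ^ (M - i) * ((M + 1 : ℤ) * (M.choose i : ℤ)) * gN (M + 1 + 1) (i + 1) := by
    rw [hS, sum_range_succ']
    simp only [Nat.cast_zero, mul_zero, zero_mul, add_zero]
    apply sum_congr rfl
    intro i hi
    have h2 : M + 1 - (i + 1) = M - i := by omega
    have h3 : (((M + 1).choose (i + 1) : ℕ) : ℤ) * (i + 1) = (M + 1) * (M.choose i : ℤ) := by
      have := Nat.add_one_mul_choose_eq M i
      exact_mod_cast this.symm
    rw [h2, ← h3]
    push_cast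
    ring
  have h2 : S = - S := by
    conv_lhs => rw [h1, ← sum_range_reflect]
    rw [h1, ← sum_neg_distrib]
    apply sum_congr rfl
    intro i hi
    rw [mem_range] at hi
    have e1 : M + 1 - 1 - i = M - i := by omega
    rw [e1]
    have e2 : M - (M - i) = i := by omega
    rw [e2, Nat.choose_symm (by omega)]
    have e3 := gN_reflect (M + 1 + 1) (i + 1) (by omega)
    have e4 : ((M + 1 + 1 - (i + 1) : ℕ) : ℤ) = ((M - i : ℕ) : ℤ) + 1 := by omega
    rw [e4] at e3
    rw [e3]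
    have e5 : (-1 : ℤ) ^ (M - i) = - (-1) ^ i := by
      have e6 : (-1 : ℤ) ^ (M - i) * (-1) ^ i = -1 := by
        rw [← pow_add, Nat.sub_add_cancel (by omega)]
        have : Odd M := by
          rcases Nat.even_or_odd M with h | h
          · exfalso; exact (Nat.not_even_iff_odd.2 h.add_one) hM
          · exact h
        exact this.neg_one_pow
      have e7 : (-1 : ℤ) ^ i * (-1) ^ i = 1 := by
        rw [← pow_add]; exact (Even.add_self i).neg_one_pow
      linear_combination (-1 : ℤ) ^ i * e6 - (-1 : ℤ) ^ (M - i) * e7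
    rw [e5]
    push_cast
    ring
  linarith

lemma A1_shift (M : ℕ) (hM : Even M) :
    ∑ i ∈ range (M + 1), (-1) ^ (M - i) * (M.choose i : ℤ) * (i + 1) * gN (M + 1) (i + 1) =
      (M + 1) * A0 M := by
  rw [A1_shift_eq M hM, A1_zero M hM, sub_zero]

end Pool.Agent.H34.Hom
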