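import Pool.Agent.H34.Hom.Three
import Pool.Agent.H34.Hom.Moments
import Pool.Agent.H34.Hom.Wz2

/-!
# Evaluation of the four-leg and three-leg polynomials at `1`
-/

namespace Pool.Agent.H34.Hom

open Finset Polynomial

lemma mom_expand (R : ℂ[X]) (f : ℂ → ℂ) : mom (expand ℂ 3 R) f = mom R (fun x => f (3 * x)) := by
  have h1 := mom_eq_range R (fun x => f (3 * x)) (R.natDegree + 1) (by omega)
  have h2 := mom_eq_range (expand ℂ 3 R) f (3 * (R.natDegree + 1)) (by
    rw [natDegree_expand]; omega)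
  rw [h1, h2]
  have h3 : ∀ n : ℕ, ∑ e ∈ range (3 * n), (expand ℂ 3 R).coeff e * f e =
      ∑ k ∈ range n, R.coeff k * f (3 * k) := by
    intro n
    induction n with
    | zero => simp
    | succ n ih =>
      have e1 : 3 * (n + 1) = 3 * n + 1 + 1 + 1 := by ring
      rw [e1, sum_range_succ, sum_range_succ, sum_range_succ, sum_range_succ, ih]
      rw [coeff_expand (by norm_num), coeff_expand (by norm_num), coeff_expand (by norm_num),
        if_pos (by omega), if_neg (by omega), if_neg (by omega), Nat.mul_div_cancel_left n (by norm_num)]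
      push_cast
      ring
  exact h3 _

lemma mom_zero_of (R : ℂ[X]) (f : ℂ → ℂ) (M : ℕ) (hR : ∀ k, M < k → R.coeff k = 0)
    (hf : ∀ k : ℕ, k ≤ M → f k = 0) : mom R f = 0 := by
  rw [mom_eq_range R f (R.natDegree + 1) (by omega)]
  apply sum_eq_zero
  intro k _
  rcases le_or_gt k M with h | h
  · rw [hf k h, mul_zero]
  · rw [hR k h, zero_mul]

/-- the moments of `f` reduce to those of the part with exponents divisible by 3 -/
lemma mom_reduce (φ : ℂ[X]) (M : ℕ) (hdeg : φ.natDegree ≤ 3 * M + 3) (f : ℂ → ℂ)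
    (h1 : ∀ k : ℕ, k ≤ M → f (3 * k + 1) = 0) (h2 : ∀ k : ℕ, k ≤ M → f (3 * k + 2) = 0) :
    mom φ f = mom (sec 0 φ) (fun x => f (3 * x)) := by
  conv_lhs => rw [sec_decomp φ]
  have e : X ^ 2 * expand ℂ 3 (sec 2 φ) = X * (X * expand ℂ 3 (sec 2 φ)) := by ring
  rw [e, mom_add, mom_add, mom_expand, mom_X_mul, mom_expand, mom_X_mul, mom_X_mul, mom_expand]
  rw [mom_zero_of (sec 1 φ) _ M, mom_zero_of (sec 2 φ) _ M, add_zero, add_zero]
  · intro k hk
    rw [coeff_sec, coeff_eq_zero_of_natDegree_lt (by omega)]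
  · intro k hk
    have := h2 k hk
    have e2 : (3 : ℂ) * (k : ℂ) + 1 + 1 = 3 * k + 2 := by ring
    rw [e2]; exact this
  · intro k hk
    rw [coeff_sec, coeff_eq_zero_of_natDegree_lt (by omega)]
  · intro k hk
    exact h1 k hk

/-- `∏_{m ≤ M} (X - (3m+1)) (X - (3m+2))` -/
noncomputable def gpoly (M : ℕ) : ℂ[X] :=
  ∏ m ∈ range (M + 1), ((X - C ((3 * m + 1 : ℕ) : ℂ)) * (X - C ((3 * m + 2 : ℕ) : ℂ)))

lemma gpoly_monic (M : ℕ) : (gpoly M).Monic := by
  unfold gpoly
  apply monic_prod_of_monic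
  intro m _
  exact (monic_X_sub_C _).mul (monic_X_sub_C _)

lemma gpoly_natDegree (M : ℕ) : (gpoly M).natDegree = 2 * M + 2 := by
  unfold gpoly
  rw [natDegree_prod_of_monic]
  · have : ∀ m ∈ range (M + 1), ((X - C ((3 * m + 1 : ℕ) : ℂ)) * (X - C ((3 * m + 2 : ℕ) : ℂ))).natDegree = 2 := by
      intro m _
      rw [(monic_X_sub_C _).natDegree_mul (monic_X_sub_C _), natDegree_X_sub_C, natDegree_X_sub_C]
    rw [sum_congr rfl this, sum_const, card_range]
    simp; ring
  · intro m _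
    exact (monic_X_sub_C _).mul (monic_X_sub_C _)

lemma gpoly_eval (M : ℕ) (i : ℤ) : (gpoly M).eval (3 * (i : ℂ)) = ((gN (M + 1) i : ℤ) : ℂ) := by
  unfold gpoly gN
  rw [eval_prod, Int.cast_prod]
  apply prod_congr rfl
  intro m _
  simp only [eval_mul, eval_sub, eval_X, eval_C]
  push_cast
  ring

lemma gpoly_root1 (M k : ℕ) (hk : k ≤ M) : (gpoly M).eval (3 * (k : ℂ) + 1) = 0 := by
  unfold gpoly
  rw [eval_prod]
  apply prod_eq_zero (mem_range.2 (Nat.lt_succ_of_le hk))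
  simp

lemma gpoly_root2 (M k : ℕ) (hk : k ≤ M) : (gpoly M).eval (3 * (k : ℂ) + 2) = 0 := by
  unfold gpoly
  rw [eval_prod]
  apply prod_eq_zero (mem_range.2 (Nat.lt_succ_of_le hk))
  simp

/-- moments of `(α + β X)(X-1)^M` -/
lemma mom_lin (M : ℕ) (α β : ℂ) (f : ℂ → ℂ) :
    mom ((C α + C β * X) * (X - 1) ^ M) f =
      α * (∑ k ∈ range (M + 1), (((-1) ^ (M - k) * (M.choose k : ℤ) : ℤ) : ℂ) * f k) +
      β * (∑ k ∈ range (M + 1), (((-1) ^ (M - k) * (M.choose k : ℤ) : ℤ) : ℂ) * f (k + 1)) := by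
  have e : (C α + C β * X) * (X - 1) ^ M = C α * ((X - 1) ^ M * 1) + C β * (X * ((X - 1) ^ M * 1)) := by ring
  rw [e, mom_add, mom_smul, mom_smul, mom_X_mul, mom_X_sub_one_pow, mom_X_sub_one_pow]
  have h1 : ∀ g : ℂ → ℂ, mom (1 : ℂ[X]) g = g 0 := by
    intro g
    have := mom_C (K := ℂ) 1 g
    simpa using this
  rw [h1, h1, fwdDiff_iter_eq_sum_shift, fwdDiff_iter_eq_sum_shift]
  congr 2
  · apply sum_congr rfl
    intro k _
    simp
  · apply sum_congr rfl
    intro k _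
    simp

theorem eval_three_leg (A : ℂ[X]) (M : ℕ) (hdeg : A.natDegree ≤ M) (α : ℂ)
    (h : sec 0 (A * (X - 1) ^ (2 * M + 2)) = C α * (X - 1) ^ M) :
    A.eval 1 * ((2 * M + 2).factorial : ℂ) = α * (A0 M : ℂ) := by
  have hd : ((X - 1 : ℂ[X]) ^ (2 * M + 2)).natDegree ≤ 2 * M + 2 := by
    refine natDegree_pow_le.trans ?_
    have : (X - 1 : ℂ[X]).natDegree ≤ 1 := natDegree_X_sub_C_le (1 : ℂ)
    nlinarith
  have h1 := mom_eq_factorial (2 * M + 2) A (gpoly M) (gpoly_natDegree M)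
  rw [gpoly_monic, one_mul] at h1
  rw [← h1, mul_comm ((X - 1) ^ _) A, mom_reduce _ M]
  · rw [h]
    have := mom_lin M α 0 (fun x => (gpoly M).eval (3 * x))
    simp only [map_zero, zero_mul, add_zero] at this
    rw [this]
    congr 1
    unfold A0
    rw [Int.cast_sum]
    apply sum_congr rfl
    intro k _
    have e := gpoly_eval M k
    push_cast at e ⊢
    rw [e]
  · refine natDegree_mul_le.trans ?_
    omega
  · intro k hk; exact gpoly_root1 M k hk
  · intro k hk; exact gpoly_root2 M k hk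

theorem eval_four_leg (A : ℂ[X]) (M : ℕ) (hM : Even M) (hdeg : A.natDegree ≤ M) (α β : ℂ)
    (h : sec 0 (A * (X - 1) ^ (2 * M + 3)) = (C α + C β * X) * (X - 1) ^ M) :
    A.eval 1 * ((2 * M + 3).factorial : ℂ) = (3 * M + 3) * β * (A0 M : ℂ) := by
  have hd : ((X - 1 : ℂ[X]) ^ (2 * M + 3)).natDegree ≤ 2 * M + 3 := by
    refine natDegree_pow_le.trans ?_
    have : (X - 1 : ℂ[X]).natDegree ≤ 1 := natDegree_X_sub_C_le (1 : ℂ)
    nlinarith
  have hXg : (X * gpoly M).natDegree = 2 * M + 3 := by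
    rw [monic_X.natDegree_mul (gpoly_monic M), natDegree_X, gpoly_natDegree]; ring
  have h1 := mom_eq_factorial (2 * M + 3) A (X * gpoly M) hXg
  rw [monic_X.mul (gpoly_monic M), one_mul] at h1
  rw [← h1, mul_comm ((X - 1) ^ _) A, mom_reduce _ M]
  · rw [h, mom_lin M α β]
    have s1 : (∑ k ∈ range (M + 1), (((-1) ^ (M - k) * (M.choose k : ℤ) : ℤ) : ℂ) *
        (X * gpoly M).eval (3 * (k : ℂ))) = 0 := by
      have := A1_zero M hM
      have h2 := congrArg (fun x : ℤ => (3 : ℂ) * (x : ℂ)) this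
      simp only [Int.cast_zero, mul_zero] at h2
      rw [← h2, Int.cast_sum, mul_sum]
      apply sum_congr rfl
      intro k _
      have e := gpoly_eval M k
      push_cast at e
      rw [eval_mul, eval_X, e]
      push_cast
      ring
    have s2 : (∑ k ∈ range (M + 1), (((-1) ^ (M - k) * (M.choose k : ℤ) : ℤ) : ℂ) *
        (X * gpoly M).eval (3 * ((k : ℂ) + 1))) = (3 * M + 3) * (A0 M : ℂ) := by
      have := A1_shift M hM
      have h2 := congrArg (fun x : ℤ => (3 : ℂ) * (x : ℂ)) this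
      have h3 : (3 * (M : ℂ) + 3) * (A0 M : ℂ) = 3 * (((M + 1) * A0 M : ℤ) : ℂ) := by push_cast; ring
      rw [h3, ← h2, Int.cast_sum, mul_sum]
      apply sum_congr rfl
      intro k _
      have e := gpoly_eval M (k + 1)
      push_cast at e
      rw [eval_mul, eval_X, e]
      push_cast
      ring
    rw [s1, s2]
    ring
  · refine natDegree_mul_le.trans ?_
    omega
  · intro k hk
    rw [eval_mul, gpoly_root1 M k hk, mul_zero]
  · intro k hk
    rw [eval_mul, gpoly_root2 M k hk, mul_zero]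

end Pool.Agent.H34.Hom
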