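import Pool.Agent.H34.Hom.Dvd
import Pool.Agent.H96.EX.SSum

/-!
# `∏_{j<k} (z_j² + z_j z_k + z_k²) · SG` is a polynomial
-/

namespace Pool.Agent.H34.Hom

open Finset MvPolynomial Pool.Agent.H96.EX

/-- pairwise distinct cubes -/
def Gen (M : ℕ) (z : ℕ → ℂ) : Prop := ∀ j < M, ∀ k < M, j ≠ k → z j ^ 3 ≠ z k ^ 3

/-- product over pairs `j < k < M` -/
def pp {R : Type*} [CommMonoid R] (M : ℕ) (F : ℕ → ℕ → R) : R :=
  ∏ k ∈ range M, ∏ j ∈ range k, F j k

lemma pp_mul {R : Type*} [CommMonoid R] (M : ℕ) (F G : ℕ → ℕ → R) :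
    pp M (fun j k => F j k * G j k) = pp M F * pp M G := by
  unfold pp
  simp only [prod_mul_distrib]

lemma pp_congr {R : Type*} [CommMonoid R] (M : ℕ) (F G : ℕ → ℕ → R)
    (h : ∀ j k, j < k → k < M → F j k = G j k) : pp M F = pp M G := by
  unfold pp
  apply prod_congr rfl
  intro k hk
  apply prod_congr rfl
  intro j hj
  exact h j k (mem_range.1 hj) (mem_range.1 hk)

lemma pp_symm {R : Type*} [CommMonoid R] (M : ℕ) (G : ℕ → ℕ → R) :
    pp M (fun j k => G j k * G k j) * ∏ j ∈ range M, G j j =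
      ∏ j ∈ range M, ∏ k ∈ range M, G j k := by
  unfold pp
  induction M with
  | zero => simp
  | succ M ih =>
    rw [prod_range_succ, prod_range_succ, prod_range_succ (fun j => ∏ k ∈ range (M + 1), G j k)]
    simp only [prod_range_succ (fun k => G _ k)]
    rw [prod_mul_distrib (f := fun x => ∏ k ∈ range M, G x k), ← ih, prod_mul_distrib (s := range M)]
    simp only []
    ac_rfl

lemma pp_ne_zero {R : Type*} [CommRing R] [IsDomain R] (M : ℕ) (F : ℕ → ℕ → R)
    (h : ∀ j k, j < k → k < M → F j k ≠ 0) : pp M F ≠ 0 := by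
  unfold pp
  rw [prod_ne_zero_iff]
  intro k hk
  rw [prod_ne_zero_iff]
  intro j hj
  exact h j k (mem_range.1 hj) (mem_range.1 hk)

/-- the product of `z_j² + z_j z_k + z_k²` over pairs -/
noncomputable def PM (M : ℕ) (z : ℕ → ℂ) : ℂ := pp M fun j k => z j ^ 2 + z j * z k + z k ^ 2

noncomputable def VM (M : ℕ) (z : ℕ → ℂ) : ℂ := pp M fun j k => z k - z j

noncomputable def V3 (M : ℕ) (z : ℕ → ℂ) : ℂ := pp M fun j k => z k ^ 3 - z j ^ 3

lemma V3_eq (M : ℕ) (z : ℕ → ℂ) : V3 M z = VM M z * PM M z := by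
  unfold V3 VM PM
  rw [← pp_mul]
  apply pp_congr
  intro j k _ _
  ring

lemma V3_ne_zero {M : ℕ} {z : ℕ → ℂ} (hz : Gen M z) : V3 M z ≠ 0 := by
  apply pp_ne_zero
  intro j k hjk hk
  exact sub_ne_zero.2 (hz k hk j (by omega) (by omega))

lemma gen_of_V3_ne_zero {M : ℕ} {z : ℕ → ℂ} (h : V3 M z ≠ 0) : Gen M z := by
  have key : ∀ j k, j < k → k < M → z k ^ 3 - z j ^ 3 ≠ 0 := by
    intro j k hjk hk h0
    apply h
    unfold V3 pp
    apply prod_eq_zero (mem_range.2 hk)
    exact prod_eq_zero (mem_range.2 hjk) h0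
  intro j hj k hk hjk
  rcases Nat.lt_or_gt_of_ne hjk with h1 | h1
  · intro e; exact key j k h1 hk (by rw [e]; ring)
  · intro e; exact key k j h1 hj (by rw [e]; ring)

lemma V3_det (M : ℕ) (z : ℕ → ℂ) :
    V3 M z = (Matrix.vandermonde (fun i : Fin M => z i ^ 3)).det := by
  rw [Matrix.det_vandermonde]
  rw [Finset.prod_comm' (t' := Finset.univ) (s' := fun j => Finset.Iio j)
    (by intro i j; simp)]
  unfold V3 pp
  rw [Finset.prod_range]
  apply prod_congr rfl
  intro k _
  have h := Fin.map_valEmbedding_Iio k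
  rw [← Nat.Iio_eq_range, ← h, prod_map]
  rfl

lemma V3_swap {M : ℕ} (z : ℕ → ℂ) {a b : ℕ} (ha : a < M) (hb : b < M) (hab : a ≠ b) :
    V3 M (z ∘ Equiv.swap a b) = - V3 M z := by
  rw [V3_det, V3_det]
  set τ : Equiv.Perm (Fin M) := Equiv.swap ⟨a, ha⟩ ⟨b, hb⟩ with hτ
  have h1 : (Matrix.vandermonde (fun i : Fin M => (z ∘ Equiv.swap a b) i ^ 3)) =
      (Matrix.vandermonde (fun i : Fin M => z i ^ 3)).submatrix τ id := by
    ext i j
    simp only [Matrix.vandermonde_apply, Matrix.submatrix_apply, Function.comp, id]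
    congr 3
    rw [hτ]
    rcases eq_or_ne (i : ℕ) a with h | h
    · have : i = ⟨a, ha⟩ := Fin.ext h
      rw [this]; simp
    · rcases eq_or_ne (i : ℕ) b with h' | h'
      · have : i = ⟨b, hb⟩ := Fin.ext h'
        rw [this]; simp
      · rw [Equiv.swap_apply_of_ne_of_ne h h', Equiv.swap_apply_of_ne_of_ne]
        · intro e; exact h (congrArg Fin.val e)
        · intro e; exact h' (congrArg Fin.val e)
  rw [h1, Matrix.det_permute, hτ, Equiv.Perm.sign_swap]
  · simp
  · intro e; exact hab (congrArg Fin.val e)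

lemma SG_comp_perm (q u v : ℂ) {s : Finset ℕ} (c : List ℂ) (z : ℕ → ℂ) (τ : Equiv.Perm ℕ)
    (hs : s.map τ.toEmbedding = s) : SG q u v s c (z ∘ τ) = SG q u v s c z := by
  unfold SG
  refine Finset.sum_bij (fun A _ => A.map τ.toEmbedding) ?_ ?_ ?_ ?_
  · intro A hA
    rw [mem_powerset] at hA ⊢
    rw [← hs]
    exact Finset.map_subset_map.2 hA
  · intro A _ B _ h
    exact Finset.map_injective _ h
  · intro B hB
    rw [mem_powerset] at hB
    refine ⟨B.map τ.symm.toEmbedding, ?_, ?_⟩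
    · rw [mem_powerset]
      intro x hx
      rw [Finset.mem_map] at hx
      obtain ⟨y, hy, rfl⟩ := hx
      have := hB hy
      rw [← hs, Finset.mem_map] at this
      obtain ⟨x', hx', hxy⟩ := this
      have : τ.symm.toEmbedding y = x' := by
        rw [← hxy]; simp
      rw [this]; exact hx'
    · ext x
      simp
  · intro A hA
    have h1 : s \ A.map τ.toEmbedding = (s \ A).map τ.toEmbedding := by
      rw [Finset.map_sdiff, hs]
    rw [h1]
    simp only [prod_map, Equiv.toEmbedding_apply, Function.comp_apply]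

lemma map_swap_range {M a b : ℕ} (ha : a < M) (hb : b < M) :
    (range M).map (Equiv.swap a b).toEmbedding = range M := by
  apply Finset.eq_of_subset_of_card_le
  · intro x hx
    rw [Finset.mem_map] at hx
    obtain ⟨y, hy, rfl⟩ := hx
    rw [mem_range] at hy ⊢
    simp only [Equiv.toEmbedding_apply]
    rcases eq_or_ne y a with rfl | h
    · rw [Equiv.swap_apply_left]; exact hb
    · rcases eq_or_ne y b with rfl | h'
      · rw [Equiv.swap_apply_right]; exact ha
      · rw [Equiv.swap_apply_of_ne_of_ne h h']; exact hy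
  · rw [Finset.card_map]

section poly

variable {κ : Type*}

/-- variable `z_j` -/
noncomputable def Z (j : ℕ) : MvPolynomial (κ ⊕ ℕ) ℂ := X (Sum.inr j)

noncomputable def Cv (a : κ) : MvPolynomial (κ ⊕ ℕ) ℂ := X (Sum.inl a)

/-- evaluation point -/
def pt (y : κ → ℂ) (z : ℕ → ℂ) : κ ⊕ ℕ → ℂ := Sum.elim y z

@[simp] lemma eval_Z (y : κ → ℂ) (z : ℕ → ℂ) (j : ℕ) : eval (pt y z) (Z j) = z j := by
  simp [Z, pt]

@[simp] lemma eval_Cv (y : κ → ℂ) (z : ℕ → ℂ) (a : κ) : eval (pt y z) (Cv a) = y a := by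
  simp [Cv, pt]

/-- pair factor -/
noncomputable def hA (q : ℂ) (A : Finset ℕ) (j k : ℕ) : MvPolynomial (κ ⊕ ℕ) ℂ :=
  if j ∈ A then
    if k ∈ A then Z k ^ 3 - Z j ^ 3 else (Z k - C q * Z j) ^ 3
  else
    if k ∈ A then - (Z j - C q * Z k) ^ 3 else Z k ^ 3 - Z j ^ 3

noncomputable def Npoly (q u v : ℂ) (M : ℕ) (l : List κ) : MvPolynomial (κ ⊕ ℕ) ℂ :=
  ∑ A ∈ (range M).powerset,
    (∏ j ∈ A, C u * (l.map fun a => Cv a - C q * Z j).prod) *
    (∏ j ∈ range M \ A, C v * (l.map fun a => Cv a - C (q ^ 2) * Z j).prod) *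
    pp M (hA q A)

lemma eval_list_prod (y : κ → ℂ) (z : ℕ → ℂ) (l : List κ) (w : ℂ) (j : ℕ) :
    eval (pt y z) ((l.map fun a => Cv a - C w * Z j).prod) = lg (l.map y) (w * z j) := by
  induction l with
  | nil => simp
  | cons a l ih => simp [ih]

lemma eval_pp (y : κ → ℂ) (z : ℕ → ℂ) (M : ℕ) (F : ℕ → ℕ → MvPolynomial (κ ⊕ ℕ) ℂ) :
    eval (pt y z) (pp M F) = pp M (fun j k => eval (pt y z) (F j k)) := by
  unfold pp
  simp only [map_prod]

lemma prod_prod_ite (M : ℕ) (A : Finset ℕ) (hA : A ⊆ range M) (F : ℕ → ℕ → ℂ) :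
    ∏ j ∈ range M, ∏ k ∈ range M, (if j ∈ A ∧ k ∉ A then F j k else 1) =
      ∏ j ∈ A, ∏ k ∈ range M \ A, F j k := by
  rw [← prod_subset hA]
  · apply prod_congr rfl
    intro j hj
    rw [← prod_subset (s₁ := range M \ A) (s₂ := range M) sdiff_subset]
    · apply prod_congr rfl
      intro k hk
      rw [if_pos ⟨hj, (mem_sdiff.1 hk).2⟩]
    · intro k hk hk'
      rw [if_neg]
      rintro ⟨_, h⟩
      exact hk' (mem_sdiff.2 ⟨hk, h⟩)
  · intro j _ hj
    apply prod_eq_one
    intro k _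
    rw [if_neg]
    rintro ⟨h, _⟩
    exact hj h

theorem eval_Npoly (q u v : ℂ) (hq : q ^ 2 + q + 1 = 0) (M : ℕ) (l : List κ) (y : κ → ℂ)
    (z : ℕ → ℂ) (hz : Gen M z) :
    eval (pt y z) (Npoly q u v M l) = V3 M z * SG q u v (range M) (l.map y) z := by
  have q3 : q ^ 3 = 1 := by linear_combination (q - 1) * hq
  unfold Npoly SG
  rw [map_sum, mul_sum]
  apply sum_congr rfl
  intro A hAM
  rw [mem_powerset] at hAM
  rw [map_mul, map_mul, map_prod, map_prod, eval_pp]
  simp only [map_mul, eval_C, eval_list_prod]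
  have h1 : pp M (fun j k => eval (pt y z) (hA q A j k)) =
      V3 M z * ∏ j ∈ A, ∏ k ∈ range M \ A, gg q (z j) (z k) := by
    rw [← prod_prod_ite M A hAM]
    have h2 := pp_symm M (fun j k => if j ∈ A ∧ k ∉ A then gg q (z j) (z k) else 1)
    have h3 : ∏ j ∈ range M, (if j ∈ A ∧ j ∉ A then gg q (z j) (z j) else 1) = 1 := by
      apply prod_eq_one
      intro j _
      rw [if_neg]
      rintro ⟨h, h'⟩; exact h' h
    rw [h3, mul_one] at h2
    rw [← h2]
    unfold V3
    rw [← pp_mul]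
    apply pp_congr
    intro j k hjk hk
    have hne : z k ^ 3 ≠ z j ^ 3 := hz k hk j (by omega) (by omega)
    have hfac : z k ^ 3 - z j ^ 3 = (z k - z j) * (z k - q * z j) * (z k - q ^ 2 * z j) := by
      linear_combination (z k ^ 2 * z j - q * z k * z j ^ 2) * hq + z j ^ 3 * q3
    have hp : (z k - z j) * (z k - q * z j) * (z k - q ^ 2 * z j) ≠ 0 := by
      rw [← hfac]; exact sub_ne_zero.2 hne
    have hp1 : z k - z j ≠ 0 := fun h => hp (by rw [h]; ring)
    have hp2 : z k - q * z j ≠ 0 := fun h => hp (by rw [h]; ring)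
    have hp3 : z k - q ^ 2 * z j ≠ 0 := fun h => hp (by rw [h]; ring)
    unfold hA
    by_cases hj : j ∈ A <;> by_cases hk' : k ∈ A
    · simp [hj, hk']
    · simp only [hj, hk', if_true, if_false, not_false_eq_true, and_self, not_true_eq_false,
        and_false, false_and, mul_one, map_pow, map_sub, map_mul, eval_Z, eval_C]
      rw [hfac, gg]
      field_simp
    · simp only [hj, hk', if_true, if_false, not_false_eq_true, and_self, not_true_eq_false,
        and_false, false_and, one_mul, map_neg, map_pow, map_sub, map_mul, eval_Z, eval_C]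
      have hp4 : z j - z k ≠ 0 := fun h => hp1 (by linear_combination -h)
      have hp5 : z j - q ^ 2 * z k ≠ 0 := fun h => hp2 (by linear_combination (-q) * h - z k * q3)
      have hfac' : z k ^ 3 - z j ^ 3 = -((z j - z k) * (z j - q * z k) * (z j - q ^ 2 * z k)) := by
        linear_combination -(z j ^ 2 * z k - q * z j * z k ^ 2) * hq - z k ^ 3 * q3
      rw [gg, hfac']
      field_simp
    · simp [hj, hk']
  rw [h1]
  ring

lemma V3poly_exists (M : ℕ) : ∃ P : MvPolynomial (κ ⊕ ℕ) ℂ, P ≠ 0 ∧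
    ∀ (y : κ → ℂ) (z : ℕ → ℂ), eval (pt y z) P = V3 M z := by
  refine ⟨pp M (fun j k => Z k ^ 3 - Z j ^ 3), ?_, ?_⟩
  · intro h
    have h1 : eval (pt (fun _ : κ => (0 : ℂ)) (fun n => (n : ℂ))) (pp M (fun j k => Z k ^ 3 - Z j ^ 3)) = 0 := by
      rw [h, map_zero]
    rw [eval_pp] at h1
    revert h1
    apply pp_ne_zero
    intro j k hjk _
    simp only [map_sub, map_pow, eval_Z]
    rw [sub_ne_zero]
    have : (k ^ 3 : ℕ) ≠ j ^ 3 := by
      intro e
      exact (Nat.pow_lt_pow_left hjk (by norm_num : (3 : ℕ) ≠ 0)).ne e.symm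
    exact_mod_cast this
  · intro y z
    rw [eval_pp]
    unfold V3
    simp

lemma VMpoly (M : ℕ) (y : κ → ℂ) (z : ℕ → ℂ) :
    eval (pt y z) (pp M (fun j k => Z k - Z j)) = VM M z := by
  rw [eval_pp]
  unfold VM
  simp

/-- polynomials agreeing at generic points are equal -/
lemma eq_of_gen (M : ℕ) (P Q : MvPolynomial (κ ⊕ ℕ) ℂ)
    (h : ∀ (y : κ → ℂ) (z : ℕ → ℂ), Gen M z → eval (pt y z) P = eval (pt y z) Q) : P = Q := by
  obtain ⟨V, hV0, hV⟩ := V3poly_exists (κ := κ) M
  have h1 : (P - Q) * V = 0 := by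
    apply MvPolynomial.funext
    intro w
    have hw : w = pt (fun a => w (Sum.inl a)) (fun j => w (Sum.inr j)) := by
      funext x; cases x <;> rfl
    rw [hw, map_mul, map_zero, map_sub]
    rcases eq_or_ne (V3 M (fun j => w (Sum.inr j))) 0 with h0 | h0
    · rw [hV, h0, mul_zero]
    · rw [h _ _ (gen_of_V3_ne_zero h0), sub_self, zero_mul]
  rcases mul_eq_zero.1 h1 with h2 | h2
  · exact sub_eq_zero.1 h2
  · exact absurd h2 hV0

theorem Npoly_vanish (q u v : ℂ) (hq : q ^ 2 + q + 1 = 0) (M : ℕ) (l : List κ) (a b : ℕ)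
    (ha : a < M) (hb : b < M) (hab : a ≠ b) (w : κ ⊕ ℕ → ℂ)
    (hw : w (Sum.inr a) = w (Sum.inr b)) : eval w (Npoly q u v M l) = 0 := by
  set σ : Equiv.Perm ℕ := Equiv.swap a b with hσ
  have h1 : rename (Sum.map id σ) (Npoly q u v M l) = - Npoly q u v M l := by
    apply eq_of_gen M
    intro y z hz
    rw [eval_rename]
    have e1 : pt y z ∘ Sum.map id σ = pt y (z ∘ σ) := by
      funext x; cases x <;> rfl
    have hz' : Gen M (z ∘ σ) := by
      apply gen_of_V3_ne_zero
      rw [hσ, V3_swap z ha hb hab]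
      exact neg_ne_zero.2 (V3_ne_zero hz)
    rw [e1, eval_Npoly q u v hq M l y _ hz', map_neg, eval_Npoly q u v hq M l y _ hz,
      hσ, V3_swap z ha hb hab, SG_comp_perm _ _ _ _ _ _ (map_swap_range ha hb)]
    ring
  have h2 := congrArg (eval w) h1
  rw [eval_rename, map_neg] at h2
  have e2 : w ∘ Sum.map id σ = w := by
    funext x
    cases x with
    | inl x => rfl
    | inr x =>
      simp only [Function.comp_apply, Sum.map_inr]
      rcases eq_or_ne x a with h | h
      · rw [h, hσ, Equiv.swap_apply_left]; exact hw.symm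
      · rcases eq_or_ne x b with h' | h'
        · rw [h', hσ, Equiv.swap_apply_right]; exact hw
        · rw [hσ, Equiv.swap_apply_of_ne_of_ne h h']
  rw [e2] at h2
  have h3 : (2 : ℂ) * eval w (Npoly q u v M l) = 0 := by linear_combination h2
  rcases mul_eq_zero.1 h3 with h4 | h4
  · norm_num at h4
  · exact h4

/-- **Polynomiality**: `PM · SG` is a polynomial in the legs and the strands. -/
theorem SG_ext [DecidableEq κ] (q u v : ℂ) (hq : q ^ 2 + q + 1 = 0) (M : ℕ) (l : List κ) :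
    ∃ P : MvPolynomial (κ ⊕ ℕ) ℂ, ∀ (y : κ → ℂ) (z : ℕ → ℂ), Gen M z →
      eval (pt y z) P = PM M z * SG q u v (range M) (l.map y) z := by
  classical
  set T : Finset ((κ ⊕ ℕ) × (κ ⊕ ℕ)) :=
    ((range M ×ˢ range M).filter (fun x => x.1 < x.2)).image
      (fun x => ((Sum.inr x.2 : κ ⊕ ℕ), (Sum.inr x.1 : κ ⊕ ℕ))) with hT
  have hmem : ∀ x ∈ T, ∃ j k : ℕ, j < k ∧ k < M ∧ x = (Sum.inr k, Sum.inr j) := by
    intro x hx
    rw [hT, mem_image] at hx
    obtain ⟨⟨j, k⟩, hjk, rfl⟩ := hx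
    rw [mem_filter, mem_product, mem_range, mem_range] at hjk
    exact ⟨j, k, hjk.2, hjk.1.2, rfl⟩
  have hdvd := prod_dvd_of_vanish (Npoly q u v M l) T
    (by
      intro x hx
      obtain ⟨j, k, hjk, _, rfl⟩ := hmem x hx
      intro e
      have := Sum.inr.inj e
      omega)
    (by
      intro x hx hx'
      obtain ⟨j, k, hjk, _, rfl⟩ := hmem x hx
      obtain ⟨j', k', hjk', _, e⟩ := hmem _ hx'
      have e1 := Sum.inr.inj (Prod.ext_iff.1 e).1
      have e2 := Sum.inr.inj (Prod.ext_iff.1 e).2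
      omega)
    (by
      intro x hx w hw
      obtain ⟨j, k, hjk, hk, rfl⟩ := hmem x hx
      exact Npoly_vanish q u v hq M l k j hk (by omega) (by omega) w hw)
  have hprod : (∏ x ∈ T, (X x.1 - X x.2 : MvPolynomial (κ ⊕ ℕ) ℂ)) = pp M (fun j k => Z k - Z j) := by
    rw [hT, prod_image, prod_filter, prod_product]
    · unfold pp
      rw [prod_comm]
      apply prod_congr rfl
      intro k hk
      rw [← prod_filter]
      apply prod_congr
      · ext j
        rw [mem_filter, mem_range, mem_range]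
        rw [mem_range] at hk
        omega
      · intro j _; rfl
    · intro x _ y _ hxy
      have e1 := Sum.inr.inj (Prod.ext_iff.1 hxy).1
      have e2 := Sum.inr.inj (Prod.ext_iff.1 hxy).2
      exact Prod.ext e2 e1
  rw [hprod] at hdvd
  obtain ⟨P, hP⟩ := hdvd
  refine ⟨P, ?_⟩
  intro y z hz
  have h1 := eval_Npoly q u v hq M l y z hz
  rw [hP, map_mul, VMpoly, V3_eq] at h1
  have h2 : VM M z ≠ 0 := by
    intro h
    apply V3_ne_zero hz
    rw [V3_eq, h, zero_mul]
  apply mul_left_cancel₀ h2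
  rw [h1]; ring

end poly

end Pool.Agent.H34.Hom
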