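import Pool.Agent.H34.Hom.SumId
import Pool.Agent.H34.Hom.Asym

/-!
# The value of the sum rule at the homogeneous point: `A_HT(2n)`
-/

set_option autoImplicit false

namespace Pool.Agent.H34.Hom

open Finset Polynomial

lemma pp_fin {R : Type*} [CommMonoid R] (N : ℕ) (F : ℕ → ℕ → R) :
    ∏ i : Fin N, ∏ j ∈ Ioi i, F i j = pp N F := by
  rw [Finset.prod_comm' (t' := Finset.univ) (s' := fun j => Finset.Iio j)
    (by intro i j; simp)]
  unfold pp
  rw [Finset.prod_range]
  apply prod_congr rfl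
  intro k _
  have h := Fin.map_valEmbedding_Iio k
  rw [← Nat.Iio_eq_range, ← h, prod_map]
  rfl

lemma alt_geo (e : ℕ → ℕ) (N : ℕ) (r : ℂ) :
    alt e N (fun j => r ^ j) = pp N (fun i j => r ^ e j - r ^ e i) := by
  have h : alt e N (fun j => r ^ j) =
      (Matrix.vandermonde (fun j : Fin N => r ^ e j)).det := by
    rw [← Matrix.det_transpose]
    unfold alt
    congr 1
    ext i j
    simp only [Matrix.of_apply, Matrix.transpose_apply, Matrix.vandermonde_apply]
    rw [← pow_mul, ← pow_mul, mul_comm]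
  rw [h, Matrix.det_vandermonde, pp_fin N (fun i j => r ^ e j - r ^ e i)]

lemma pow_sub_pow' (r : ℂ) {a b : ℕ} (h : a ≤ b) :
    r ^ b - r ^ a = (r - 1) * (r ^ a * ∑ k ∈ range (b - a), r ^ k) := by
  have h1 := mul_geom_sum r (b - a)
  have h2 : r ^ b = r ^ a * r ^ (b - a) := by rw [← pow_add]; congr 1; omega
  rw [h2]
  linear_combination (-(r ^ a)) * h1

/-- the regularised alternant -/
noncomputable def ralt (e : ℕ → ℕ) (N : ℕ) (r : ℂ) : ℂ :=
  pp N (fun i j => r ^ e i * ∑ k ∈ range (e j - e i), r ^ k)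

lemma alt_ralt (e : ℕ → ℕ) (he : ∀ i j, i ≤ j → e i ≤ e j) (N : ℕ) (r : ℂ) :
    alt e N (fun j => r ^ j) = pp N (fun _ _ => r - 1) * ralt e N r := by
  rw [alt_geo, ralt, ← pp_mul]
  apply pp_congr
  intro i j hij _
  exact pow_sub_pow' r (he i j hij.le)

lemma ralt_cont (e : ℕ → ℕ) (N : ℕ) : Continuous (ralt e N) := by
  unfold ralt pp
  fun_prop

/-- product of the differences of the exponents -/
noncomputable def PD (e : ℕ → ℕ) (N : ℕ) : ℝ := pp N (fun i j => ((e j : ℝ) - e i))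

lemma ralt_one (e : ℕ → ℕ) (he : ∀ i j, i ≤ j → e i ≤ e j) (N : ℕ) :
    ralt e N 1 = ((PD e N : ℝ) : ℂ) := by
  unfold ralt PD pp
  push_cast
  apply Finset.prod_congr rfl
  intro j _
  apply Finset.prod_congr rfl
  intro i hi
  have hij : e i ≤ e j := he i j (mem_range.1 hi).le
  simp only [one_pow, sum_const, card_range, nsmul_eq_mul, mul_one, one_mul]
  push_cast [Nat.cast_sub hij]
  ring

variable {q : ℂ} {Z : ℕ → (ℕ → ℂ) → ℂ}

theorem value_aux (hq : q ^ 2 + q + 1 = 0) (h : SR q Z) (n : ℕ)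
    (hc : Continuous (fun r : ℂ => Z (2 * n + 2) (fun j => r ^ j))) :
    Z (2 * n + 2) (fun _ => 1) * ((PD id (2 * n + 2) : ℝ) : ℂ) ^ 2 * 3 ^ ((n + 1) * n) =
      ((PD (ex 1) (2 * n + 2) : ℝ) : ℂ) * ((PD (ex 2) (2 * n + 2) : ℝ) : ℂ) := by
  have hid : ∀ i j : ℕ, i ≤ j → (id i : ℕ) ≤ id j := fun i j hij => hij
  have h1 : ∀ᶠ r : ℝ in nhdsWithin 1 (Set.Ioi 1),
      Z (2 * n + 2) (fun j => (r : ℂ) ^ j) * ralt id (2 * n + 2) r ^ 2 * 3 ^ ((n + 1) * n) =
        ralt (ex 1) (2 * n + 2) r * ralt (ex 2) (2 * n + 2) r := by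
    filter_upwards [self_mem_nhdsWithin] with r hr
    have hr : (1 : ℝ) < r := hr
    have hr0 : (r : ℂ) ≠ 0 := by
      have : r ≠ 0 := by linarith
      exact_mod_cast this
    have hr1 : (r : ℂ) - 1 ≠ 0 := by
      have : r - 1 ≠ 0 := by linarith
      exact_mod_cast this
    have hTG : TG (2 * n + 2) (2 * n + 2) (fun j => (r : ℂ) ^ j) := by
      refine ⟨fun a _ _ => pow_ne_zero _ hr0, fun a _ b _ hab _ _ h1 => hab ?_⟩
      have h1' : ((r : ℂ) ^ a) ^ 3 = ((r : ℂ) ^ b) ^ 3 := h1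
      have h2 : (r ^ a) ^ 3 = (r ^ b) ^ 3 := by exact_mod_cast h1'
      rw [← pow_mul, ← pow_mul] at h2
      have h3 := (pow_right_injective₀ (by linarith : (0 : ℝ) < r) hr.ne') h2
      omega
    have h2 := sum_id hq h n _ hTG
    unfold Idn at h2
    rw [alt_ralt id hid, alt_ralt (ex 1) (ex_mono 1 (by omega)), alt_ralt (ex 2) (ex_mono 2 (by omega))] at h2
    have h3 : pp (2 * n + 2) (fun _ _ => (r : ℂ) - 1) ≠ 0 := by
      apply pp_ne_zero
      intro _ _ _ _
      exact hr1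
    apply mul_left_cancel₀ (pow_ne_zero 2 h3)
    linear_combination h2
  have c1 : Continuous (fun r : ℝ => Z (2 * n + 2) (fun j => (r : ℂ) ^ j) *
      ralt id (2 * n + 2) r ^ 2 * 3 ^ ((n + 1) * n)) :=
    ((hc.comp Complex.continuous_ofReal).mul
      (((ralt_cont id _).comp Complex.continuous_ofReal).pow 2)).mul continuous_const
  have c2 : Continuous (fun r : ℝ => ralt (ex 1) (2 * n + 2) r * ralt (ex 2) (2 * n + 2) r) :=
    ((ralt_cont (ex 1) _).comp Complex.continuous_ofReal).mul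
      ((ralt_cont (ex 2) _).comp Complex.continuous_ofReal)
  have l1 := (c1.tendsto 1).mono_left (nhdsWithin_le_nhds (s := Set.Ioi 1))
  have l2 := (c2.tendsto 1).mono_left (nhdsWithin_le_nhds (s := Set.Ioi 1))
  have l3 := tendsto_nhds_unique (l1.congr' h1) l2
  simp only [Complex.ofReal_one, one_pow] at l3
  rw [ralt_one id hid, ralt_one (ex 1) (ex_mono 1 (by omega)),
    ralt_one (ex 2) (ex_mono 2 (by omega))] at l3
  exact l3

/-! ### the products -/

lemma prod_range_two_mul (F : ℕ → ℝ) (n : ℕ) :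
    ∏ i ∈ range (2 * n), F i = ∏ k ∈ range n, F (2 * k) * F (2 * k + 1) := by
  induction n with
  | zero => simp
  | succ n ih =>
    rw [show 2 * (n + 1) = 2 * n + 1 + 1 by ring, prod_range_succ, prod_range_succ, ih,
      prod_range_succ]
    ring

lemma PD_succ_succ (e : ℕ → ℕ) (n : ℕ) : PD e (2 * n + 2) = PD e (2 * n) *
    ((∏ i ∈ range (2 * n), (((e (2 * n) : ℝ)) - e i)) *
      ∏ i ∈ range (2 * n + 1), (((e (2 * n + 1) : ℝ)) - e i)) := by
  unfold PD pp
  rw [show 2 * n + 2 = 2 * n + 1 + 1 by ring, prod_range_succ, prod_range_succ]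
  ring

lemma PD_id_succ (n : ℕ) : PD id (2 * n + 2) = PD id (2 * n) *
    (((2 * n).factorial : ℝ) * ((2 * n + 1).factorial : ℝ)) := by
  have h : ∀ m : ℕ, ∏ i ∈ range m, (((id m : ℕ) : ℝ) - (id i : ℕ)) = (m.factorial : ℝ) := by
    intro m
    rw [← Finset.prod_range_reflect, ← Finset.prod_range_add_one_eq_factorial]
    push_cast
    apply Finset.prod_congr rfl
    intro i hi
    have hi := mem_range.1 hi
    simp only [id]
    have : m - 1 - i + (i + 1) = m := by omega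
    have h2 : ((m - 1 - i : ℕ) : ℝ) + (i + 1) = m := by exact_mod_cast this
    linarith
  rw [PD_succ_succ, h, h]

lemma PD_ex_succ (a n : ℕ) : PD (ex a) (2 * n + 2) = PD (ex a) (2 * n) *
    (a * ∏ j ∈ range n, ((3 * (j + 1)) ^ 2 * (3 * (j + 1) - a) * (3 * (j + 1) + a) : ℝ)) := by
  rw [PD_succ_succ, prod_range_succ, prod_range_two_mul, prod_range_two_mul]
  simp only [ex_two_mul, ex_two_mul_add]
  congr 1
  have h1 : ∏ k ∈ range n, ((((3 * n : ℕ) : ℝ) - ((3 * k : ℕ) : ℝ)) *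
      (((3 * n : ℕ) : ℝ) - ((3 * k + a : ℕ) : ℝ))) =
      ∏ j ∈ range n, ((3 * (j + 1)) * (3 * (j + 1) - a) : ℝ) := by
    rw [← Finset.prod_range_reflect]
    apply Finset.prod_congr rfl
    intro i hi
    have hi := mem_range.1 hi
    have : n - 1 - i + (i + 1) = n := by omega
    have h2 : ((n - 1 - i : ℕ) : ℝ) = n - (i + 1) := by
      have : ((n - 1 - i : ℕ) : ℝ) + (i + 1) = n := by exact_mod_cast this
      linarith
    push_cast
    rw [h2]
    ring
  have h3 : ∏ k ∈ range n, ((((3 * n + a : ℕ) : ℝ) - ((3 * k : ℕ) : ℝ)) *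
      (((3 * n + a : ℕ) : ℝ) - ((3 * k + a : ℕ) : ℝ))) =
      ∏ j ∈ range n, ((3 * (j + 1)) * (3 * (j + 1) + a) : ℝ) := by
    rw [← Finset.prod_range_reflect]
    apply Finset.prod_congr rfl
    intro i hi
    have hi := mem_range.1 hi
    have : n - 1 - i + (i + 1) = n := by omega
    have h2 : ((n - 1 - i : ℕ) : ℝ) = n - (i + 1) := by
      have : ((n - 1 - i : ℕ) : ℝ) + (i + 1) = n := by exact_mod_cast this
      linarith
    push_cast
    rw [h2]
    ring
  rw [h1, h3, ← mul_assoc, ← Finset.prod_mul_distrib, mul_comm]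
  congr 1
  · push_cast; ring
  · apply Finset.prod_congr rfl
    intro j _
    ring

lemma P1_eq (n : ℕ) : (((1 : ℕ) : ℝ) * ∏ j ∈ range n,
    ((3 * (j + 1)) ^ 2 * (3 * (j + 1) - (1 : ℕ)) * (3 * (j + 1) + (1 : ℕ)) : ℝ)) =
      3 ^ n * n.factorial * (3 * n + 1).factorial := by
  induction n with
  | zero => simp
  | succ n ih =>
    rw [prod_range_succ, ← mul_assoc, ih, show 3 * (n + 1) + 1 = 3 * n + 1 + 1 + 1 + 1 by ring]
    simp only [Nat.factorial_succ]
    push_cast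
    ring

lemma P2_eq (n : ℕ) : (((2 : ℕ) : ℝ) * ∏ j ∈ range n,
    ((3 * (j + 1)) ^ 2 * (3 * (j + 1) - (2 : ℕ)) * (3 * (j + 1) + (2 : ℕ)) : ℝ)) =
      3 ^ n * n.factorial * ((3 * n).factorial * (3 * n + 2)) := by
  induction n with
  | zero => simp
  | succ n ih =>
    rw [prod_range_succ, ← mul_assoc, ih, show 3 * (n + 1) = 3 * n + 1 + 1 + 1 by ring]
    simp only [Nat.factorial_succ]
    push_cast
    ring

lemma aht_succ (n : ℕ) : aht (n + 1) = aht n * (ra n ^ 2 * ((3 * n + 2) / (3 * n + 1))) := by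
  unfold aht
  rw [asm_succ, prod_range_succ]
  ring

theorem PD_aht (n : ℕ) : PD (ex 1) (2 * n) * PD (ex 2) (2 * n) =
    3 ^ (n * (n - 1)) * aht n * PD id (2 * n) ^ 2 := by
  induction n with
  | zero => simp [PD, pp, aht, asm]
  | succ n ih =>
    rw [show 2 * (n + 1) = 2 * n + 2 by ring, PD_ex_succ, PD_ex_succ, PD_id_succ, P1_eq, P2_eq]
    have e1 : (3 : ℝ) ^ ((n + 1) * (n + 1 - 1)) = 3 ^ (n * (n - 1)) * (3 ^ n) ^ 2 := by
      rw [← pow_mul, ← pow_add]
      congr 1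
      rcases n with _ | n
      · rfl
      · simp only [Nat.add_sub_cancel]
        ring
    rw [e1, aht_succ]
    have e2 : ra n * (((2 * n).factorial : ℝ) * ((2 * n + 1).factorial : ℝ)) =
        ((3 * n + 1).factorial : ℝ) * n.factorial := by
      unfold ra
      field_simp
    have e3 : ((3 * n + 1).factorial : ℝ) = (3 * n + 1) * (3 * n).factorial := by
      rw [Nat.factorial_succ]; push_cast; ring
    have h31 : (3 * (n : ℝ) + 1) ≠ 0 := by positivity
    have e4 : (((3 * n + 1).factorial : ℝ) * n.factorial) ^ 2 * ((3 * n + 2) / (3 * n + 1)) =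
        n.factorial * ((3 * n + 1).factorial : ℝ) * (n.factorial * (((3 * n).factorial : ℝ) * (3 * n + 2))) := by
      rw [e3]
      field_simp
    calc _ = (PD (ex 1) (2 * n) * PD (ex 2) (2 * n)) * (3 ^ n) ^ 2 *
          (n.factorial * ((3 * n + 1).factorial : ℝ) * (n.factorial * (((3 * n).factorial : ℝ) * (3 * n + 2)))) := by ring
      _ = _ := by
        rw [ih, ← e4, ← e2]
        ring

lemma PD_id_pos (n : ℕ) : 0 < PD id n := by
  unfold PD pp
  apply Finset.prod_pos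
  intro j _
  apply Finset.prod_pos
  intro i hi
  have : (i : ℝ) < j := by exact_mod_cast mem_range.1 hi
  simp only [id]
  linarith

/-- **The sum rule at the homogeneous point.** -/
theorem sum_value (hq : q ^ 2 + q + 1 = 0) (h : SR q Z) (n : ℕ)
    (hc : Continuous (fun r : ℂ => Z (2 * n + 2) (fun j => r ^ j))) :
    Z (2 * n + 2) (fun _ => 1) = ((aht (n + 1) : ℝ) : ℂ) := by
  have h1 := value_aux hq h n hc
  have h2 := PD_aht (n + 1)
  rw [show 2 * (n + 1) = 2 * n + 2 by ring, Nat.add_sub_cancel] at h2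
  have h3 := PD_id_pos (2 * n + 2)
  have h4 : (((PD id (2 * n + 2) : ℝ) : ℂ) ^ 2 * 3 ^ ((n + 1) * n)) ≠ 0 := by
    apply mul_ne_zero
    · apply pow_ne_zero
      exact_mod_cast h3.ne'
    · exact pow_ne_zero _ (by norm_num)
  apply mul_right_cancel₀ h4
  rw [← mul_assoc, h1]
  have h5 : ((PD (ex 1) (2 * n + 2) * PD (ex 2) (2 * n + 2) : ℝ) : ℂ) =
    ((3 ^ ((n + 1) * n) * aht (n + 1) * PD id (2 * n + 2) ^ 2 : ℝ) : ℂ) := by rw [h2]
  push_cast at h5
  rw [h5]
  ring

end Pool.Agent.H34.Hom
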