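import Pool.Agent.H34.Hom.P4
import Pool.Agent.H34.Hom.SumVal
import Pool.Agent.H56.EX.SumRule

/-!
# The homogeneous values: sum of the components and four-leg function
-/

set_option autoImplicit false

namespace Pool.Agent.H34.Hom

open Finset

variable {Ψ : ∀ L : ℕ, H56.EX.Pat L → (ℤ → ℂ) → ℂ}

lemma sr_psi (hΨ : H56.EX.PsiProps Ψ) : SR H56.EX.q (H56.EX.ZZ Ψ) :=
  ⟨fun L z i hi => H56.EX.ZZ_swap hΨ L z i hi, fun L hL z => H56.EX.ZZ_poly hΨ L hL z,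
    fun L hL z hz => H56.EX.ZZ_rec hΨ L hL z hz, fun z => H56.EX.ZZ_two hΨ z⟩

lemma par_one (L : ℕ) : H56.EX.par L (fun _ => (1 : ℂ)) = fun _ => 1 := rfl

/-- **Sum rule**: the sum of the components at the homogeneous point is `A_HT(2n)`. -/
theorem sum_psi (hΨ : H56.EX.PsiProps Ψ) (n : ℕ) :
    ∑ P : H56.EX.Pat (2 * n + 2), Ψ (2 * n + 2) P (fun _ => 1) = ((aht (n + 1) : ℝ) : ℂ) := by
  have hc : Continuous (fun r : ℂ => H56.EX.ZZ Ψ (2 * n + 2) (fun j => r ^ j)) := by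
    obtain ⟨p, hp⟩ := H56.EX.ZZ_mv hΨ (2 * n + 2)
    have h : (fun r : ℂ => H56.EX.ZZ Ψ (2 * n + 2) (fun j => r ^ j)) =
        fun r => MvPolynomial.eval (fun k : Fin (2 * n + 2) => r ^ (k : ℕ)) p := by
      funext r; rw [hp]
    rw [h]
    apply (MvPolynomial.continuous_eval p).comp
    fun_prop
  exact sum_value H56.EX.q_sq (sr_psi hΨ) n hc

lemma scons_one : H56.EX.scons (1 : ℂ) (fun _ => 1) = fun _ => 1 := by
  funext n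
  rcases n with _ | n <;> rfl

/-- **Four legs** at the homogeneous point. -/
theorem legSum_f4 (hΨ : H56.EX.PsiProps Ψ) (m : ℕ) :
    H56.EX.legSum 2 2 (2 * m) (fun P : H56.EX.Pat (2 * m + 2) => Ψ (2 * m + 2) P (fun _ => 1))
      (fun P : H56.EX.Pat (2 * m + 2) => Ψ (2 * m + 2) P (fun _ => 1)) = ((f4 m : ℝ) : ℂ) := by
  have h := F22_f4 hΨ m
  unfold H56.EX.F22 at h
  simp only [inv_one, scons_one, par_one] at h
  exact h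

/-- the homogeneous vector in size `2 n` -/
noncomputable def vv (Ψ : ∀ L : ℕ, H56.EX.Pat L → (ℤ → ℂ) → ℂ) (L : ℕ) (P : H56.EX.Pat L) : ℂ :=
  Ψ L P (fun _ => 1)

theorem sum_vv (hΨ : H56.EX.PsiProps Ψ) {L n : ℕ} (hL : L = 2 * n) (hn : 1 ≤ n) :
    ∑ P : H56.EX.Pat L, vv Ψ L P = ((aht n : ℝ) : ℂ) := by
  obtain ⟨m, rfl⟩ : ∃ m, n = m + 1 := ⟨n - 1, by omega⟩
  subst hL
  exact sum_psi hΨ m

theorem sum_vv_ne (hΨ : H56.EX.PsiProps Ψ) {L n : ℕ} (hL : L = 2 * n) (hn : 1 ≤ n) :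
    ∑ P : H56.EX.Pat L, vv Ψ L P ≠ 0 := by
  rw [sum_vv hΨ hL hn]
  exact_mod_cast (aht_pos n).ne'

theorem legSum_vv (hΨ : H56.EX.PsiProps Ψ) {L n : ℕ} (hL : L = 2 * n) (hn : 1 ≤ n) :
    H56.EX.legSum 2 2 (L - 2) (vv Ψ L) (vv Ψ L) / (∑ P : H56.EX.Pat L, vv Ψ L P) ^ 2 =
      ((p4 n : ℝ) : ℂ) := by
  rw [sum_vv hΨ hL hn]
  obtain ⟨m, rfl⟩ : ∃ m, n = m + 1 := ⟨n - 1, by omega⟩
  subst hL
  have h := legSum_f4 hΨ m
  have h2 : 2 * (m + 1) - 2 = 2 * m := by omega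
  rw [h2]
  unfold p4
  push_cast
  rw [← h]
  rfl

/-- **The four-leg number decays like `L^(-5/4)`.** -/
theorem four_leg_law : ∃ c C : ℝ, 0 < c ∧ 0 < C ∧
    ∀ Ψ : ∀ L : ℕ, H56.EX.Pat L → (ℤ → ℂ) → ℂ, H56.EX.PsiProps Ψ → ∀ L n : ℕ, L = 2 * n → 1 ≤ n →
      ∀ g : ℝ, (g : ℂ) = H56.EX.legSum 2 2 (L - 2) (vv Ψ L) (vv Ψ L) /
        (∑ P : H56.EX.Pat L, vv Ψ L P) ^ 2 →
      c * (n : ℝ) ^ (-(5 / 4) : ℝ) ≤ g ∧ g ≤ C * (n : ℝ) ^ (-(5 / 4) : ℝ) := by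
  obtain ⟨c, C, hc, hC, h⟩ := p4_power_law
  refine ⟨c, C, hc, hC, fun Ψ hΨ L n hL hn g hg => ?_⟩
  rw [legSum_vv hΨ hL hn] at hg
  have : g = p4 n := by exact_mod_cast hg
  rw [this]
  exact h n hn

end Pool.Agent.H34.Hom
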