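import Pool.Agent.H34.Hom.Ext

/-!
# Homogeneous limits of the leg sums, and coefficientwise limits of polynomials
-/

namespace Pool.Agent.H34.Hom

open Finset Polynomial Pool.Agent.H96.EX Filter Topology

/-- the path of parameters towards the homogeneous point -/
noncomputable def zt (t : ℝ) (j : ℕ) : ℂ := 1 + (j : ℂ) * (t : ℂ)

lemma zt_eq (t : ℝ) (j : ℕ) : zt t j = ((1 + j * t : ℝ) : ℂ) := by
  unfold zt; push_cast; ring

lemma gen_zt (M : ℕ) {t : ℝ} (ht : 0 < t) : Gen M (zt t) := by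
  intro j _ k _ hjk h
  rw [zt_eq, zt_eq] at h
  have h1 : (1 + (j : ℝ) * t) ^ 3 = (1 + (k : ℝ) * t) ^ 3 := by exact_mod_cast h
  have h2 : (1 + (j : ℝ) * t) = (1 + (k : ℝ) * t) := by
    have hodd : Odd 3 := by decide
    exact (Odd.strictMono_pow hodd).injective h1
  have h3 : ((j : ℝ) - k) * t = 0 := by linear_combination h2
  rcases mul_eq_zero.1 h3 with h4 | h4
  · apply hjk
    have : (j : ℝ) = k := by linarith
    exact_mod_cast this
  · exact ht.ne' h4

lemma zt_ne_zero {t : ℝ} (ht : 0 < t) (j : ℕ) : zt t j ≠ 0 := by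
  rw [zt_eq]
  have : (0 : ℝ) < 1 + j * t := by positivity
  exact_mod_cast this.ne'

lemma tendsto_zt (j : ℕ) : Tendsto (fun t : ℝ => zt t j) (𝓝[>] 0) (𝓝 1) := by
  have h : Continuous (fun t : ℝ => zt t j) := by unfold zt; fun_prop
  have h2 := (h.tendsto 0).mono_left (nhdsWithin_le_nhds (s := Set.Ioi 0))
  simpa [zt] using h2

/-- leg sum times the pair product -/
noncomputable def SS (q u v : ℂ) (M : ℕ) (c : List ℂ) (z : ℕ → ℂ) : ℂ :=
  PM M z * SG q u v (range M) c z

theorem exists_HV {q : ℂ} (u v : ℂ) (hq : q ^ 2 + q + 1 = 0) (M : ℕ) (c : List ℂ) :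
    ∃ x : ℂ, Tendsto (fun t : ℝ => SS q u v M c (zt t)) (𝓝[>] 0) (𝓝 x) := by
  classical
  obtain ⟨P, hP⟩ := SG_ext (κ := ℂ) q u v hq M c
  refine ⟨MvPolynomial.eval (pt id (fun _ => 1)) P, ?_⟩
  have h1 : Tendsto (fun t : ℝ => MvPolynomial.eval (pt id (zt t)) P) (𝓝[>] 0)
      (𝓝 (MvPolynomial.eval (pt id (fun _ => 1)) P)) := by
    apply (MvPolynomial.continuous_eval P).continuousAt.tendsto.comp
    rw [tendsto_pi_nhds]
    intro x
    cases x with
    | inl x => exact tendsto_const_nhds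
    | inr x => exact tendsto_zt x
  refine h1.congr' ?_
  filter_upwards [self_mem_nhdsWithin] with t ht
  rw [hP id (zt t) (gen_zt M ht), List.map_id]
  rfl

/-- homogeneous value of the leg sum -/
noncomputable def HV (q u v : ℂ) (M : ℕ) (c : List ℂ) : ℂ :=
  limUnder (𝓝[>] (0 : ℝ)) (fun t : ℝ => SS q u v M c (zt t))

theorem tendsto_HV {q : ℂ} (u v : ℂ) (hq : q ^ 2 + q + 1 = 0) (M : ℕ) (c : List ℂ) :
    Tendsto (fun t : ℝ => SS q u v M c (zt t)) (𝓝[>] 0) (𝓝 (HV q u v M c)) := by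
  obtain ⟨x, hx⟩ := exists_HV u v hq M c
  have := hx.limUnder_eq
  unfold HV
  rw [this]; exact hx

/-- joint limit: legs and strands tend to the homogeneous point along any generic path -/
theorem tendsto_HV' {κ : Type*} {q : ℂ} (u v : ℂ) (hq : q ^ 2 + q + 1 = 0) (M : ℕ) (l : List κ)
    {F : Filter ℝ} (y : ℝ → κ → ℂ) (y0 : κ → ℂ) (hy : ∀ a, Tendsto (fun t => y t a) F (𝓝 (y0 a)))
    (z : ℝ → ℕ → ℂ) (hz : ∀ j, Tendsto (fun t => z t j) F (𝓝 1)) (hg : ∀ᶠ t in F, Gen M (z t)) :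
    Tendsto (fun t : ℝ => SS q u v M (l.map (y t)) (z t)) F (𝓝 (HV q u v M (l.map y0))) := by
  classical
  obtain ⟨P, hP⟩ := SG_ext (κ := κ) q u v hq M l
  have h1 : Tendsto (fun t : ℝ => MvPolynomial.eval (pt (y t) (z t)) P) F
      (𝓝 (MvPolynomial.eval (pt y0 (fun _ => 1)) P)) := by
    apply (MvPolynomial.continuous_eval P).continuousAt.tendsto.comp
    rw [tendsto_pi_nhds]
    intro x
    cases x with
    | inl x => exact hy x
    | inr x => exact hz x
  have h2 : Tendsto (fun t : ℝ => MvPolynomial.eval (pt y0 (zt t)) P) (𝓝[>] 0)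
      (𝓝 (MvPolynomial.eval (pt y0 (fun _ => 1)) P)) := by
    apply (MvPolynomial.continuous_eval P).continuousAt.tendsto.comp
    rw [tendsto_pi_nhds]
    intro x
    cases x with
    | inl x => exact tendsto_const_nhds
    | inr x => exact tendsto_zt x
  have h3 : MvPolynomial.eval (pt y0 (fun _ => 1)) P = HV q u v M (l.map y0) := by
    refine tendsto_nhds_unique h2 ?_
    refine (tendsto_HV u v hq M (l.map y0)).congr' ?_
    filter_upwards [self_mem_nhdsWithin] with t ht
    rw [hP y0 (zt t) (gen_zt M ht)]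
    rfl
  rw [← h3]
  refine h1.congr' ?_
  filter_upwards [hg] with t ht
  rw [hP (y t) (z t) ht]
  rfl

/-! ### coefficientwise limits -/

/-- coefficientwise convergence -/
def CT (F : Filter ℝ) (p : ℝ → ℂ[X]) (P : ℂ[X]) : Prop :=
  ∀ k, Tendsto (fun t => (p t).coeff k) F (𝓝 (P.coeff k))

lemma CT.add {F : Filter ℝ} {p r : ℝ → ℂ[X]} {P R : ℂ[X]} (h1 : CT F p P) (h2 : CT F r R) :
    CT F (fun t => p t + r t) (P + R) := by
  intro k
  simp only [coeff_add]
  exact (h1 k).add (h2 k)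

lemma CT.sub {F : Filter ℝ} {p r : ℝ → ℂ[X]} {P R : ℂ[X]} (h1 : CT F p P) (h2 : CT F r R) :
    CT F (fun t => p t - r t) (P - R) := by
  intro k
  simp only [coeff_sub]
  exact (h1 k).sub (h2 k)

lemma CT.mul {F : Filter ℝ} {p r : ℝ → ℂ[X]} {P R : ℂ[X]} (h1 : CT F p P) (h2 : CT F r R) :
    CT F (fun t => p t * r t) (P * R) := by
  intro k
  simp only [coeff_mul]
  apply tendsto_finsetSum
  intro x _
  exact (h1 x.1).mul (h2 x.2)

lemma CT.const (F : Filter ℝ) (P : ℂ[X]) : CT F (fun _ => P) P := fun _ => tendsto_const_nhds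

lemma CT.C {F : Filter ℝ} {f : ℝ → ℂ} {x : ℂ} (h : Tendsto f F (𝓝 x)) :
    CT F (fun t => Polynomial.C (f t)) (Polynomial.C x) := by
  intro k
  simp only [coeff_C]
  split_ifs
  · exact h
  · exact tendsto_const_nhds

lemma CT.pow {F : Filter ℝ} {p : ℝ → ℂ[X]} {P : ℂ[X]} (h1 : CT F p P) (n : ℕ) :
    CT F (fun t => p t ^ n) (P ^ n) := by
  induction n with
  | zero => simpa using CT.const F 1
  | succ n ih =>
    simp only [pow_succ]
    exact ih.mul h1

lemma CT.prod {F : Filter ℝ} {ι : Type*} (s : Finset ι) {p : ι → ℝ → ℂ[X]} {P : ι → ℂ[X]}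
    (h : ∀ i ∈ s, CT F (p i) (P i)) : CT F (fun t => ∏ i ∈ s, p i t) (∏ i ∈ s, P i) := by
  classical
  induction s using Finset.induction_on with
  | empty => simpa using CT.const F 1
  | insert a s ha ih =>
    simp only [prod_insert ha]
    exact (h a (mem_insert_self a s)).mul (ih fun i hi => h i (mem_insert_of_mem hi))

lemma CT.unique {F : Filter ℝ} [F.NeBot] {p : ℝ → ℂ[X]} {P R : ℂ[X]} (h1 : CT F p P)
    (h2 : CT F p R) : P = R := by
  ext k
  exact tendsto_nhds_unique (h1 k) (h2 k)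

lemma CT.congr' {F : Filter ℝ} {p r : ℝ → ℂ[X]} {P : ℂ[X]} (h1 : CT F p P)
    (h : ∀ᶠ t in F, p t = r t) : CT F r P := by
  intro k
  refine (h1 k).congr' ?_
  filter_upwards [h] with t ht
  rw [ht]

/-- pointwise convergence with bounded degree gives coefficientwise convergence -/
theorem CT_of_pointwise {F : Filter ℝ} [F.NeBot] (p : ℝ → ℂ[X]) (M : ℕ)
    (hdeg : ∀ t, (p t).natDegree ≤ M) (f : ℂ → ℂ)
    (h : ∀ x, Tendsto (fun t => (p t).eval x) F (𝓝 (f x))) :
    ∃ P : ℂ[X], P.natDegree ≤ M ∧ (∀ x, P.eval x = f x) ∧ CT F p P := by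
  set v : ℕ → ℂ := fun i => (i : ℂ) with hv
  have hinj : Set.InjOn v (range (M + 1) : Finset ℕ) := by
    intro a _ b _ hab
    have hab' : (a : ℂ) = (b : ℂ) := hab
    exact_mod_cast hab'
  have hp : ∀ t, p t = ∑ i ∈ range (M + 1), Polynomial.C ((p t).eval (v i)) * Lagrange.basis (range (M + 1)) v i := by
    intro t
    have h1 := Lagrange.eq_interpolate (s := range (M + 1)) (f := p t) hinj (by
      rw [card_range]
      exact lt_of_le_of_lt degree_le_natDegree (by exact_mod_cast Nat.lt_succ_of_le (hdeg t)))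
    rw [Lagrange.interpolate_apply] at h1
    exact h1
  set P : ℂ[X] := ∑ i ∈ range (M + 1), Polynomial.C (f (v i)) * Lagrange.basis (range (M + 1)) v i with hP
  have hCT : CT F p P := by
    intro k
    have h2 : ∀ t, (p t).coeff k = ∑ i ∈ range (M + 1), (p t).eval (v i) * (Lagrange.basis (range (M + 1)) v i).coeff k := by
      intro t
      conv_lhs => rw [hp t]
      rw [finsetSum_coeff]
      simp only [coeff_C_mul]
    simp only [h2]
    rw [hP, finsetSum_coeff]
    simp only [coeff_C_mul]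
    apply tendsto_finsetSum
    intro i _
    exact (h _).mul_const _
  refine ⟨P, ?_, ?_, hCT⟩
  · rw [natDegree_le_iff_coeff_eq_zero]
    intro N hN
    have h3 : ∀ t, (p t).coeff N = 0 := fun t => coeff_eq_zero_of_natDegree_lt (lt_of_le_of_lt (hdeg t) hN)
    have h4 := hCT N
    simp only [h3] at h4
    exact (tendsto_nhds_unique h4 tendsto_const_nhds)
  · intro x
    have h5 : ∀ t, (p t).eval x = ∑ i ∈ range (M + 1), (p t).eval (v i) * (Lagrange.basis (range (M + 1)) v i).eval x := by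
      intro t
      conv_lhs => rw [hp t]
      rw [eval_finsetSum]
      simp only [eval_mul, eval_C]
    have h6 : Tendsto (fun t => (p t).eval x) F (𝓝 (P.eval x)) := by
      simp only [h5]
      rw [hP, eval_finsetSum]
      simp only [eval_mul, eval_C]
      apply tendsto_finsetSum
      intro i _
      exact (h _).mul_const _
    exact tendsto_nhds_unique h6 (h x)

/-- the first leg as a polynomial variable -/
noncomputable def Sp (q u v : ℂ) (M : ℕ) (c : List ℂ) (z : ℕ → ℂ) : ℂ[X] :=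
  C (PM M z) * SGpoly q u v (range M) c z

lemma Sp_eval (q u v : ℂ) (M : ℕ) (c : List ℂ) (z : ℕ → ℂ) (x : ℂ) :
    (Sp q u v M c z).eval x = SS q u v M (x :: c) z := by
  unfold Sp SS
  rw [eval_mul, eval_C, SGpoly_eval]

lemma Sp_natDegree (q u v : ℂ) (M : ℕ) (c : List ℂ) (z : ℕ → ℂ) :
    (Sp q u v M c z).natDegree ≤ M := by
  unfold Sp
  refine (natDegree_C_mul_le _ _).trans ?_
  have := SGpoly_natDegree q u v (range M) c z
  rwa [card_range] at this

theorem exists_HP {q : ℂ} (u v : ℂ) (hq : q ^ 2 + q + 1 = 0) (M : ℕ) (c : List ℂ) :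
    ∃ P : ℂ[X], P.natDegree ≤ M ∧ (∀ x, P.eval x = HV q u v M (x :: c)) ∧
      CT (𝓝[>] (0 : ℝ)) (fun t => Sp q u v M c (zt t)) P := by
  apply CT_of_pointwise _ M (fun t => Sp_natDegree q u v M c (zt t))
  intro x
  simp only [Sp_eval]
  exact tendsto_HV u v hq M (x :: c)

end Pool.Agent.H34.Hom
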