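import Pool.Agent.H34.Hom.Asym
import Pool.Agent.H56.EX.All

/-!
# The homogeneous four-leg function is `f4`
-/

namespace Pool.Agent.H34.Hom

open Finset Pool.Agent.H96.EX Filter Topology

lemma PM_eq_prz (M : ℕ) (z : ℕ → ℂ) : PM M z = prz M z := (prz_range' M z).symm

lemma gen_fin {M : ℕ} {z : ℕ → ℂ} (h : Gen M z) : ∀ i j : Fin M, i ≠ j → (z i) ^ 3 ≠ (z j) ^ 3 :=
  fun i j hij => h i i.2 j j.2 (fun e => hij (Fin.ext e))

theorem S4_HV (M : ℕ) : S4 M ![1, 1, 1, 1] (fun _ => 1) =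
    HV H56.EX.q H56.EX.q (H56.EX.q ^ 2) M [1, 1, 1, 1] := by
  have hcont : Continuous (fun t : ℝ => S4 M ![1, 1, 1, 1] (zt t)) := by
    unfold S4
    apply S_continuous
    · exact continuous_const
    · apply continuous_pi
      intro j
      unfold zt
      fun_prop
  have h1 : Tendsto (fun t : ℝ => S4 M ![1, 1, 1, 1] (zt t)) (𝓝[>] 0)
      (𝓝 (S4 M ![1, 1, 1, 1] (fun _ => 1))) := by
    have h2 := (hcont.tendsto 0).mono_left (nhdsWithin_le_nhds (s := Set.Ioi 0))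
    have h3 : zt 0 = fun _ => 1 := by
      funext j; simp [zt]
    rw [h3] at h2
    exact h2
  refine tendsto_nhds_unique h1 ?_
  refine (tendsto_HV H56.EX.q (H56.EX.q ^ 2) H56.EX.q_sq M [1, 1, 1, 1]).congr' ?_
  filter_upwards [self_mem_nhdsWithin] with t ht
  rw [S4_eq_SG_range 1 1 1 1 (zt t) (gen_fin (gen_zt M ht))]
  unfold SS
  rw [PM_eq_prz]

lemma ee_even (m : ℕ) : H56.EX.ee (2 * m) = 2 * m ^ 2 + 3 * m + 1 := by
  induction m with
  | zero => rfl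
  | succ m ih =>
    have h1 : H56.EX.ee (2 * (m + 1)) = H56.EX.ee (2 * m) + (2 * m + 2) + (2 * m + 1 + 2) := rfl
    rw [h1, ih]; ring

/-- the homogeneous (2,2) leg function is `f4` -/
theorem F22_f4 {Ψ : ∀ L : ℕ, H56.EX.Pat L → (ℤ → ℂ) → ℂ} (hΨ : H56.EX.PsiProps Ψ) (m : ℕ) :
    H56.EX.F22 Ψ (2 * m) 1 1 1 1 (fun _ => 1) = ((f4 m : ℝ) : ℂ) := by
  have hM : Even (2 * m) := ⟨m, by ring⟩
  rw [H56.EX.F22_one hΨ (2 * m) hM, show H56.EX.S4 (2 * m) ![1, 1, 1, 1] (fun _ => 1) = _ from S4_HV (2 * m)]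
  have h4 := four_leg_value H56.EX.q_sq (2 * m) hM
  rw [two_leg_value H56.EX.q_sq (2 * m)] at h4
  have e0 : ((-1 : ℂ)) ^ (2 * m) = 1 := by rw [pow_mul]; norm_num
  have e1 : 2 * m * (2 * m + 1) / 2 = m * (2 * m + 1) := by
    rw [mul_assoc, Nat.mul_div_cancel_left _ (by norm_num)]
  rw [e0, one_mul, e1] at h4
  rw [ee_even]
  have e2 : 2 * (2 * m) + 3 = 4 * m + 3 := by ring
  have e3 : 2 * (2 * m) + 2 = 4 * m + 2 := by ring
  rw [e2, e3] at h4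
  have e4 : (3 : ℂ) ^ (2 * m ^ 2 + 3 * m + 1) = 3 * 3 ^ (m * (2 * m + 1)) * 9 ^ m := by
    have : (9 : ℂ) ^ m = 3 ^ (2 * m) := by rw [pow_mul]; norm_num
    rw [this, mul_assoc, ← pow_add, ← pow_succ']
    congr 1
    ring
  rw [e4]
  unfold f4
  push_cast at h4 ⊢
  have hf1 : ((4 * m + 3).factorial : ℂ) ≠ 0 := by exact_mod_cast Nat.factorial_ne_zero _
  have hf2 : ((4 * m + 2).factorial : ℂ) ≠ 0 := by exact_mod_cast Nat.factorial_ne_zero _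
  have h3 : (3 : ℂ) ^ (m * (2 * m + 1)) ≠ 0 := pow_ne_zero _ (by norm_num)
  have h9 : (9 : ℂ) ^ m ≠ 0 := pow_ne_zero _ (by norm_num)
  rw [div_eq_div_iff (mul_ne_zero (mul_ne_zero (by norm_num) h3) h9)
    (mul_ne_zero h9 (mul_ne_zero hf1 hf2))]
  linear_combination 3 * 9 ^ m * h4

end Pool.Agent.H34.Hom
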