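import Pool.Agent.H34.Hom.Three

/-!
# Structure of the homogeneous limit polynomials
-/

namespace Pool.Agent.H34.Hom

open Finset Polynomial Pool.Agent.H96.EX Filter Topology

lemma listprod_natDegree (c : List ℂ) :
    ((c.map fun a => (X - C a : ℂ[X])).prod).natDegree ≤ c.length := by
  induction c with
  | nil => simp
  | cons a c ih =>
    rw [List.map_cons, List.prod_cons, List.length_cons]
    refine natDegree_mul_le.trans ?_
    rw [natDegree_X_sub_C]
    omega

lemma sqprod_natDegree (M : ℕ) (z : ℕ → ℂ) :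
    (∏ j ∈ range M, (X - C (z j) : ℂ[X]) ^ 2).natDegree ≤ 2 * M := by
  refine (natDegree_prod_le _ _).trans ?_
  have : ∑ j ∈ range M, ((X - C (z j) : ℂ[X]) ^ 2).natDegree ≤ ∑ j ∈ range M, 2 := by
    apply sum_le_sum
    intro j _
    refine natDegree_pow_le.trans ?_
    rw [natDegree_X_sub_C]
  refine this.trans ?_
  simp; omega

lemma Phi_natDegree (q u v : ℂ) (M : ℕ) (c : List ℂ) (z : ℕ → ℂ) :
    (Phi q u v M c z).natDegree ≤ 3 * M + c.length := by
  unfold Phi
  refine natDegree_mul_le.trans ?_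
  have h1 := sqprod_natDegree M z
  have h2 : (Sp q u v M c z * (c.map fun a => X - C a).prod).natDegree ≤ M + c.length := by
    refine natDegree_mul_le.trans ?_
    have := Sp_natDegree q u v M c z
    have := listprod_natDegree c
    omega
  omega

/-- the cubes of the parameters as a finset -/
noncomputable def cub (M : ℕ) (z : ℕ → ℂ) : Finset ℂ := (range M).image fun j => z j ^ 3

lemma card_cub {M : ℕ} {z : ℕ → ℂ} (hz : Gen M z) : (cub M z).card = M := by
  unfold cub
  rw [card_image_of_injOn, card_range]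
  intro a ha b hb hab
  by_contra hne
  exact hz a (mem_range.1 ha) b (mem_range.1 hb) hne hab

/-- `l = 1`: no exponents `≡ 2` -/
theorem sec2_Phi {q : ℂ} (hq : q ^ 2 + q + 1 = 0) (M : ℕ) (c : List ℂ) (hc : c.length ≤ 1)
    (z : ℕ → ℂ) (hz : Gen M z) (hz0 : ∀ j, z j ≠ 0) :
    sec 2 (Phi q (q ^ 2) q M c z) = 0 := by
  have q3 : q ^ 3 = 1 := by linear_combination (q - 1) * hq
  have q0 : q ≠ 0 := by rintro rfl; norm_num at hq
  apply Polynomial.eq_zero_of_degree_lt_of_eval_finset_eq_zero (cub M z)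
  · rw [card_cub hz, degree_lt_iff_coeff_zero]
    intro k hk
    rw [coeff_sec, coeff_eq_zero_of_natDegree_lt]
    have := Phi_natDegree q (q ^ 2) q M c z
    omega
  · intro x hx
    unfold cub at hx
    rw [mem_image] at hx
    obtain ⟨a, ha, rfl⟩ := hx
    rw [mem_range] at ha
    apply sec2_eval_eq_zero hq _ _ (hz0 a) (Phi_root _ _ _ _ _ ha)
    have := Phi_three (q ^ 2) q hq hz ha c
    apply mul_left_cancel₀ q0
    rw [mul_zero, ← this]
    ring

/-- `l = 2`: the part with exponents `≡ 0` -/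
theorem sec0_Phi {q : ℂ} (hq : q ^ 2 + q + 1 = 0) (M : ℕ) (c : List ℂ) (hc : c.length ≤ 3)
    (z : ℕ → ℂ) (hz : Gen M z) (hz0 : ∀ j, z j ≠ 0) :
    sec 0 (Phi q q (q ^ 2) M c z) =
      (C ((Phi q q (q ^ 2) M c z).coeff 0 / ∏ j ∈ range M, (-(z j) ^ 3)) +
        C ((Phi q q (q ^ 2) M c z).coeff (3 * M + 3)) * X) * ∏ j ∈ range M, (X - C (z j ^ 3)) := by
  classical
  have q3 : q ^ 3 = 1 := by linear_combination (q - 1) * hq
  have q0 : q ≠ 0 := by rintro rfl; norm_num at hq
  set φ := Phi q q (q ^ 2) M c z with hφ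
  have hφd : φ.natDegree ≤ 3 * M + 3 := (Phi_natDegree q q (q ^ 2) M c z).trans (by omega)
  set P := ∏ j ∈ range M, (X - C (z j ^ 3)) with hP
  have hPd : P.natDegree = M := by
    rw [hP, natDegree_prod_of_monic _ _ (fun _ _ => monic_X_sub_C _),
      sum_congr rfl (fun j _ => natDegree_X_sub_C (z j ^ 3))]
    simp
  have hPm : P.Monic := monic_prod_of_monic _ _ fun _ _ => monic_X_sub_C _
  set α := φ.coeff 0 / ∏ j ∈ range M, (-(z j) ^ 3) with hα
  set β := φ.coeff (3 * M + 3) with hβ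
  have hne : ∏ j ∈ range M, (-(z j) ^ 3) ≠ 0 := by
    rw [prod_ne_zero_iff]
    intro j _
    exact neg_ne_zero.2 (pow_ne_zero 3 (hz0 j))
  rw [← sub_eq_zero]
  apply Polynomial.eq_zero_of_degree_lt_of_eval_finset_eq_zero (insert 0 (cub M z))
  · rw [card_insert_of_notMem, card_cub hz, degree_lt_iff_coeff_zero]
    · intro k hk
      rw [coeff_sub, coeff_sec]
      have e1 : ((C α + C β * X) * P).coeff k = α * P.coeff k + β * (P.coeff (k - 1)) := by
        obtain ⟨k', rfl⟩ : ∃ k', k = k' + 1 := ⟨k - 1, by omega⟩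
        rw [add_mul, coeff_add, coeff_C_mul, mul_assoc, coeff_C_mul, coeff_X_mul]
        simp
      rw [e1]
      rcases eq_or_lt_of_le hk with h | h
      · subst h
        have e2 : P.coeff (M + 1) = 0 := coeff_eq_zero_of_natDegree_lt (by omega)
        have e3 : P.coeff (M + 1 - 1) = 1 := by
          rw [Nat.add_sub_cancel]
          have := hPm
          rw [Monic, leadingCoeff, hPd] at this
          exact this
        rw [e2, e3, hβ]
        have : 3 * (M + 1) + 0 = 3 * M + 3 := by ring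
        rw [this]
        ring
      · rw [coeff_eq_zero_of_natDegree_lt (by omega), coeff_eq_zero_of_natDegree_lt (p := P) (by omega),
          coeff_eq_zero_of_natDegree_lt (p := P) (by omega)]
        ring
    · unfold cub
      rw [mem_image]
      rintro ⟨j, _, hj⟩
      exact pow_ne_zero 3 (hz0 j) hj
  · intro x hx
    rw [mem_insert] at hx
    rcases hx with rfl | hx
    · rw [eval_sub, ← coeff_zero_eq_eval_zero, coeff_sec]
      simp only [eval_mul, eval_add, eval_C, eval_X, mul_zero, add_zero, hP, eval_prod, eval_sub,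
        zero_sub]
      rw [hα]
      field_simp
      ring
    · unfold cub at hx
      rw [mem_image] at hx
      obtain ⟨a, ha, rfl⟩ := hx
      rw [mem_range] at ha
      have e1 : (sec 0 φ).eval (z a ^ 3) = 0 := by
        apply sec0_eval_eq_zero hq _ _ (Phi_root _ _ _ _ _ ha)
        have := Phi_three q (q ^ 2) hq hz ha c
        apply mul_left_cancel₀ (pow_ne_zero 2 q0)
        rw [mul_zero, ← this]
        ring
      rw [eval_sub, e1, eval_mul, hP, eval_prod, prod_eq_zero (mem_range.2 ha) (by simp)]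
      ring

/-! ### limits -/

lemma CT_sec {F : Filter ℝ} {p : ℝ → ℂ[X]} {P : ℂ[X]} (r : ℕ) (h : CT F p P) :
    CT F (fun t => sec r (p t)) (sec r P) := by
  intro k
  simp only [coeff_sec]
  exact h _

lemma CT_Phi {q : ℂ} (u v : ℂ) (M : ℕ) (c : List ℂ) {A : ℂ[X]}
    (hA : CT (𝓝[>] (0 : ℝ)) (fun t => Sp q u v M c (zt t)) A) :
    CT (𝓝[>] (0 : ℝ)) (fun t => Phi q u v M c (zt t))
      (A * (c.map fun a => X - C a).prod * (X - 1) ^ (2 * M)) := by
  have h1 : (∏ j ∈ range M, (X - C (1 : ℂ)) ^ 2) = (X - 1 : ℂ[X]) ^ (2 * M) := by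
    rw [prod_const, card_range, ← pow_mul, map_one]
  rw [← h1]
  unfold Phi
  refine (hA.mul (CT.const _ _)).mul (CT.prod _ ?_)
  intro j _
  exact ((CT.const _ _).sub (CT.C (tendsto_zt j))).pow 2

theorem struct1 {q : ℂ} (hq : q ^ 2 + q + 1 = 0) (M : ℕ) (c : List ℂ) (hc : c.length ≤ 1) {A : ℂ[X]}
    (hA : CT (𝓝[>] (0 : ℝ)) (fun t => Sp q (q ^ 2) q M c (zt t)) A) :
    sec 2 (A * (c.map fun a => X - C a).prod * (X - 1) ^ (2 * M)) = 0 := by
  have h1 := CT_sec 2 (CT_Phi (q := q) (q ^ 2) q M c hA)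
  have h2 : CT (𝓝[>] (0 : ℝ)) (fun t => sec 2 (Phi q (q ^ 2) q M c (zt t))) 0 := by
    refine (CT.const _ 0).congr' ?_
    filter_upwards [self_mem_nhdsWithin] with t ht
    exact (sec2_Phi hq M c hc (zt t) (gen_zt M ht) (zt_ne_zero ht)).symm
  exact h1.unique h2

theorem struct2 {q : ℂ} (hq : q ^ 2 + q + 1 = 0) (M : ℕ) (c : List ℂ) (hc : c.length ≤ 3) {A : ℂ[X]}
    (hA : CT (𝓝[>] (0 : ℝ)) (fun t => Sp q q (q ^ 2) M c (zt t)) A) :
    sec 0 (A * (c.map fun a => X - C a).prod * (X - 1) ^ (2 * M)) =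
      (C ((A * (c.map fun a => X - C a).prod * (X - 1) ^ (2 * M)).coeff 0 * (-1) ^ M) +
        C ((A * (c.map fun a => X - C a).prod * (X - 1) ^ (2 * M)).coeff (3 * M + 3)) * X) *
        (X - 1) ^ M := by
  have h0 := CT_Phi (q := q) q (q ^ 2) M c hA
  have h1 := CT_sec 0 h0
  set φ := A * (c.map fun a => X - C a).prod * (X - 1) ^ (2 * M) with hφ
  have h2 : CT (𝓝[>] (0 : ℝ)) (fun t => sec 0 (Phi q q (q ^ 2) M c (zt t)))
      ((C (φ.coeff 0 * (-1) ^ M) + C (φ.coeff (3 * M + 3)) * X) * (X - 1) ^ M) := by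
    have e1 : (∏ j ∈ range M, (X - C ((1 : ℂ) ^ 3))) = (X - 1 : ℂ[X]) ^ M := by
      rw [prod_const, card_range, one_pow, map_one]
    rw [← e1]
    have h3 : Tendsto (fun t : ℝ => (Phi q q (q ^ 2) M c (zt t)).coeff 0 / ∏ j ∈ range M, (-(zt t j) ^ 3))
        (𝓝[>] 0) (𝓝 (φ.coeff 0 * (-1) ^ M)) := by
      have e2 : φ.coeff 0 * (-1) ^ M = φ.coeff 0 / ∏ j ∈ range M, (-(1 : ℂ) ^ 3) := by
        rw [one_pow, prod_const, card_range]
        have : ((-1 : ℂ) ^ M) * (-1) ^ M = 1 := by
          rw [← pow_add]; exact (Even.add_self _).neg_one_pow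
        rw [eq_div_iff (pow_ne_zero _ (by norm_num)), mul_assoc, this, mul_one]
      rw [e2]
      apply (h0 0).div
      · apply tendsto_finsetProd
        intro j _
        exact ((tendsto_zt j).pow 3).neg
      · rw [one_pow, prod_const]
        exact pow_ne_zero _ (by norm_num)
    have h4 := ((CT.C h3).add ((CT.C (h0 (3 * M + 3))).mul (CT.const _ X))).mul
      (CT.prod (range M) (p := fun j t => X - C (zt t j ^ 3)) (P := fun _ => X - C ((1 : ℂ) ^ 3))
        (fun j _ => (CT.const _ X).sub (CT.C ((tendsto_zt j).pow 3))))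
    refine h4.congr' ?_
    filter_upwards [self_mem_nhdsWithin] with t ht
    exact (sec0_Phi hq M c hc (zt t) (gen_zt M ht) (zt_ne_zero ht)).symm
  exact h1.unique h2

/-! ### top coefficient, value at zero, recursion at `q²` -/

lemma SGpoly_coeff (q u v : ℂ) (M : ℕ) (c : List ℂ) (z : ℕ → ℂ) :
    (SGpoly q u v (range M) c z).coeff M = SG q u v (range M) c z := by
  unfold SGpoly SG
  rw [finsetSum_coeff]
  apply sum_congr rfl
  intro A hA
  rw [mem_powerset] at hA
  have hb : ∀ (T : Finset ℕ) (f g : ℕ → ℂ),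
      (∏ j ∈ T, C (f j) * (X - C (g j))).natDegree ≤ T.card := by
    intro T f g
    refine (natDegree_prod_le _ _).trans ?_
    rw [Finset.card_eq_sum_ones]
    apply Finset.sum_le_sum
    intro j _
    refine (natDegree_C_mul_le _ _).trans ?_
    exact natDegree_X_sub_C_le _
  have hb2 : ∀ (T : Finset ℕ) (f g : ℕ → ℂ),
      (∏ j ∈ T, C (f j) * (X - C (g j))).coeff T.card = ∏ j ∈ T, f j := by
    intro T f g
    have := coeff_prod_of_natDegree_le T (fun j => C (f j) * (X - C (g j))) 1 (fun j _ =>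
      (natDegree_C_mul_le _ _).trans (natDegree_X_sub_C_le _))
    rw [mul_one] at this
    rw [this]
    apply prod_congr rfl
    intro j _
    rw [coeff_C_mul]
    simp
  rw [mul_comm _ (C _), coeff_C_mul]
  have hcard : M = A.card + (range M \ A).card := by
    rw [Finset.card_sdiff_of_subset hA, card_range]
    have := Finset.card_le_card hA
    rw [card_range] at this
    omega
  have key := coeff_mul_add_eq_of_natDegree_le (hb A (fun j => u * lg c (q * z j)) (fun j => q * z j))
    (hb (range M \ A) (fun j => v * lg c (q ^ 2 * z j)) (fun j => q ^ 2 * z j))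
  rw [← hcard, hb2, hb2] at key
  rw [key]
  ring

lemma Sp_coeff (q u v : ℂ) (M : ℕ) (c : List ℂ) (z : ℕ → ℂ) :
    (Sp q u v M c z).coeff M = SS q u v M c z := by
  unfold Sp SS
  rw [coeff_C_mul, SGpoly_coeff]

lemma top_HV {q : ℂ} (u v : ℂ) (hq : q ^ 2 + q + 1 = 0) (M : ℕ) (c : List ℂ) {A : ℂ[X]}
    (hA : CT (𝓝[>] (0 : ℝ)) (fun t => Sp q u v M c (zt t)) A) : A.coeff M = HV q u v M c := by
  have h1 := hA M
  simp only [Sp_coeff] at h1
  exact tendsto_nhds_unique h1 (tendsto_HV u v hq M c)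

lemma SG_zero_leg (q u v : ℂ) (M : ℕ) (c : List ℂ) (z : ℕ → ℂ) :
    SG q u v (range M) (0 :: c) z =
      (∏ j ∈ range M, (-(z j))) * SG q (u * q) (v * q ^ 2) (range M) c z := by
  unfold SG
  rw [mul_sum]
  apply sum_congr rfl
  intro A hA
  rw [mem_powerset] at hA
  have e : (∏ j ∈ range M, (-(z j))) = (∏ j ∈ A, (-(z j))) * ∏ j ∈ range M \ A, (-(z j)) := by
    rw [← Finset.prod_sdiff hA, mul_comm]
  rw [e]
  have e1 : (∏ j ∈ A, u * lg (0 :: c) (q * z j)) = (∏ j ∈ A, (-(z j))) * ∏ j ∈ A, (u * q * lg c (q * z j)) := by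
    rw [← prod_mul_distrib]
    apply prod_congr rfl
    intro j _
    rw [lg_cons]; ring
  have e2 : (∏ j ∈ range M \ A, v * lg (0 :: c) (q ^ 2 * z j)) =
      (∏ j ∈ range M \ A, (-(z j))) * ∏ j ∈ range M \ A, (v * q ^ 2 * lg c (q ^ 2 * z j)) := by
    rw [← prod_mul_distrib]
    apply prod_congr rfl
    intro j _
    rw [lg_cons]; ring
  rw [e1, e2]
  ring

lemma HV_zero_leg {q : ℂ} (u v : ℂ) (hq : q ^ 2 + q + 1 = 0) (M : ℕ) (c : List ℂ) :
    HV q u v M (0 :: c) = (-1) ^ M * HV q (u * q) (v * q ^ 2) M c := by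
  have h1 := tendsto_HV u v hq M (0 :: c)
  have h2 := tendsto_HV (u * q) (v * q ^ 2) hq M c
  have h3 : Tendsto (fun t : ℝ => ∏ j ∈ range M, (-(zt t j))) (𝓝[>] 0) (𝓝 ((-1) ^ M)) := by
    have e : ((-1 : ℂ) ^ M) = ∏ j ∈ range M, (-(1 : ℂ)) := by simp
    rw [e]
    apply tendsto_finsetProd
    intro j _
    exact (tendsto_zt j).neg
  refine tendsto_nhds_unique h1 ((h3.mul h2).congr ?_)
  intro t
  unfold SS
  rw [SG_zero_leg]
  ring

lemma Wf_last {q : ℂ} (u v : ℂ) (hq : q ^ 2 + q + 1 = 0) {M : ℕ} {z : ℕ → ℂ} (hz : Gen (M + 1) z)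
    (c : List ℂ) : Wf q u v (M + 1) M c z = z M * SS q u v M (z M :: c) z := by
  unfold Wf SS
  have e : (range (M + 1)).erase M = range M := by
    rw [range_add_one, erase_insert (by simp)]
  rw [e]
  have e2 : PM (M + 1) z = PM M z * ∏ j ∈ range M, (z j ^ 2 + z j * z M + z M ^ 2) := by
    unfold PM pp
    rw [prod_range_succ]
  have e3 : ∏ j ∈ range M, (z j ^ 2 + z j * z M + z M ^ 2) ≠ 0 := by
    rw [prod_ne_zero_iff]
    intro j hj h
    rw [mem_range] at hj
    apply hz j (by omega) M (by omega) (by omega)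
    linear_combination (z j - z M) * h
  rw [e2, mul_div_assoc, div_self e3, mul_one]
  ring

/-- recursion of the homogeneous values -/
theorem HV_rec {q : ℂ} (u v : ℂ) (hq : q ^ 2 + q + 1 = 0) (M : ℕ) (c : List ℂ) :
    HV q u v (M + 1) (q ^ 2 :: c) =
      u * (q ^ 2 - q) * lg c q * (1 - q) ^ (2 * M) * HV q u v M (1 :: c) := by
  have h1 : Tendsto (fun t : ℝ => SS q u v (M + 1) ((q ^ 2 * zt t M) :: c) (zt t)) (𝓝[>] 0)
      (𝓝 (HV q u v (M + 1) (q ^ 2 :: c))) := by
    have := tendsto_HV' (κ := Option (Fin c.length)) u v hq (M + 1)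
      (none :: (List.finRange c.length).map some)
      (fun t o => o.elim (q ^ 2 * zt t M) (fun i => c.get i))
      (fun o => o.elim (q ^ 2) (fun i => c.get i))
      (F := 𝓝[>] (0 : ℝ)) (by
        intro a
        cases a with
        | none =>
          have := (tendsto_zt M).const_mul (q ^ 2)
          simpa using this
        | some i => exact tendsto_const_nhds) zt tendsto_zt (by
        filter_upwards [self_mem_nhdsWithin] with t ht
        exact gen_zt _ ht)
    simpa [List.map_map, Function.comp_def] using this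
  have h2 : Tendsto (fun t : ℝ => SS q u v M (zt t M :: c) (zt t)) (𝓝[>] 0)
      (𝓝 (HV q u v M (1 :: c))) := by
    have := tendsto_HV' (κ := Option (Fin c.length)) u v hq M
      (none :: (List.finRange c.length).map some)
      (fun t o => o.elim (zt t M) (fun i => c.get i))
      (fun o => o.elim 1 (fun i => c.get i))
      (F := 𝓝[>] (0 : ℝ)) (by
        intro a
        cases a with
        | none =>
          have := (tendsto_zt M)
          simpa using this
        | some i => exact tendsto_const_nhds) zt tendsto_zt (by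
        filter_upwards [self_mem_nhdsWithin] with t ht
        exact gen_zt _ ht)
    simpa [List.map_map, Function.comp_def] using this
  have h3 : Tendsto (fun t : ℝ => lg c (q * zt t M)) (𝓝[>] 0) (𝓝 (lg c q)) := by
    have hc : Continuous (fun x : ℂ => lg c x) := by
      clear h1 h2
      induction c with
      | nil => simpa using continuous_const
      | cons a c ih =>
        simp only [lg_cons]
        fun_prop
    have e := (tendsto_zt M).const_mul q
    rw [mul_one] at e
    exact (hc.tendsto q).comp e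
  have h4 : Tendsto (fun t : ℝ => ∏ j ∈ range M, (zt t j - q * zt t M) ^ 2) (𝓝[>] 0)
      (𝓝 ((1 - q) ^ (2 * M))) := by
    have e : ((1 - q) ^ (2 * M)) = ∏ j ∈ range M, ((1 : ℂ) - q * 1) ^ 2 := by
      rw [prod_const, card_range, ← pow_mul, mul_one]
    rw [e]
    apply tendsto_finsetProd
    intro j _
    exact ((tendsto_zt j).sub ((tendsto_zt M).const_mul q)).pow 2
  have h5 := ((h3.const_mul (u * (q ^ 2 - q))).mul h4).mul ((tendsto_zt M).mul h2)
  have h6 : u * (q ^ 2 - q) * lg c q * (1 - q) ^ (2 * M) * (1 * HV q u v M (1 :: c)) =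
    u * (q ^ 2 - q) * lg c q * (1 - q) ^ (2 * M) * HV q u v M (1 :: c) := by ring
  rw [h6] at h5
  refine tendsto_nhds_unique h1 (h5.congr' ?_)
  filter_upwards [self_mem_nhdsWithin] with t ht
  rw [SS_rec1 u v hq (gen_zt (M + 1) ht) (Nat.lt_succ_self M), Wf_last u v hq (gen_zt (M + 1) ht)]
  have e : (range (M + 1)).erase M = range M := by
    rw [range_add_one, erase_insert (by simp)]
  rw [e]

end Pool.Agent.H34.Hom
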