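import Pool.Agent.H34.Hom.Alt

/-!
# The sum rule: `Z_{2n} · Δ² · 3^{n(n-1)} = alt (ex 1) · alt (ex 2)`
-/

set_option autoImplicit false

namespace Pool.Agent.H34.Hom

open Finset Polynomial

/-- properties of the sum of the components -/
structure SR (q : ℂ) (Z : ℕ → (ℕ → ℂ) → ℂ) : Prop where
  swap : ∀ (L : ℕ) (z : ℕ → ℂ) (i : ℕ), i + 1 < L → Z L (z ∘ Equiv.swap i (i + 1)) = Z L z
  poly : ∀ L : ℕ, 0 < L → ∀ z : ℕ → ℂ, ∃ p : ℂ[X], p.natDegree ≤ L - 1 ∧
    ∀ t, Z L (Function.update z 0 t) = p.eval t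
  recu : ∀ L : ℕ, 2 ≤ L → ∀ z : ℕ → ℂ, z 0 = q ^ 2 * z 1 → Z (L + 2) z =
    (-q * z 1 * (∏ s ∈ range L, (z (s + 2) - q * z 1) ^ 2) / 3 ^ L) * Z L (fun n => z (n + 2))
  two : ∀ z : ℕ → ℂ, Z 2 z = z 0 + z 1

variable {q : ℂ} {Z : ℕ → (ℕ → ℂ) → ℂ}

lemma SR.swap' (h : SR q Z) {L : ℕ} (z : ℕ → ℂ) {a b : ℕ} (hab : a < b) (hb : b < L) :
    Z L (z ∘ Equiv.swap a b) = Z L z := by
  induction b generalizing z with
  | zero => omega
  | succ b ih =>
    rcases Nat.lt_succ_iff_lt_or_eq.1 hab with h1 | h1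
    · have e : (Equiv.swap a (b + 1) : Equiv.Perm ℕ) =
          Equiv.swap b (b + 1) * Equiv.swap a b * Equiv.swap b (b + 1) := by
        rw [Equiv.swap_mul_swap_mul_swap (by omega) (by omega), Equiv.swap_comm]
      have e2 : z ∘ Equiv.swap a (b + 1) =
          ((z ∘ Equiv.swap b (b + 1)) ∘ Equiv.swap a b) ∘ Equiv.swap b (b + 1) := by
        rw [e]; rfl
      rw [e2, h.swap _ _ _ hb, ih _ h1 (by omega), h.swap _ _ _ hb]
    · subst h1
      exact h.swap _ _ _ hb

lemma SR.swap'' (h : SR q Z) {L : ℕ} (z : ℕ → ℂ) {a b : ℕ} (ha : a < L) (hb : b < L) :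
    Z L (z ∘ Equiv.swap a b) = Z L z := by
  rcases lt_trichotomy a b with h1 | h1 | h1
  · exact h.swap' z h1 hb
  · subst h1; simp
  · rw [Equiv.swap_comm]; exact h.swap' z h1 ha

/-- the factorised identity -/
def Idn (Z : ℕ → (ℕ → ℂ) → ℂ) (N : ℕ) (c : ℂ) (z : ℕ → ℂ) : Prop :=
  Z N z * alt id N z ^ 2 * c = alt (ex 1) N z * alt (ex 2) N z

lemma Idn_swap (h : SR q Z) {N : ℕ} (c : ℂ) (z : ℕ → ℂ) {a b : ℕ} (ha : a < N) (hb : b < N) :
    Idn Z N c (z ∘ Equiv.swap a b) ↔ Idn Z N c z := by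
  rcases eq_or_ne a b with h1 | h1
  · subst h1; simp
  · unfold Idn
    rw [h.swap'' z ha hb, alt_swap id z ha hb h1, alt_swap (ex 1) z ha hb h1,
      alt_swap (ex 2) z ha hb h1]
    simp only [even_two, Even.neg_pow, neg_mul_neg]

/-- distinct cubes, nonzero, outside the index `i0` -/
def TG (N i0 : ℕ) (z : ℕ → ℂ) : Prop :=
  (∀ a < N, a ≠ i0 → z a ≠ 0) ∧ ∀ a < N, ∀ b < N, a ≠ b → a ≠ i0 → b ≠ i0 → z a ^ 3 ≠ z b ^ 3

lemma swap_lt' {N x y a : ℕ} (hx : x < N) (hy : y < N) (ha : a < N) : Equiv.swap x y a < N := by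
  rcases eq_or_ne a x with h | h
  · rw [h, Equiv.swap_apply_left]; exact hy
  · rcases eq_or_ne a y with h' | h'
    · rw [h', Equiv.swap_apply_right]; exact hx
    · rw [Equiv.swap_apply_of_ne_of_ne h h']; exact ha

lemma TG.swap {N i0 : ℕ} {z : ℕ → ℂ} (h : TG N i0 z) {x y : ℕ} (hx : x < N) (hy : y < N) :
    TG N (Equiv.swap x y i0) (z ∘ Equiv.swap x y) := by
  have key : ∀ a, a ≠ Equiv.swap x y i0 → Equiv.swap x y a ≠ i0 := by
    intro a ha h1
    apply ha
    rw [← h1]; simp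
  refine ⟨fun a ha h0 => h.1 _ (swap_lt' hx hy ha) (key a h0), fun a ha b hb hab h0 h1 => ?_⟩
  exact h.2 _ (swap_lt' hx hy ha) _ (swap_lt' hx hy hb) (fun e => hab (Equiv.injective _ e))
    (key a h0) (key b h1)

lemma node (hq : q ^ 2 + q + 1 = 0) (h : SR q Z) (n : ℕ) (z : ℕ → ℂ) (h0 : z 0 = q ^ 2 * z 1)
    (ih : Idn Z (2 * n + 2) (3 ^ ((n + 1) * n)) (fun k => z (k + 2))) :
    Idn Z (2 * n + 4) (3 ^ ((n + 2) * (n + 1))) z := by
  have q3 : q ^ 3 = 1 := by linear_combination (q - 1) * hq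
  have hw : z 0 ^ 3 = z 1 ^ 3 := by rw [h0]; linear_combination (z 1 ^ 3) * (q ^ 3 + 1) * q3
  have e1 : alt (ex 1) (2 * n + 4) z = (z 1 ^ 1 - z 0 ^ 1) *
      (∏ i : Fin (2 * n + 2), (z (i + 2) ^ 3 - z 1 ^ 3)) * alt (ex 1) (2 * n + 2) (fun k => z (k + 2)) := by
    have := alt_ex_rec 1 (2 * n + 2) z (z 1) hw rfl
    rw [show 2 * n + 4 = 2 + (2 * n + 2) by ring, this]
    simp only [add_comm 2]
  have e2 : alt (ex 2) (2 * n + 4) z = (z 1 ^ 2 - z 0 ^ 2) *
      (∏ i : Fin (2 * n + 2), (z (i + 2) ^ 3 - z 1 ^ 3)) * alt (ex 2) (2 * n + 2) (fun k => z (k + 2)) := by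
    have := alt_ex_rec 2 (2 * n + 2) z (z 1) hw rfl
    rw [show 2 * n + 4 = 2 + (2 * n + 2) by ring, this]
    simp only [add_comm 2]
  have e3 : alt id (2 * n + 4) z = ((z 1 - z 0) * ∏ i : Fin (2 * n + 2), (z (i + 2) - z 0)) *
      ((∏ i : Fin (2 * n + 2), (z (i + 2) - z 1)) * alt id (2 * n + 2) (fun k => z (k + 2))) := by
    rw [show 2 * n + 4 = (2 * n + 3) + 1 by ring, alt_id_succ,
      show 2 * n + 3 = (2 * n + 2) + 1 by ring, alt_id_succ, Fin.prod_univ_succ]
    rfl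
  have e4 := h.recu (2 * n + 2) (by omega) z h0
  rw [Finset.prod_range] at e4
  unfold Idn at ih ⊢
  rw [show 2 * n + 4 = (2 * n + 2) + 2 by ring] at e1 e2 e3 ⊢
  rw [e1, e2, e3, e4]
  have e5 : (3 : ℂ) ^ ((n + 2) * (n + 1)) = 3 ^ (2 * n + 2) * 3 ^ ((n + 1) * n) := by
    rw [← pow_add]; congr 1; ring
  rw [e5]
  have e6 : (∏ i : Fin (2 * n + 2), (z (i + 2) ^ 3 - z 1 ^ 3)) ^ 2 =
      (∏ i : Fin (2 * n + 2), (z (i + 2) - q * z 1) ^ 2) *
      (∏ i : Fin (2 * n + 2), (z (i + 2) - z 0)) ^ 2 *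
      (∏ i : Fin (2 * n + 2), (z (i + 2) - z 1)) ^ 2 := by
    rw [← Finset.prod_pow, ← Finset.prod_pow, ← Finset.prod_pow, ← Finset.prod_mul_distrib,
      ← Finset.prod_mul_distrib]
    apply Finset.prod_congr rfl
    intro i _
    rw [← mul_pow, ← mul_pow]
    congr 1
    rw [h0]
    have hq2 : q ^ 2 = -1 - q := by linear_combination hq
    generalize z (↑i + 2) = x
    have : (x - q * z 1) * (x - q ^ 2 * z 1) * (x - z 1) = x ^ 3 - z 1 ^ 3 := by
      linear_combination (x * z 1 ^ 2 - x ^ 2 * z 1 ) * hq +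
        (x * z 1 ^ 2 - z 1 ^ 3) * q3
    rw [← this]
  generalize (∏ i : Fin (2 * n + 2), (z (i + 2) ^ 3 - z 1 ^ 3)) = P at *
  generalize (∏ i : Fin (2 * n + 2), (z (i + 2) - q * z 1) ^ 2) = P1 at *
  generalize (∏ i : Fin (2 * n + 2), (z (i + 2) - z 0)) = P2 at *
  generalize (∏ i : Fin (2 * n + 2), (z (i + 2) - z 1)) = P3 at *
  generalize Z (2 * n + 2) (fun k => z (k + 2)) = Z' at *
  generalize alt id (2 * n + 2) (fun k => z (k + 2)) = V at *
  generalize alt (ex 1) (2 * n + 2) (fun k => z (k + 2)) = A at *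
  generalize alt (ex 2) (2 * n + 2) (fun k => z (k + 2)) = B at *
  have h3 : (3 : ℂ) ^ (2 * n + 2) ≠ 0 := pow_ne_zero _ (by norm_num)
  generalize (3 : ℂ) ^ (2 * n + 2) = K at *
  generalize (3 : ℂ) ^ ((n + 1) * n) = K' at *
  have e7 : -q * z 1 * P1 / K * Z' * ((z 1 - z 0) * P2 * (P3 * V)) ^ 2 * (K * K') =
      (-q * z 1 * (z 1 - z 0) ^ 2) * (P1 * P2 ^ 2 * P3 ^ 2) * (Z' * V ^ 2 * K') := by
    field_simp
  rw [e7, ih, ← e6, h0]
  linear_combination (-(P ^ 2 * A * B * z 1 ^ 3) * (q ^ 2 - 1) ^ 2) * hq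

lemma dvd_prod_roots {m : ℕ} (f : Fin m → ℂ) (hf : Function.Injective f) (p : ℂ[X])
    (hp : ∀ j, p.eval (f j) = 0) : (∏ j : Fin m, (X - C (f j))) ∣ p := by
  apply Finset.prod_dvd_of_coprime
  · intro a _ b _ hab
    exact pairwise_coprime_X_sub_C hf hab
  · intro j _
    exact dvd_iff_isRoot.2 (hp j)

lemma prod_monic {m : ℕ} (f : Fin m → ℂ) : (∏ j : Fin m, (X - C (f j))).Monic :=
  monic_prod_of_monic _ _ fun j _ => monic_X_sub_C (f j)

lemma prod_natDegree {m : ℕ} (f : Fin m → ℂ) : (∏ j : Fin m, (X - C (f j))).natDegree = m := by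
  rw [natDegree_prod_of_monic _ _ fun j _ => monic_X_sub_C (f j)]
  simp

lemma quot_degree {m D : ℕ} (f : Fin m → ℂ) (p b : ℂ[X]) (hp : p.natDegree ≤ m + D)
    (h : p = (∏ j : Fin m, (X - C (f j))) * b) : b.natDegree ≤ D := by
  by_cases hb : b = 0
  · rw [hb]; simp
  · rw [h, (prod_monic f).natDegree_mul' hb, prod_natDegree] at hp
    omega

lemma ex_mono (a : ℕ) (ha : a ≤ 3) : ∀ j k, j ≤ k → ex a j ≤ ex a k := by
  have h : ∀ j, ex a j ≤ ex a (j + 1) := by
    intro j
    rcases Nat.even_or_odd' j with ⟨k, rfl | rfl⟩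
    · rw [ex_two_mul, ex_two_mul_add]; omega
    · rw [ex_two_mul_add, show 2 * k + 1 + 1 = 2 * (k + 1) by ring, ex_two_mul]; omega
  exact fun j k hjk => monotone_nat_of_le_succ h hjk

/-- the induction step -/
lemma stepI (hq : q ^ 2 + q + 1 = 0) (h : SR q Z) (n : ℕ)
    (ih : ∀ z, TG (2 * n + 2) (2 * n + 2) z → Idn Z (2 * n + 2) (3 ^ ((n + 1) * n)) z)
    (z : ℕ → ℂ) (hz : TG (2 * n + 4) 0 z) (t : ℂ) :
    Idn Z (2 * n + 4) (3 ^ ((n + 2) * (n + 1))) (Function.update z 0 t) := by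
  have q3 : q ^ 3 = 1 := by linear_combination (q - 1) * hq
  have hqne : q ≠ 0 := by
    intro h0; rw [h0] at hq; norm_num at hq
  have hq1 : q ≠ 1 := by
    intro h0; rw [h0] at hq; norm_num at hq
  -- nodes
  have nd1 : ∀ z : ℕ → ℂ, TG (2 * n + 4) 0 z → z 0 = q ^ 2 * z 1 →
      Idn Z (2 * n + 4) (3 ^ ((n + 2) * (n + 1))) z := by
    intro z hz h0
    apply node hq h n z h0
    apply ih
    refine ⟨fun a ha _ => hz.1 _ (by omega) (by omega), fun a ha b hb hab _ _ =>
      hz.2 _ (by omega) _ (by omega) (by omega) (by omega) (by omega)⟩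
  have nd2 : ∀ (z : ℕ → ℂ), TG (2 * n + 4) 0 z → ∀ j, 1 ≤ j → j < 2 * n + 4 → z 0 = q ^ 2 * z j →
      Idn Z (2 * n + 4) (3 ^ ((n + 2) * (n + 1))) z := by
    intro z hz j hj1 hj h0
    rw [← Idn_swap h _ z (a := 1) (b := j) (by omega) hj]
    have hz' := hz.swap (x := 1) (y := j) (by omega) hj
    have e0 : Equiv.swap 1 j 0 = 0 := Equiv.swap_apply_of_ne_of_ne (by omega) (by omega)
    rw [e0] at hz'
    apply nd1 _ hz'
    simp only [Function.comp_apply, e0, Equiv.swap_apply_left]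
    exact h0
  have nd3 : ∀ (z : ℕ → ℂ), TG (2 * n + 4) 0 z → ∀ j, 1 ≤ j → j < 2 * n + 4 → z 0 = q * z j →
      Idn Z (2 * n + 4) (3 ^ ((n + 2) * (n + 1))) z := by
    intro z hz j hj1 hj h0
    rw [← Idn_swap h _ z (a := 0) (b := j) (by omega) hj]
    have hc : z 0 ^ 3 = z j ^ 3 := by rw [h0]; linear_combination z j ^ 3 * q3
    have hzj : TG (2 * n + 4) j z := by
      refine ⟨fun a ha h1 => ?_, fun a ha b hb hab h1 h2 => ?_⟩
      · rcases eq_or_ne a 0 with h3 | h3
        · rw [h3, h0]; exact mul_ne_zero hqne (hz.1 j hj (by omega))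
        · exact hz.1 a ha h3
      · rcases eq_or_ne a 0 with h3 | h3
        · rw [h3, hc]
          exact hz.2 j hj b hb (Ne.symm h2) (by omega) (by omega)
        · rcases eq_or_ne b 0 with h4 | h4
          · rw [h4, hc]
            exact hz.2 a ha j hj h1 h3 (by omega)
          · exact hz.2 a ha b hb hab h3 h4
    have hz' := hzj.swap (x := 0) (y := j) (by omega) hj
    rw [Equiv.swap_apply_right] at hz'
    apply nd2 _ hz' j hj1 hj
    simp only [Function.comp_apply, Equiv.swap_apply_left, Equiv.swap_apply_right]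
    rw [h0]
    linear_combination (-(z j)) * q3
  -- polynomials
  obtain ⟨pZ, hpZ, heZ⟩ := h.poly (2 * n + 4) (by omega) z
  obtain ⟨p1, hp1, he1⟩ := alt_poly (ex 1) (2 * n + 3) (3 * (n + 1) + 1)
    (fun j hj => by
      rw [← ex_two_mul_add]
      exact ex_mono 1 (by omega) _ _ (by omega)) z
  obtain ⟨p2, hp2, he2⟩ := alt_poly (ex 2) (2 * n + 3) (3 * (n + 1) + 2)
    (fun j hj => by
      rw [← ex_two_mul_add]
      exact ex_mono 2 (by omega) _ _ (by omega)) z
  set f : Fin (2 * n + 3) → ℂ := fun j => z (j + 1) with hf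
  have hfinj : Function.Injective f := by
    intro a b hab
    by_contra hne
    have hne' : (a : ℕ) ≠ b := fun e => hne (Fin.ext e)
    exact hz.2 (a + 1) (by omega) (b + 1) (by omega) (by omega) (by omega) (by omega)
      (by rw [show z (a + 1) = z (b + 1) from hab])
  have hroot : ∀ (e : ℕ → ℕ) (j : Fin (2 * n + 3)),
      alt e (2 * n + 3 + 1) (Function.update z 0 (f j)) = 0 := by
    intro e j
    apply alt_eq_zero e _ (a := 0) (b := j + 1) (by omega) (by omega) (by omega)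
    rw [Function.update_self, Function.update_of_ne (by omega)]
  obtain ⟨b1, hb1⟩ := dvd_prod_roots f hfinj p1 (fun j => by rw [he1]; exact hroot _ j)
  obtain ⟨b2, hb2⟩ := dvd_prod_roots f hfinj p2 (fun j => by rw [he2]; exact hroot _ j)
  have hd1 : b1.natDegree ≤ n + 1 := quot_degree f p1 b1 (by omega) hb1
  have hd2 : b2.natDegree ≤ n + 2 := quot_degree f p2 b2 (by omega) hb2
  set Q : ℂ[X] := ∏ j : Fin (2 * n + 3), (X - C (f j)) with hQ
  set κ : ℂ := alt id (2 * n + 3) (fun k => z (k + 1)) with hκ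
  have hV : ∀ t, alt id (2 * n + 4) (Function.update z 0 t) ^ 2 = Q.eval t ^ 2 * κ ^ 2 := by
    intro t
    rw [show 2 * n + 4 = (2 * n + 3) + 1 by ring, alt_id_succ, mul_pow]
    have hk : alt id (2 * n + 3) (fun k => Function.update z 0 t (k + 1)) = κ := by
      apply alt_congr
      intro i _
      rw [Function.update_of_ne (by omega)]
    rw [hk]
    congr 1
    rw [hQ, eval_prod, ← Finset.prod_pow, ← Finset.prod_pow]
    apply Finset.prod_congr rfl
    intro j _
    rw [Function.update_self, Function.update_of_ne (by omega)]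
    simp only [eval_sub, eval_X, eval_C, hf]
    ring
  set D : ℂ[X] := pZ * C (κ ^ 2 * 3 ^ ((n + 2) * (n + 1))) - b1 * b2 with hD
  have hDdeg : D.natDegree ≤ 2 * n + 3 := by
    rw [hD]
    refine (natDegree_sub_le _ _).trans (max_le ?_ ?_)
    · exact (natDegree_mul_C_le _ _).trans (by omega)
    · exact natDegree_mul_le.trans (by omega)
  have hId : ∀ t, Idn Z (2 * n + 4) (3 ^ ((n + 2) * (n + 1))) (Function.update z 0 t) ↔
      Q.eval t ^ 2 * D.eval t = 0 := by
    intro t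
    unfold Idn
    rw [heZ, hV t]
    have e1 : alt (ex 1) (2 * n + 4) (Function.update z 0 t) = Q.eval t * b1.eval t := by
      rw [← eval_mul, ← hb1, he1]
    have e2 : alt (ex 2) (2 * n + 4) (Function.update z 0 t) = Q.eval t * b2.eval t := by
      rw [← eval_mul, ← hb2, he2]
    rw [e1, e2, hD]
    simp only [eval_sub, eval_mul, eval_C]
    constructor
    · intro h; linear_combination h
    · intro h; linear_combination h
  have hupd : ∀ t, TG (2 * n + 4) 0 (Function.update z 0 t) := by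
    intro t
    refine ⟨fun a ha h1 => ?_, fun a ha b hb hab h1 h2 => ?_⟩
    · rw [Function.update_of_ne h1]; exact hz.1 a ha h1
    · rw [Function.update_of_ne h1, Function.update_of_ne h2]; exact hz.2 a ha b hb hab h1 h2
  have hQne : ∀ (j : Fin (2 * n + 3)) (x : ℂ), x ^ 3 = f j ^ 3 → x ≠ f j → Q.eval x ≠ 0 := by
    intro j x hx hne
    rw [hQ, eval_prod, Finset.prod_ne_zero_iff]
    intro k _
    simp only [eval_sub, eval_X, eval_C]
    rw [sub_ne_zero]
    intro hxk
    rcases eq_or_ne k j with h1 | h1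
    · rw [h1] at hxk; exact hne hxk
    · have : (k : ℕ) ≠ j := fun e => h1 (Fin.ext e)
      apply hz.2 (k + 1) (by omega) (j + 1) (by omega) (by omega) (by omega) (by omega)
      show f k ^ 3 = f j ^ 3
      rw [← hxk, hx]
  have hf0 : ∀ j, f j ≠ 0 := fun j => hz.1 _ (by omega) (by omega)
  have hz1 : ∀ j : Fin (2 * n + 3), D.eval (q * f j) = 0 := by
    intro j
    have hI : Idn Z (2 * n + 4) (3 ^ ((n + 2) * (n + 1))) (Function.update z 0 (q * f j)) := by
      apply nd3 _ (hupd _) (j + 1) (by omega) (by omega)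
      rw [Function.update_self, Function.update_of_ne (by omega)]
    rw [hId] at hI
    rcases mul_eq_zero.1 hI with h1 | h1
    · exfalso
      refine hQne j (q * f j) (by linear_combination (f j ^ 3) * q3) ?_ (pow_eq_zero_iff (two_ne_zero) |>.1 h1)
      intro h2
      have : (q - 1) * f j = 0 := by linear_combination h2
      rcases mul_eq_zero.1 this with h3 | h3
      · exact hq1 (sub_eq_zero.1 h3)
      · exact hf0 j h3
    · exact h1
  have hz2 : ∀ j : Fin (2 * n + 3), D.eval (q ^ 2 * f j) = 0 := by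
    intro j
    have hI : Idn Z (2 * n + 4) (3 ^ ((n + 2) * (n + 1))) (Function.update z 0 (q ^ 2 * f j)) := by
      apply nd2 _ (hupd _) (j + 1) (by omega) (by omega)
      rw [Function.update_self, Function.update_of_ne (by omega)]
    rw [hId] at hI
    rcases mul_eq_zero.1 hI with h1 | h1
    · exfalso
      refine hQne j (q ^ 2 * f j) (by linear_combination (f j ^ 3) * (q ^ 3 + 1) * q3) ?_ (pow_eq_zero_iff (two_ne_zero) |>.1 h1)
      intro h2
      have : (q - 1) * f j = 0 := by linear_combination (-q) * h2 + (f j) * q3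
      rcases mul_eq_zero.1 this with h3 | h3
      · exact hq1 (sub_eq_zero.1 h3)
      · exact hf0 j h3
    · exact h1
  have hD0 : D = 0 := by
    apply eq_zero_of_natDegree_lt_card_of_eval_eq_zero D
      (f := Sum.elim (fun j : Fin (2 * n + 3) => q * f j) (fun j : Fin (2 * n + 3) => q ^ 2 * f j))
    · apply Function.Injective.sumElim
      · intro a b hab
        exact hfinj (mul_left_cancel₀ hqne hab)
      · intro a b hab
        exact hfinj (mul_left_cancel₀ (pow_ne_zero 2 hqne) hab)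
      · intro a b hab
        have h1 : f a = q * f b := by
          apply mul_left_cancel₀ hqne
          linear_combination hab
        rcases eq_or_ne a b with h2 | h2
        · rw [h2] at h1
          have : (q - 1) * f b = 0 := by linear_combination -h1
          rcases mul_eq_zero.1 this with h3 | h3
          · exact hq1 (sub_eq_zero.1 h3)
          · exact hf0 b h3
        · have h3 : (a : ℕ) ≠ b := fun e => h2 (Fin.ext e)
          apply hz.2 (a + 1) (by omega) (b + 1) (by omega) (by omega) (by omega) (by omega)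
          show f a ^ 3 = f b ^ 3
          rw [h1]
          linear_combination (f b ^ 3) * q3
    · rintro (j | j)
      · exact hz1 j
      · exact hz2 j
    · simp only [Fintype.card_sum, Fintype.card_fin]
      omega
  rw [hId, hD0]
  simp

/-- **The factorised sum rule.** -/
theorem sum_id (hq : q ^ 2 + q + 1 = 0) (h : SR q Z) (n : ℕ) :
    ∀ z, TG (2 * n + 2) (2 * n + 2) z → Idn Z (2 * n + 2) (3 ^ ((n + 1) * n)) z := by
  induction n with
  | zero =>
    intro z _
    unfold Idn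
    have e1 : ∀ e : ℕ → ℕ, e 0 = 0 → alt e 2 z = z 1 ^ e 1 - z 0 ^ e 1 := by
      intro e he
      unfold alt
      rw [Matrix.det_fin_two]
      simp [he]
    show Z 2 z * alt id 2 z ^ 2 * 3 ^ ((0 + 1) * 0) = alt (ex 1) 2 z * alt (ex 2) 2 z
    rw [h.two, e1 id rfl, e1 (ex 1) rfl, e1 (ex 2) rfl]
    simp only [ex, id]
    ring
  | succ n ih =>
    intro z hz
    have h1 := stepI hq h n ih z
      ⟨fun a ha h0 => hz.1 a (by omega) (by omega), fun a ha b hb hab h1 h2 =>
        hz.2 a (by omega) b (by omega) hab (by omega) (by omega)⟩ (z 0)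
    rw [Function.update_eq_self] at h1
    exact h1

end Pool.Agent.H34.Hom
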