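import Pool.Agent.H34.Hom.Final
import Pool.Agent.H15.Exact.Final

/-!
# The homogeneous values for the real stationary vector `vR`
-/

set_option autoImplicit false

namespace Pool.Agent.H34.Hom

open Finset Pool.Agent.H15.Exact

/-- sum of the components of the stationary vector -/
theorem sum_vR (n : ℕ) (hn : 1 ≤ n) : ∑ P : H56.EX.Pat (2 * n), vR (2 * n) P = aht n := by
  have h := sum_vv Pool.Agent.H12.QKZ.psiProps (L := 2 * n) rfl hn
  have h2 : ((∑ P : H56.EX.Pat (2 * n), vR (2 * n) P : ℝ) : ℂ) = ((aht n : ℝ) : ℂ) := by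
    rw [← h]
    push_cast
    apply Finset.sum_congr rfl
    intro P _
    exact vR_eq (2 * n) P
  exact_mod_cast h2

theorem sum_vR_pos (n : ℕ) (hn : 1 ≤ n) : 0 < ∑ P : H56.EX.Pat (2 * n), vR (2 * n) P := by
  rw [sum_vR n hn]; exact aht_pos n

open Classical in
/-- real leg sum -/
noncomputable def legR (L : ℕ) : ℝ :=
  ∑ P : H56.EX.Pat L, ∑ Q : H56.EX.Pat L, if H56.EX.Leg 2 2 (L - 2) P Q then vR L P * vR L Q else 0

/-- the four-leg probability on the cylinder of circumference `2 n` -/
theorem legR_eq (n : ℕ) (hn : 1 ≤ n) :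
    legR (2 * n) / (∑ P : H56.EX.Pat (2 * n), vR (2 * n) P) ^ 2 = p4 n := by
  have h := legSum_vv Pool.Agent.H12.QKZ.psiProps (L := 2 * n) rfl hn
  have h2 : ((legR (2 * n) / (∑ P : H56.EX.Pat (2 * n), vR (2 * n) P) ^ 2 : ℝ) : ℂ) =
      ((p4 n : ℝ) : ℂ) := by
    rw [← h]
    unfold legR H56.EX.legSum vv
    push_cast
    congr 1
    · apply Finset.sum_congr rfl
      intro P _
      apply Finset.sum_congr rfl
      intro Q _
      split_ifs
      · push_cast
        rw [vR_eq, vR_eq]
      · simp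
    · congr 1
      apply Finset.sum_congr rfl
      intro P _
      exact vR_eq (2 * n) P
  exact_mod_cast h2

end Pool.Agent.H34.Hom
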