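import Pool.Agent.H34.Hom.Lim

/-!
# The three-term relation and the exponents modulo 3
-/

namespace Pool.Agent.H34.Hom

open Finset Polynomial Pool.Agent.H96.EX Filter Topology

/-- the part of `f` with exponents `≡ r` mod 3 -/
noncomputable def sec (r : ℕ) (f : ℂ[X]) : ℂ[X] :=
  ∑ k ∈ range (f.natDegree + 1), monomial k (f.coeff (3 * k + r))

lemma coeff_sec (r : ℕ) (f : ℂ[X]) (k : ℕ) : (sec r f).coeff k = f.coeff (3 * k + r) := by
  unfold sec
  rw [finsetSum_coeff]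
  simp only [coeff_monomial]
  rw [Finset.sum_ite_eq' (range (f.natDegree + 1)) k (fun k => f.coeff (3 * k + r))]
  split_ifs with h
  · rfl
  · rw [mem_range, not_lt] at h
    rw [coeff_eq_zero_of_natDegree_lt]
    omega

lemma sec_decomp (f : ℂ[X]) :
    f = expand ℂ 3 (sec 0 f) + X * expand ℂ 3 (sec 1 f) + X ^ 2 * expand ℂ 3 (sec 2 f) := by
  ext n
  have h3 : (0 : ℕ) < 3 := by norm_num
  simp only [coeff_add, pow_two, mul_assoc]
  rcases n with _ | _ | n
  · simp [coeff_expand h3, coeff_sec, mul_coeff_zero]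
  · rw [coeff_X_mul, coeff_X_mul, mul_coeff_zero, coeff_expand h3, coeff_expand h3]
    simp [coeff_sec]
  · rw [coeff_X_mul, coeff_X_mul, coeff_X_mul, coeff_expand h3, coeff_expand h3, coeff_expand h3,
      coeff_sec, coeff_sec, coeff_sec]
    obtain ⟨k, hk⟩ : ∃ k, n = 3 * k ∨ n = 3 * k + 1 ∨ n = 3 * k + 2 := ⟨n / 3, by omega⟩
    rcases hk with rfl | rfl | rfl
    · rw [if_neg (by omega), if_neg (by omega), if_pos (by omega), Nat.mul_div_cancel_left k h3]
      simp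
    · rw [if_pos (by omega), if_neg (by omega), if_neg (by omega)]
      have : (3 * k + 1 + 1 + 1) / 3 = k + 1 := by omega
      rw [this]
      simp; congr 1
    · rw [if_neg (by omega), if_pos (by omega), if_neg (by omega)]
      have : (3 * k + 2 + 1) / 3 = k + 1 := by omega
      rw [this]
      simp; congr 1

lemma eval_decomp (f : ℂ[X]) (x : ℂ) :
    f.eval x = (sec 0 f).eval (x ^ 3) + x * (sec 1 f).eval (x ^ 3) + x ^ 2 * (sec 2 f).eval (x ^ 3) := by
  conv_lhs => rw [sec_decomp f]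
  simp only [eval_add, eval_mul, eval_X, eval_pow, expand_eval]

lemma sec_add (r : ℕ) (f g : ℂ[X]) : sec r (f + g) = sec r f + sec r g := by
  ext k; simp [coeff_sec]

/-- vanishing of the `0` part -/
lemma sec0_eval_eq_zero {q : ℂ} (hq : q ^ 2 + q + 1 = 0) (f : ℂ[X]) (x : ℂ)
    (h0 : f.eval x = 0) (h1 : f.eval (q ^ 2 * x) + f.eval (q * x) = 0) :
    (sec 0 f).eval (x ^ 3) = 0 := by
  have q3 : q ^ 3 = 1 := by linear_combination (q - 1) * hq
  have e1 : (q * x) ^ 3 = x ^ 3 := by rw [mul_pow, q3, one_mul]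
  have e2 : (q ^ 2 * x) ^ 3 = x ^ 3 := by
    rw [mul_pow]; have : (q ^ 2) ^ 3 = 1 := by rw [← pow_mul, mul_comm, pow_mul, q3, one_pow]
    rw [this, one_mul]
  rw [eval_decomp f x] at h0
  rw [eval_decomp f (q ^ 2 * x), eval_decomp f (q * x), e1, e2] at h1
  have h3 : (3 : ℂ) * (sec 0 f).eval (x ^ 3) = 0 := by
    linear_combination h0 + h1 + (-(x * (sec 1 f).eval (x ^ 3)) -
      (x ^ 2 * (sec 2 f).eval (x ^ 3)) * (q ^ 2 - q + 1)) * hq
  rcases mul_eq_zero.1 h3 with h | h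
  · norm_num at h
  · exact h

/-- vanishing of the `2` part -/
lemma sec2_eval_eq_zero {q : ℂ} (hq : q ^ 2 + q + 1 = 0) (f : ℂ[X]) (x : ℂ) (hx : x ≠ 0)
    (h0 : f.eval x = 0) (h1 : f.eval (q ^ 2 * x) + q ^ 2 * f.eval (q * x) = 0) :
    (sec 2 f).eval (x ^ 3) = 0 := by
  have q3 : q ^ 3 = 1 := by linear_combination (q - 1) * hq
  have e1 : (q * x) ^ 3 = x ^ 3 := by rw [mul_pow, q3, one_mul]
  have e2 : (q ^ 2 * x) ^ 3 = x ^ 3 := by
    rw [mul_pow]; have : (q ^ 2) ^ 3 = 1 := by rw [← pow_mul, mul_comm, pow_mul, q3, one_pow]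
    rw [this, one_mul]
  rw [eval_decomp f x] at h0
  rw [eval_decomp f (q ^ 2 * x), eval_decomp f (q * x), e1, e2] at h1
  -- multiply the second relation by q² : q² f(q² x) + q f(q x) + f(x) = 3 x² sec 2
  have h3 : (3 : ℂ) * (x ^ 2 * (sec 2 f).eval (x ^ 3)) = 0 := by
    have q4 : q ^ 4 = q := by linear_combination q * q3
    have q6 : q ^ 6 = 1 := by linear_combination (q ^ 3 + 1) * q3
    linear_combination h0 + q ^ 2 * h1 +
      (-((sec 0 f).eval (x ^ 3))) * (hq + q * q3) +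
      (-(x * (sec 1 f).eval (x ^ 3))) * (hq + (q + q ^ 2) * q3) +
      (-(x ^ 2 * (sec 2 f).eval (x ^ 3))) * ((q ^ 3 + 1) * q3 + (q ^ 3 + 1) * q3)
  rcases mul_eq_zero.1 h3 with h | h
  · norm_num at h
  · rcases mul_eq_zero.1 h with h' | h'
    · exact absurd h' (pow_ne_zero 2 hx)
    · exact h'


/-! ### three-term relation for the leg sums -/

/-- product over the other strands -/
lemma lg_neg (c : List ℂ) (x : ℂ) : lg c x = (-1) ^ c.length * (c.map fun a => x - a).prod := by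
  induction c with
  | nil => simp
  | cons a c ih =>
    rw [lg_cons, ih, List.length_cons, List.map_cons, List.prod_cons, pow_succ]
    ring

lemma gen_facts {q : ℂ} (hq : q ^ 2 + q + 1 = 0) {M : ℕ} {z : ℕ → ℂ} (hz : Gen M z) {a : ℕ} (ha : a < M)
    {j : ℕ} (hj : j ∈ (range M).erase a) :
    z j ≠ z a ∧ z j ≠ q * z a ∧ z j ≠ q ^ 2 * z a := by
  have q3 : q ^ 3 = 1 := by linear_combination (q - 1) * hq
  have hja := ne_of_mem_erase hj
  have hjM := mem_range.1 (mem_of_mem_erase hj)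
  have h := hz j hjM a ha hja
  refine ⟨fun e => h (by rw [e]), fun e => h ?_, fun e => h ?_⟩
  · rw [e, mul_pow, q3, one_mul]
  · rw [e, mul_pow, ← pow_mul, mul_comm 2 3, pow_mul, q3, one_pow, one_mul]

/-- common factor of the two recursions -/
noncomputable def Wf (q u v : ℂ) (M : ℕ) (a : ℕ) (c : List ℂ) (z : ℕ → ℂ) : ℂ :=
  PM M z / (∏ j ∈ (range M).erase a, (z j ^ 2 + z j * z a + z a ^ 2)) * z a *
    SG q u v ((range M).erase a) (z a :: c) z

lemma SS_rec1 {q : ℂ} (u v : ℂ) (hq : q ^ 2 + q + 1 = 0) {M : ℕ} {z : ℕ → ℂ} (hz : Gen M z) {a : ℕ}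
    (ha : a < M) (c : List ℂ) :
    SS q u v M ((q ^ 2 * z a) :: c) z = u * (q ^ 2 - q) * lg c (q * z a) *
      (∏ j ∈ (range M).erase a, (z j - q * z a) ^ 2) * Wf q u v M a c z := by
  have q3 : q ^ 3 = 1 := by linear_combination (q - 1) * hq
  unfold SS Wf
  rw [SG_rec1 hq (mem_range.2 ha) c z (fun j hj => ⟨(gen_facts hq hz ha hj).1, (gen_facts hq hz ha hj).2.2⟩)]
  have h1 : (∏ j ∈ (range M).erase a, (z j ^ 2 + z j * z a + z a ^ 2)) =
      (∏ j ∈ (range M).erase a, (z j - q * z a)) * ∏ j ∈ (range M).erase a, (z j - q ^ 2 * z a) := by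
    rw [← prod_mul_distrib]
    apply prod_congr rfl
    intro j _
    linear_combination (z j * z a) * hq - z a ^ 2 * q3
  have h2 : ∏ j ∈ (range M).erase a, (z j - q * z a) ≠ 0 :=
    prod_ne_zero_iff.2 fun j hj => sub_ne_zero.2 (gen_facts hq hz ha hj).2.1
  have h3 : ∏ j ∈ (range M).erase a, (z j - q ^ 2 * z a) ≠ 0 :=
    prod_ne_zero_iff.2 fun j hj => sub_ne_zero.2 (gen_facts hq hz ha hj).2.2
  rw [h1, prod_div_distrib, prod_pow]
  field_simp

lemma SS_rec2 {q : ℂ} (u v : ℂ) (hq : q ^ 2 + q + 1 = 0) {M : ℕ} {z : ℕ → ℂ} (hz : Gen M z) {a : ℕ}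
    (ha : a < M) (c : List ℂ) :
    SS q u v M ((q * z a) :: c) z = v * (q - q ^ 2) * lg c (q ^ 2 * z a) *
      (∏ j ∈ (range M).erase a, (z j - q ^ 2 * z a) ^ 2) * Wf q u v M a c z := by
  have q3 : q ^ 3 = 1 := by linear_combination (q - 1) * hq
  unfold SS Wf
  rw [SG_rec2 hq (mem_range.2 ha) c z (fun j hj => ⟨(gen_facts hq hz ha hj).1, (gen_facts hq hz ha hj).2.1⟩)]
  have h1 : (∏ j ∈ (range M).erase a, (z j ^ 2 + z j * z a + z a ^ 2)) =
      (∏ j ∈ (range M).erase a, (z j - q * z a)) * ∏ j ∈ (range M).erase a, (z j - q ^ 2 * z a) := by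
    rw [← prod_mul_distrib]
    apply prod_congr rfl
    intro j _
    linear_combination (z j * z a) * hq - z a ^ 2 * q3
  have h2 : ∏ j ∈ (range M).erase a, (z j - q * z a) ≠ 0 :=
    prod_ne_zero_iff.2 fun j hj => sub_ne_zero.2 (gen_facts hq hz ha hj).2.1
  have h3 : ∏ j ∈ (range M).erase a, (z j - q ^ 2 * z a) ≠ 0 :=
    prod_ne_zero_iff.2 fun j hj => sub_ne_zero.2 (gen_facts hq hz ha hj).2.2
  rw [h1, prod_div_distrib, prod_pow]
  field_simp

/-- the polynomial `Φ` -/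
noncomputable def Phi (q u v : ℂ) (M : ℕ) (c : List ℂ) (z : ℕ → ℂ) : ℂ[X] :=
  Sp q u v M c z * (c.map fun a => X - C a).prod * ∏ j ∈ range M, (X - C (z j)) ^ 2

lemma eval_list (c : List ℂ) (x : ℂ) :
    ((c.map fun a => (X - C a : ℂ[X])).prod).eval x = (c.map fun a => x - a).prod := by
  induction c with
  | nil => simp
  | cons a c ih => simp [ih]

lemma Phi_eval (q u v : ℂ) (M : ℕ) (c : List ℂ) (z : ℕ → ℂ) (x : ℂ) :
    (Phi q u v M c z).eval x = SS q u v M (x :: c) z * (c.map fun a => x - a).prod *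
      ∏ j ∈ range M, (x - z j) ^ 2 := by
  unfold Phi
  rw [eval_mul, eval_mul, Sp_eval, eval_list, eval_prod]
  simp

lemma Phi_root (q u v : ℂ) {M : ℕ} (c : List ℂ) (z : ℕ → ℂ) {a : ℕ} (ha : a < M) :
    (Phi q u v M c z).eval (z a) = 0 := by
  rw [Phi_eval, prod_eq_zero (mem_range.2 ha) (by simp), mul_zero]

lemma Phi_three {q : ℂ} (u v : ℂ) (hq : q ^ 2 + q + 1 = 0) {M : ℕ} {z : ℕ → ℂ} (hz : Gen M z) {a : ℕ}
    (ha : a < M) (c : List ℂ) :
    v * (Phi q u v M c z).eval (q ^ 2 * z a) + u * q * (Phi q u v M c z).eval (q * z a) = 0 := by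
  have q3 : q ^ 3 = 1 := by linear_combination (q - 1) * hq
  rw [Phi_eval, Phi_eval, SS_rec1 u v hq hz ha, SS_rec2 u v hq hz ha, lg_neg, lg_neg]
  rw [← mul_prod_erase (range M) (fun j => (q ^ 2 * z a - z j) ^ 2) (mem_range.2 ha),
    ← mul_prod_erase (range M) (fun j => (q * z a - z j) ^ 2) (mem_range.2 ha)]
  have e1 : ∏ j ∈ (range M).erase a, (q ^ 2 * z a - z j) ^ 2 =
      ∏ j ∈ (range M).erase a, (z j - q ^ 2 * z a) ^ 2 :=
    prod_congr rfl fun j _ => by ring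
  have e2 : ∏ j ∈ (range M).erase a, (q * z a - z j) ^ 2 =
      ∏ j ∈ (range M).erase a, (z j - q * z a) ^ 2 :=
    prod_congr rfl fun j _ => by ring
  rw [e1, e2]
  have e3 : (q ^ 2 - q) * (q ^ 2 * z a - z a) ^ 2 + q * (q - q ^ 2) * (q * z a - z a) ^ 2 = 0 := by
    have : (q ^ 2 - q) * (q ^ 2 * z a - z a) ^ 2 + q * (q - q ^ 2) * (q * z a - z a) ^ 2 =
      z a ^ 2 * q * (q - 1) ^ 3 * (q ^ 2 + q + 1) := by ring
    rw [this, hq]; ring
  set A := (c.map fun a_1 => q * z a - a_1).prod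
  set B := (c.map fun a_1 => q ^ 2 * z a - a_1).prod
  set D := ∏ j ∈ (range M).erase a, (z j - q * z a) ^ 2
  set E := ∏ j ∈ (range M).erase a, (z j - q ^ 2 * z a) ^ 2
  set W := Wf q u v M a c z
  linear_combination (u * v * (-1) ^ c.length * A * B * D * E * W) * e3

end Pool.Agent.H34.Hom
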