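import Pool.Agent.H34.Hom.Eval2
import Pool.Agent.H34.Hom.Eval4
import Pool.Agent.H34.Hom.Struct

/-!
# The homogeneous values as products
-/

namespace Pool.Agent.H34.Hom

open Finset Polynomial Pool.Agent.H96.EX Filter Topology

/-- number of alternating sign matrices (product formula, as a real number) -/
noncomputable def asm : ℕ → ℝ
  | 0 => 1
  | n + 1 => asm n * (((3 * n + 1).factorial : ℝ) * (n.factorial : ℝ) /
      (((2 * n).factorial : ℝ) * ((2 * n + 1).factorial : ℝ)))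

lemma asm_pos (n : ℕ) : 0 < asm n := by
  induction n with
  | zero => simp [asm]
  | succ n ih => unfold asm; positivity

section

variable {q : ℂ} (hq : q ^ 2 + q + 1 = 0)
include hq

lemma two_leg_rec (M : ℕ) :
    HV q (q ^ 2) q (M + 1) [1, 1] * (((2 * M + 3).factorial : ℂ) * ((2 * M + 2).factorial : ℂ)) =
      -(3 ^ (M + 1) * ((M + 1).factorial : ℂ) * ((3 * M + 4).factorial : ℂ)) * HV q (q ^ 2) q M [1, 1] := by
  have q3 : q ^ 3 = 1 := by linear_combination (q - 1) * hq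
  obtain ⟨A, hdeg, hev, hCT⟩ := exists_HP (q := q) (q ^ 2) q hq (M + 1) [1]
  have h1 := struct1 hq (M + 1) [1] (by simp) hCT
  have e1 : A * (([1] : List ℂ).map fun a => X - C a).prod * (X - 1) ^ (2 * (M + 1)) =
      A * (X - 1) ^ (2 * (M + 1) + 1) := by
    simp only [List.map_cons, List.map_nil, List.prod_cons, List.prod_nil, mul_one, map_one]
    ring
  rw [e1] at h1
  have h2 := eval_two_leg hq A (M + 1) hdeg h1
  rw [hev, hev, HV_rec (q ^ 2) q hq M [1]] at h2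
  simp only [lg_cons, lg_nil, mul_one] at h2
  have hq1 : q ^ 2 - 1 ≠ 0 := by
    intro h
    have h3 : (3 : ℂ) = 0 := by linear_combination (2 - q) * hq + (q - 1) * h + (q^2 - 1 - q^2+1) * h
    norm_num at h3
  have key : q ^ 2 * (q ^ 2 - q) * (1 - q) * (1 - q) ^ (2 * M) * (q ^ 2 - 1) ^ (2 * (M + 1) + 1) =
      -(3 ^ (2 * M + 2)) * (q ^ 2 - 1) := by
    have e2 : (1 - q) * (q ^ 2 - 1) = -3 := by linear_combination (2 - q) * hq
    have e3 : (1 - q) ^ (2 * M) * (q ^ 2 - 1) ^ (2 * M) = 3 ^ (2 * M) := by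
      rw [← mul_pow, e2, pow_mul, pow_mul]; norm_num
    have e4 : 2 * (M + 1) + 1 = 2 * M + 3 := by ring
    rw [e4, pow_add (q ^ 2 - 1) (2 * M) 3]
    have e5 : q ^ 2 * (q ^ 2 - q) * (1 - q) * (q ^ 2 - 1) ^ 3 = - (3 ^ 2) * (q ^ 2 - 1) := by
      have e6 : q ^ 2 * (q ^ 2 - q) = q - 1 := by linear_combination (q - 1) * q3
      rw [e6]
      linear_combination ((q - 1) * (q ^ 2 - 1) ^ 2 + 3 * (q ^ 2 - 1) * 0) * e2 + (3 * (q^2 - 1)) * e2 * 1 + 0 * hq
    calc _ = (q ^ 2 * (q ^ 2 - q) * (1 - q) * (q ^ 2 - 1) ^ 3) * ((1 - q) ^ (2 * M) * (q ^ 2 - 1) ^ (2 * M)) := by ring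
      _ = _ := by rw [e3, e5]; ring
  have f1 : 2 * (M + 1) + 1 = 2 * M + 3 := by ring
  have f2 : 2 * (M + 1) = 2 * M + 2 := by ring
  have f3 : 3 * (M + 1) + 1 = 3 * M + 4 := by ring
  rw [f3] at h2
  have h3 : -(3 ^ (2 * M + 2)) * (q ^ 2 - 1) * HV q (q ^ 2) q M [1, 1] *
      (((M + 1).factorial : ℂ) * ((3 * M + 4).factorial : ℂ)) =
      (q ^ 2 - 1) * (HV q (q ^ 2) q (M + 1) [1, 1] * ((2 * (M + 1) + 1).factorial : ℂ) *
        ((2 * (M + 1)).factorial : ℂ) * 3 ^ (M + 1)) := by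
    rw [← h2, ← key]; ring
  rw [f1, f2] at h3
  have h30 : (3 : ℂ) ^ (M + 1) ≠ 0 := pow_ne_zero _ (by norm_num)
  apply mul_left_cancel₀ (mul_ne_zero hq1 h30)
  have e7 : (3 : ℂ) ^ (2 * M + 2) = 3 ^ (M + 1) * 3 ^ (M + 1) := by rw [← pow_add]; congr 1; ring
  rw [e7] at h3
  linear_combination -h3

lemma HV_nil_zero (u v : ℂ) (c : List ℂ) : HV q u v 0 c = 1 := by
  have h1 := tendsto_HV u v hq 0 c
  have h2 : ∀ t : ℝ, SS q u v 0 c (zt t) = 1 := by
    intro t
    unfold SS PM pp SG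
    simp
  simp only [h2] at h1
  exact tendsto_nhds_unique h1 tendsto_const_nhds

/-- the two-leg value is `(-1)^M 3^(M(M+1)/2) A(M+1)` -/
theorem two_leg_value (M : ℕ) :
    HV q (q ^ 2) q M [1, 1] = (-1) ^ M * 3 ^ (M * (M + 1) / 2) * ((asm (M + 1) : ℝ) : ℂ) := by
  induction M with
  | zero =>
    rw [HV_nil_zero hq]
    simp [asm]
  | succ M ih =>
    have h := two_leg_rec hq M
    rw [ih] at h
    have f1 : ((2 * M + 3).factorial : ℂ) ≠ 0 := Nat.cast_ne_zero.2 (Nat.factorial_ne_zero _)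
    have f2 : ((2 * M + 2).factorial : ℂ) ≠ 0 := Nat.cast_ne_zero.2 (Nat.factorial_ne_zero _)
    apply mul_right_cancel₀ (mul_ne_zero f1 f2)
    rw [h]
    have e1 : (M + 1) * (M + 1 + 1) / 2 = M * (M + 1) / 2 + (M + 1) := by
      have : (M + 1) * (M + 1 + 1) = M * (M + 1) + 2 * (M + 1) := by ring
      rw [this, Nat.add_mul_div_left _ _ (by norm_num)]
    have e2 : asm (M + 1 + 1) = asm (M + 1) * (((3 * (M + 1) + 1).factorial : ℝ) * ((M + 1).factorial : ℝ) /
      (((2 * (M + 1)).factorial : ℝ) * ((2 * (M + 1) + 1).factorial : ℝ))) := rfl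
    have g1 : 2 * (M + 1) + 1 = 2 * M + 3 := by ring
    have g2 : 2 * (M + 1) = 2 * M + 2 := by ring
    have g3 : 3 * (M + 1) + 1 = 3 * M + 4 := by ring
    rw [e1, e2, g1, g2, g3]
    push_cast
    field_simp
    rw [pow_succ (-1 : ℂ) M, pow_add (3 : ℂ) (M * (M + 1) / 2) (M + 1), pow_succ (3 : ℂ) M]
    ring

lemma two_leg_ne_zero (M : ℕ) : HV q (q ^ 2) q M [1, 1] ≠ 0 := by
  rw [two_leg_value hq]
  refine mul_ne_zero (mul_ne_zero (pow_ne_zero _ (by norm_num)) (pow_ne_zero _ (by norm_num))) ?_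
  exact_mod_cast (asm_pos (M + 1)).ne'

omit hq in
lemma prod_fact (M : ℕ) : (∏ m ∈ range (M + 1), (3 * (m : ℂ) + 1)) * (∏ m ∈ range M, (3 * (m : ℂ) + 2)) *
    (3 ^ M * (M.factorial : ℂ)) = ((3 * M + 1).factorial : ℂ) := by
  induction M with
  | zero => simp
  | succ M ih =>
    rw [prod_range_succ, prod_range_succ (fun m => (3 * (m : ℂ) + 2)), Nat.factorial_succ]
    have : 3 * (M + 1) + 1 = (3 * M + 1) + 1 + 1 + 1 := by ring
    rw [this, Nat.factorial_succ, Nat.factorial_succ, Nat.factorial_succ]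
    push_cast
    rw [← ih]
    ring

/-- the zero-leg value is `(-1)^M 3^(M(M-1)/2) A(M)` -/
theorem zero_leg_value (M : ℕ) :
    HV q (q ^ 2) q M [] = (-1) ^ M * 3 ^ (M * (M - 1) / 2) * ((asm M : ℝ) : ℂ) := by
  -- one leg
  obtain ⟨A, hdeg, hev, hCT⟩ := exists_HP (q := q) (q ^ 2) q hq M [1]
  have h1 := struct1 hq M [1] (by simp) hCT
  have e1 : A * (([1] : List ℂ).map fun a => X - C a).prod * (X - 1) ^ (2 * M) =
      A * (X - 1) ^ (2 * M + 1) := by
    simp only [List.map_cons, List.map_nil, List.prod_cons, List.prod_nil, mul_one, map_one]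
    ring
  rw [e1] at h1
  have h2 := top_two_leg A M hdeg h1
  rw [top_HV (q ^ 2) q hq M [1] hCT, hev] at h2
  obtain ⟨B, hdeg', hev', hCT'⟩ := exists_HP (q := q) (q ^ 2) q hq M []
  have h1' := struct1 hq M [] (by simp) hCT'
  have e1' : B * (([] : List ℂ).map fun a => X - C a).prod * (X - 1) ^ (2 * M) =
      B * (X - 1) ^ (2 * M) := by simp
  rw [e1'] at h1'
  have h2' := top_one_leg B M hdeg' h1'
  rw [top_HV (q ^ 2) q hq M [] hCT', hev'] at h2'
  have hp := prod_fact M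
  have f1 : ((2 * M).factorial : ℂ) ≠ 0 := Nat.cast_ne_zero.2 (Nat.factorial_ne_zero _)
  have f2 : ((2 * M + 1).factorial : ℂ) ≠ 0 := Nat.cast_ne_zero.2 (Nat.factorial_ne_zero _)
  have f3 : ((3 * M + 1).factorial : ℂ) ≠ 0 := Nat.cast_ne_zero.2 (Nat.factorial_ne_zero _)
  have f4 : (M.factorial : ℂ) ≠ 0 := Nat.cast_ne_zero.2 (Nat.factorial_ne_zero _)
  have f5 : (3 : ℂ) ^ M ≠ 0 := pow_ne_zero _ (by norm_num)
  have h3 : HV q (q ^ 2) q M [] * (((3 * M + 1).factorial : ℂ) * (3 ^ M * (M.factorial : ℂ))) =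
      HV q (q ^ 2) q M [1, 1] * (((2 * M + 1).factorial : ℂ) * ((2 * M).factorial : ℂ)) := by
    rw [← hp]
    linear_combination ((∏ m ∈ range (M + 1), (3 * (m : ℂ) + 1)) * (3 ^ M * (M.factorial : ℂ))) * h2' +
      ((2 * M).factorial : ℂ) * h2
  apply mul_right_cancel₀ (mul_ne_zero f3 (mul_ne_zero f5 f4))
  rw [h3, two_leg_value hq M]
  have e2 : M * (M + 1) / 2 = M * (M - 1) / 2 + M := by
    rcases M with _ | M
    · rfl
    · have : (M + 1) * (M + 1 + 1) = (M + 1) * (M + 1 - 1) + 2 * (M + 1) := by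
        rw [Nat.add_sub_cancel]; ring
      rw [this, Nat.add_mul_div_left _ _ (by norm_num)]
  have e3 : asm (M + 1) = asm M * (((3 * M + 1).factorial : ℝ) * (M.factorial : ℝ) /
      (((2 * M).factorial : ℝ) * ((2 * M + 1).factorial : ℝ))) := rfl
  rw [e2, e3, pow_add]
  push_cast
  field_simp

/-- the four-leg value in terms of the two-leg value -/
theorem four_leg_value (M : ℕ) (hM : Even M) :
    HV q q (q ^ 2) M [1, 1, 1, 1] * (((2 * M + 3).factorial : ℂ) * ((2 * M + 2).factorial : ℂ)) =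
      (3 * M + 3) * (A0 M : ℂ) ^ 2 * HV q (q ^ 2) q M [1, 1] := by
  have q3 : q ^ 3 = 1 := by linear_combination (q - 1) * hq
  -- three legs
  obtain ⟨A, hdeg, hev, hCT⟩ := exists_HP (q := q) q (q ^ 2) hq M [1, 1]
  have h1 := struct2 hq M [1, 1] (by simp) hCT
  have e1 : A * (([1, 1] : List ℂ).map fun a => X - C a).prod * (X - 1) ^ (2 * M) =
      A * (X - 1) ^ (2 * M + 2) := by
    simp only [List.map_cons, List.map_nil, List.prod_cons, List.prod_nil, mul_one, map_one]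
    ring
  rw [e1] at h1
  have hd : ∀ n : ℕ, ((X - 1 : ℂ[X]) ^ n).natDegree ≤ n := by
    intro n
    refine natDegree_pow_le.trans ?_
    have : (X - 1 : ℂ[X]).natDegree ≤ 1 := natDegree_X_sub_C_le (1 : ℂ)
    nlinarith
  have c1 : (A * (X - 1) ^ (2 * M + 2)).coeff (3 * M + 3) = 0 := by
    apply coeff_eq_zero_of_natDegree_lt
    have := natDegree_mul_le (p := A) (q := (X - 1) ^ (2 * M + 2))
    have := hd (2 * M + 2)
    omega
  have c0 : (A * (X - 1) ^ (2 * M + 2)).coeff 0 = (-1) ^ M * HV q (q ^ 2) q M [1, 1] := by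
    rw [mul_coeff_zero, coeff_zero_eq_eval_zero, coeff_zero_eq_eval_zero, hev,
      HV_zero_leg q (q ^ 2) hq M [1, 1]]
    have e2 : q * q = q ^ 2 := by ring
    have e3 : q ^ 2 * q ^ 2 = q := by linear_combination q * q3
    rw [e2, e3]
    simp only [eval_pow, eval_sub, eval_X, eval_one, zero_sub]
    have e4 : (-1 : ℂ) ^ (2 * M + 2) = 1 := by
      have : 2 * M + 2 = 2 * (M + 1) := by ring
      rw [this, pow_mul]; norm_num
    rw [e4, mul_one]
  rw [c1, c0] at h1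
  have hsg : ((-1 : ℂ) ^ M) = 1 := hM.neg_one_pow
  rw [hsg] at h1
  simp only [one_mul, mul_one, map_zero, zero_mul, add_zero] at h1
  have h2 := eval_three_leg A M hdeg _ h1
  rw [hev] at h2
  -- four legs
  obtain ⟨B, hdeg', hev', hCT'⟩ := exists_HP (q := q) q (q ^ 2) hq M [1, 1, 1]
  have h1' := struct2 hq M [1, 1, 1] (by simp) hCT'
  have e1' : B * (([1, 1, 1] : List ℂ).map fun a => X - C a).prod * (X - 1) ^ (2 * M) =
      B * (X - 1) ^ (2 * M + 3) := by
    simp only [List.map_cons, List.map_nil, List.prod_cons, List.prod_nil, mul_one, map_one]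
    ring
  rw [e1'] at h1'
  have h2' := eval_four_leg B M hM hdeg' _ _ h1'
  have hmon : ((X - 1 : ℂ[X]) ^ (2 * M + 3)).coeff (2 * M + 3) = 1 := by
    have := (monic_X_sub_C (1 : ℂ)).pow (2 * M + 3)
    have h2 : ((X - C (1 : ℂ)) ^ (2 * M + 3)).natDegree = 2 * M + 3 := by
      rw [(monic_X_sub_C (1 : ℂ)).natDegree_pow, natDegree_X_sub_C, mul_one]
    rw [Monic, leadingCoeff, h2] at this
    exact this
  have c3 : (B * (X - 1) ^ (2 * M + 3)).coeff (3 * M + 3) = HV q q (q ^ 2) M [1, 1, 1] := by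
    have : 3 * M + 3 = M + (2 * M + 3) := by ring
    rw [this, coeff_mul_add_eq_of_natDegree_le hdeg' (hd _), hmon, mul_one,
      top_HV q (q ^ 2) hq M [1, 1, 1] hCT']
  rw [c3, hev'] at h2'
  linear_combination ((2 * M + 2).factorial : ℂ) * h2' + ((3 * M + 3) * (A0 M : ℂ)) * h2

end

end Pool.Agent.H34.Hom
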