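import Mathlib

/-!
# A very-well-poised alternating sum (WZ proof)

`gN N i = ∏_{m<N} (3i-3m-1)(3i-3m-2)` and `A0 M = ∑_i (-1)^(M-i) C(M,i) gN (M+1) i`.
For even `M`: `A0 (M+2) * (m+2) = 36 (m+1)(2m+1)(2m+3)(3m+4)(3m+5) A0 M`, `M = 2m`.
-/

namespace Pool.Agent.H34.Hom

open Finset

/-- `∏_{m<N} (3i-3m-1)(3i-3m-2)` -/
def gN (N : ℕ) (i : ℤ) : ℤ := ∏ m ∈ range N, (3 * i - 3 * m - 1) * (3 * i - 3 * m - 2)

/-- the alternating sum of the four-leg evaluation -/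
def A0 (M : ℕ) : ℤ := ∑ i ∈ range (M + 1), (-1) ^ (M - i) * (M.choose i : ℤ) * gN (M + 1) i

/-- the very-well-poised sum -/
def Wsum (N : ℕ) : ℤ := ∑ i ∈ range (N + 1), (-1) ^ i * (N.choose i : ℤ) * (2 * i - N) * gN N i

lemma gN_succ (N : ℕ) (i : ℤ) : gN (N + 1) i = gN N i * ((3 * i - 3 * N - 1) * (3 * i - 3 * N - 2)) := by
  unfold gN; rw [prod_range_succ]

lemma gN_shift (N : ℕ) (i : ℤ) : gN (N + 1) (i + 1) = gN N i * ((3 * i + 2) * (3 * i + 1)) := by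
  unfold gN
  rw [prod_range_succ']
  congr 1
  · apply prod_congr rfl
    intro m _
    push_cast
    ring
  · push_cast; ring

/-- the WZ certificate polynomial times `N+3` -/
def Qz (N i : ℤ) : ℤ :=
  (-210 * N - 461 * N ^ 2 - 376 * N ^ 3 - 135 * N ^ 4 - 18 * N ^ 5) +
  (318 + 925 * N + 941 * N ^ 2 + 405 * N ^ 3 + 63 * N ^ 4) * i +
  (-234 - 477 * N - 306 * N ^ 2 - 63 * N ^ 3) * i ^ 2 +
  (36 + 54 * N + 18 * N ^ 2) * i ^ 3

/-- term of the sum -/
def Fz (N : ℕ) (i : ℕ) : ℤ := (-1) ^ i * (N.choose i : ℤ) * (2 * i - N) * gN N i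

def Gz (N : ℕ) (i : ℕ) : ℤ := (-1) ^ i * ((N + 2).choose i : ℤ) * i * gN (N + 1) i * Qz N i

lemma choose_rel1 (N i : ℕ) : ((N + 2).choose (i + 1) : ℤ) * (i + 1) = ((N + 2).choose i : ℤ) * (N + 2 - i) := by
  rcases le_or_gt i (N + 2) with h | h
  · have := Nat.choose_succ_right_eq (N + 2) i
    have h2 : ((N + 2 - i : ℕ) : ℤ) = N + 2 - i := by push_cast [Nat.cast_sub h]; ring
    rw [← h2]
    exact_mod_cast this
  · rw [Nat.choose_eq_zero_of_lt h, Nat.choose_eq_zero_of_lt (by omega)]; simp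

lemma choose_rel2 (N i : ℕ) : ((N : ℤ) + 2) * (N + 1) * (N.choose i : ℤ) =
    ((N + 2).choose i : ℤ) * (N + 2 - i) * (N + 1 - i) := by
  have key : ∀ n k : ℕ, ((n : ℤ) + 1) * (n.choose k : ℤ) = ((n + 1).choose k : ℤ) * (n + 1 - k) := by
    intro n k
    rcases le_or_gt k n with h | h
    · have := Nat.choose_mul_succ_eq n k
      have h2 : ((n + 1 - k : ℕ) : ℤ) = n + 1 - k := by
        rw [Nat.cast_sub (by omega)]; push_cast; ring
      rw [← h2, mul_comm]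
      exact_mod_cast this
    · rcases Nat.lt_or_ge (n + 1) k with h' | h'
      · rw [Nat.choose_eq_zero_of_lt h, Nat.choose_eq_zero_of_lt h']; simp
      · have : k = n + 1 := by omega
        subst this
        rw [Nat.choose_eq_zero_of_lt h]; simp
  have h1 := key N i
  have h2 := key (N + 1) i
  push_cast at h2
  linear_combination (N + 2 : ℤ) * h1 + (N + 1 - i : ℤ) * h2

lemma wz_step (N : ℕ) (hN : 1 ≤ N) (i : ℕ) :
    ((N : ℤ) + 1) * (N + 2) * (N + 3) * Fz (N + 2) i -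
      ((N : ℤ) + 1) * (N + 2) * (9 * (N + 1) * (N + 2) ^ 2 * (3 * N + 5) * (3 * N + 7)) * Fz N i =
    Gz N (i + 1) - Gz N i := by
  obtain ⟨K, rfl⟩ : ∃ K, N = K + 1 := ⟨N - 1, by omega⟩
  have e1 := choose_rel1 (K + 1) i
  have e2 := choose_rel2 (K + 1) i
  have g1 : gN (K + 1 + 2) i = gN K i * ((3 * i - 3 * K - 1) * (3 * i - 3 * K - 2)) *
      ((3 * i - 3 * (K + 1) - 1) * (3 * i - 3 * (K + 1) - 2)) *
      ((3 * i - 3 * (K + 2) - 1) * (3 * i - 3 * (K + 2) - 2)) := by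
    rw [gN_succ, gN_succ, gN_succ]; push_cast; ring
  have g2 : gN (K + 1) i = gN K i * ((3 * i - 3 * K - 1) * (3 * i - 3 * K - 2)) := gN_succ K i
  have g3 : gN (K + 1 + 1) i = gN K i * ((3 * i - 3 * K - 1) * (3 * i - 3 * K - 2)) *
      ((3 * i - 3 * (K + 1) - 1) * (3 * i - 3 * (K + 1) - 2)) := by
    rw [gN_succ, gN_succ]; push_cast; ring
  have g4 : gN (K + 1 + 1) ((i : ℤ) + 1) = gN K i * ((3 * i - 3 * K - 1) * (3 * i - 3 * K - 2)) *
      ((3 * i + 2) * (3 * i + 1)) := by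
    rw [gN_shift, gN_succ]
  unfold Fz Gz
  push_cast at e1 e2 ⊢
  rw [g1, g2, g3, g4, pow_succ (-1 : ℤ) i]
  unfold Qz
  generalize ((K + 1 + 2).choose i : ℤ) = X at *
  generalize ((K + 1 + 2).choose (i + 1) : ℤ) = X' at *
  generalize ((K + 1).choose i : ℤ) = Y at *
  generalize gN K (i : ℤ) = G at *
  generalize ((-1 : ℤ)) ^ i = s
  generalize (K : ℤ) = k at *
  generalize (i : ℤ) = x at *
  linear_combination (-(9 * (k + 1 + 1) * (k + 1 + 2) ^ 2 * (3 * (k + 1) + 5) * (3 * (k + 1) + 7)) * s *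
    (2 * x - (k + 1)) * (G * ((3 * x - 3 * k - 1) * (3 * x - 3 * k - 2)))) * e2 +
    (s * (G * ((3 * x - 3 * k - 1) * (3 * x - 3 * k - 2)) * ((3 * x + 2) * (3 * x + 1))) *
      ((-210 * (k + 1) - 461 * (k + 1) ^ 2 - 376 * (k + 1) ^ 3 - 135 * (k + 1) ^ 4 - 18 * (k + 1) ^ 5) +
  (318 + 925 * (k + 1) + 941 * (k + 1) ^ 2 + 405 * (k + 1) ^ 3 + 63 * (k + 1) ^ 4) * (x + 1) +
  (-234 - 477 * (k + 1) - 306 * (k + 1) ^ 2 - 63 * (k + 1) ^ 3) * (x + 1) ^ 2 +
  (36 + 54 * (k + 1) + 18 * (k + 1) ^ 2) * (x + 1) ^ 3)) * e1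

lemma Wsum_rec (N : ℕ) (hN : 1 ≤ N) :
    ((N : ℤ) + 3) * Wsum (N + 2) =
      9 * (N + 1) * (N + 2) ^ 2 * (3 * N + 5) * (3 * N + 7) * Wsum N := by
  have h1 : Wsum (N + 2) = ∑ i ∈ range (N + 3), Fz (N + 2) i := by
    unfold Wsum Fz; push_cast; rfl
  have h2 : Wsum N = ∑ i ∈ range (N + 3), Fz N i := by
    rw [sum_range_succ, sum_range_succ]
    unfold Wsum Fz
    rw [Nat.choose_eq_zero_of_lt (by omega : N < N + 2), Nat.choose_eq_zero_of_lt (by omega : N < N + 1)]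
    simp
  have h3 : ∑ i ∈ range (N + 3), (Gz N (i + 1) - Gz N i) = 0 := by
    rw [sum_range_sub]
    unfold Gz
    rw [Nat.choose_eq_zero_of_lt (by omega : N + 2 < N + 3)]
    simp
  have h4 : ∑ i ∈ range (N + 3), (((N : ℤ) + 1) * (N + 2) * (N + 3) * Fz (N + 2) i -
      ((N : ℤ) + 1) * (N + 2) * (9 * (N + 1) * (N + 2) ^ 2 * (3 * N + 5) * (3 * N + 7)) * Fz N i) = 0 := by
    rw [← h3]
    exact sum_congr rfl fun i _ => wz_step N hN i
  rw [sum_sub_distrib, ← mul_sum, ← mul_sum, ← h1, ← h2] at h4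
  have h5 : ((N : ℤ) + 1) * (N + 2) ≠ 0 := by positivity
  apply mul_left_cancel₀ h5
  linear_combination h4

lemma gN_reflect (N i : ℕ) (hi : i ≤ N) : gN N ((N - i : ℕ) : ℤ) = gN N i := by
  unfold gN
  rw [← prod_range_reflect]
  apply prod_congr rfl
  intro m hm
  rw [mem_range] at hm
  have h1 : ((N - 1 - m : ℕ) : ℤ) = N - 1 - m := by omega
  rw [h1, Nat.cast_sub hi]
  ring

lemma sum_choose_gN (N : ℕ) (hN : Odd N) :
    ∑ i ∈ range (N + 1), (-1) ^ i * (N.choose i : ℤ) * gN N i = 0 := by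
  have h : ∑ i ∈ range (N + 1), (-1) ^ i * (N.choose i : ℤ) * gN N i =
      - ∑ i ∈ range (N + 1), (-1) ^ i * (N.choose i : ℤ) * gN N i := by
    conv_lhs => rw [← sum_range_reflect]
    rw [← sum_neg_distrib]
    apply sum_congr rfl
    intro i hi
    rw [mem_range] at hi
    have h1 : N + 1 - 1 - i = N - i := by omega
    rw [h1, Nat.choose_symm (by omega), gN_reflect N i (by omega)]
    have h2 : (-1 : ℤ) ^ (N - i) * (-1) ^ i = -1 := by
      rw [← pow_add, Nat.sub_add_cancel (by omega)]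
      exact hN.neg_one_pow
    have h3 : (-1 : ℤ) ^ i * (-1) ^ i = 1 := by rw [← pow_add]; exact (Even.add_self i).neg_one_pow
    have h4 : (-1 : ℤ) ^ (N - i) = - (-1) ^ i := by
      linear_combination (-1 : ℤ) ^ i * h2 - (-1 : ℤ) ^ (N - i) * h3
    rw [h4]; ring
  linarith

lemma Wsum_eq (M : ℕ) (hM : Even M) : Wsum (M + 1) = -2 * (M + 1) * A0 M := by
  have h0 := sum_choose_gN (M + 1) hM.add_one
  have h1 : ((M : ℤ) + 1) * A0 M = ∑ i ∈ range (M + 1 + 1),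
      (-1) ^ i * ((M + 1).choose i : ℤ) * (M + 1 - i) * gN (M + 1) i := by
    rw [sum_range_succ]
    unfold A0
    rw [mul_sum]
    have hlast : (-1 : ℤ) ^ (M + 1) * ((M + 1).choose (M + 1) : ℤ) * (M + 1 - ((M + 1 : ℕ) : ℤ)) *
        gN (M + 1) ((M + 1 : ℕ) : ℤ) = 0 := by push_cast; ring
    rw [hlast, add_zero]
    apply sum_congr rfl
    intro i hi
    rw [mem_range] at hi
    have h2 : (-1 : ℤ) ^ (M - i) = (-1) ^ i := by
      have h3 : (-1 : ℤ) ^ (M - i) * (-1) ^ i = 1 := by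
        rw [← pow_add, Nat.sub_add_cancel (by omega)]; exact hM.neg_one_pow
      have h4 : (-1 : ℤ) ^ i * (-1) ^ i = 1 := by
        rw [← pow_add]; exact (Even.add_self i).neg_one_pow
      linear_combination (-1 : ℤ) ^ i * h3 - (-1 : ℤ) ^ (M - i) * h4
    have h3 : ((M : ℤ) + 1) * (M.choose i : ℤ) = ((M + 1).choose i : ℤ) * (M + 1 - i) := by
      have := Nat.choose_mul_succ_eq M i
      have h5 : ((M + 1 - i : ℕ) : ℤ) = M + 1 - i := by
        rw [Nat.cast_sub (by omega)]; push_cast; ring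
      rw [← h5, mul_comm]
      exact_mod_cast this
    rw [h2]
    linear_combination (-1 : ℤ) ^ i * gN (M + 1) i * h3
  have h2 : ∑ i ∈ range (M + 1 + 1),
      (-1) ^ i * ((M + 1).choose i : ℤ) * (M + 1 - i) * gN (M + 1) i =
      ((M : ℤ) + 1) * ∑ i ∈ range (M + 1 + 1), (-1) ^ i * ((M + 1).choose i : ℤ) * gN (M + 1) i -
      ∑ i ∈ range (M + 1 + 1), (-1) ^ i * ((M + 1).choose i : ℤ) * i * gN (M + 1) i := by
    rw [mul_sum, ← sum_sub_distrib]
    apply sum_congr rfl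
    intro i _
    ring
  have h3 : Wsum (M + 1) =
      2 * ∑ i ∈ range (M + 1 + 1), (-1) ^ i * ((M + 1).choose i : ℤ) * i * gN (M + 1) i -
      ((M : ℤ) + 1) * ∑ i ∈ range (M + 1 + 1), (-1) ^ i * ((M + 1).choose i : ℤ) * gN (M + 1) i := by
    unfold Wsum
    rw [mul_sum, mul_sum, ← sum_sub_distrib]
    apply sum_congr rfl
    intro i _
    push_cast
    ring
  rw [h3, h0]
  rw [h2, h0] at h1
  linear_combination 2 * h1

/-- the recursion of `A0` at even arguments -/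
theorem A0_rec (m : ℕ) : ((m : ℤ) + 2) * A0 (2 * m + 2) =
    36 * (m + 1) * (2 * m + 1) * (2 * m + 3) * (3 * m + 4) * (3 * m + 5) * A0 (2 * m) := by
  have h1 := Wsum_rec (2 * m + 1) (by omega)
  rw [Wsum_eq (2 * m) (even_two_mul m), Wsum_eq (2 * m + 2) (by simp [parity_simps])] at h1
  push_cast at h1
  have h2 : (-4 : ℤ) * (2 * m + 3) ≠ 0 := by
    have : (0 : ℤ) ≤ m := by positivity
    intro h; linarith
  apply mul_left_cancel₀ h2
  linear_combination h1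

theorem A0_zero : A0 0 = 2 := by
  simp [A0, gN]

theorem A0_pos (m : ℕ) : 0 < A0 (2 * m) := by
  induction m with
  | zero => rw [mul_zero, A0_zero]; norm_num
  | succ m ih =>
    have h := A0_rec m
    have h2 : 0 < ((m : ℤ) + 2) * A0 (2 * m + 2) := by rw [h]; positivity
    have h3 : (0 : ℤ) < m + 2 := by positivity
    exact pos_of_mul_pos_right h2 h3.le

end Pool.Agent.H34.Hom
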